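import Mathlib

/-!
Weighted averaging over the cycles of a permutation of a finite set.

PROOF.  `w` is constant on the cycles (it does not decrease and the cycles are finite), `f` is a
bijection of `X`.  `M = N!` is a common period.  `∑_x w x #{i < M : Bd (f^i x)} =
M ∑_{Bd} w`, so the `x` with `#{i < M : Bd (f^i x)} > ep M` have weight at most
`(1/ep) ∑_{Bd} w ≤ S/2`; for a period `n ∣ M` of `x` the proportion over `n` is the proportion
over `M`.  The `x` with `Bd1 (f^i x)` for some `i` (equivalently some `i < N`) have weight at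
most `N ∑_{Bd1} w ≤ S/4`.  `Y` is the rest.
-/

namespace Pool.Agent.Helper20.MC

theorem Avg_sum_iterate {α : Type*} (X : Finset α) (f : α → α) (hf : ∀ x ∈ X, f x ∈ X)
    (hinj : Set.InjOn f X) (i : ℕ) (F : α → ℝ) :
    ∑ x ∈ X, F (f^[i] x) = ∑ x ∈ X, F x := by
  induction i generalizing F with
  | zero => rfl
  | succ i ih =>
    have hmaps : Set.MapsTo f X X := fun x hx => hf x hx
    have hsurj : Set.SurjOn f X X :=
      Finset.surjOn_of_injOn_of_card_le f hmaps hinj le_rfl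
    calc ∑ x ∈ X, F (f^[i + 1] x) = ∑ x ∈ X, F (f^[i] (f x)) := by
          simp only [Function.iterate_succ, Function.comp_apply]
      _ = ∑ x ∈ X, F (f^[i] x) :=
          Finset.sum_nbij f hf hinj hsurj (fun _ _ => rfl)
      _ = ∑ x ∈ X, F x := ih F

theorem Avg_mem {α : Type*} (X : Finset α) (f : α → α) (hf : ∀ x ∈ X, f x ∈ X)
    (i : ℕ) : ∀ x ∈ X, f^[i] x ∈ X := by
  induction i with
  | zero => exact fun x hx => hx
  | succ i ih =>
    intro x hx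
    rw [Function.iterate_succ_apply]
    exact ih _ (hf x hx)

theorem Avg_le {α : Type*} (X : Finset α) (f : α → α) (hf : ∀ x ∈ X, f x ∈ X)
    (w : α → ℕ) (hw : ∀ x ∈ X, w x ≤ w (f x)) (i : ℕ) :
    ∀ x ∈ X, w x ≤ w (f^[i] x) := by
  induction i with
  | zero => exact fun x _ => le_rfl
  | succ i ih =>
    intro x hx
    rw [Function.iterate_succ_apply]
    exact (hw x hx).trans (ih _ (hf x hx))

theorem Avg_period {α : Type*} (f : α → α) (x : α) (n : ℕ) (hn : f^[n] x = x) (q : ℕ) :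
    f^[n * q] x = x := by
  rw [Function.iterate_mul]
  exact (show Function.IsFixedPt (f^[n]) x from hn).iterate q

theorem Avg_eq {α : Type*} (X : Finset α) (f : α → α) (hf : ∀ x ∈ X, f x ∈ X)
    (w : α → ℕ) (hw : ∀ x ∈ X, w x ≤ w (f x))
    (hper : ∀ x ∈ X, ∃ n : ℕ, 1 ≤ n ∧ f^[n] x = x) (i : ℕ) :
    ∀ x ∈ X, w (f^[i] x) = w x := by
  intro x hx
  obtain ⟨n, hn1, hn⟩ := hper x hx
  apply le_antisymm _ (Avg_le X f hf w hw i x hx)
  have h1 : f^[n * i] x = x := Avg_period f x n hn i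
  have h2 : i ≤ n * i := Nat.le_mul_of_pos_left i hn1
  have h3 := Avg_le X f hf w hw (n * i - i) (f^[i] x) (Avg_mem X f hf i x hx)
  rw [← Function.iterate_add_apply, Nat.sub_add_cancel h2, h1] at h3
  exact h3

theorem Avg_sum_period {α : Type*} (f : α → α) (x : α) (n : ℕ) (hn : f^[n] x = x)
    (h : α → ℝ) (q : ℕ) :
    ∑ i ∈ Finset.range (n * q), h (f^[i] x) = q * ∑ i ∈ Finset.range n, h (f^[i] x) := by
  induction q with
  | zero => simp
  | succ q ih =>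
    rw [Nat.mul_succ, Finset.sum_range_add, ih]
    have : ∀ i ∈ Finset.range n, h (f^[n * q + i] x) = h (f^[i] x) := by
      intro i _
      rw [add_comm, Function.iterate_add_apply, Avg_period f x n hn q]
    rw [Finset.sum_congr rfl this]
    push_cast
    ring

open Classical in
theorem avgF {α : Type*} (X : Finset α) (f : α → α) (hf : ∀ x ∈ X, f x ∈ X)
    (hinj : Set.InjOn f X) (w : α → ℕ) (hw : ∀ x ∈ X, w x ≤ w (f x)) (N : ℕ)
    (hper : ∀ x ∈ X, ∃ n : ℕ, 1 ≤ n ∧ n ≤ N ∧ f^[n] x = x)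
    (h : α → ℝ) (hnn : ∀ x, 0 ≤ h x) (Bd1 : α → Prop) {ep : ℝ} (hep : 0 < ep)
    (h1 : ∑ x ∈ X, (w x : ℝ) * h x ≤ ep / 2 * ∑ x ∈ X, (w x : ℝ))
    (h2 : N * ∑ x ∈ X.filter Bd1, (w x : ℝ) ≤ 1 / 4 * ∑ x ∈ X, (w x : ℝ)) :
    ∃ Y : Finset α, Y ⊆ X ∧ 1 / 4 * ∑ x ∈ X, (w x : ℝ) ≤ ∑ x ∈ Y, (w x : ℝ) ∧
      ∀ x ∈ Y, (∀ i : ℕ, ¬ Bd1 (f^[i] x)) ∧ ∃ n : ℕ, 1 ≤ n ∧ n ≤ N ∧ f^[n] x = x ∧
        ∑ i ∈ Finset.range n, h (f^[i] x) ≤ ep * n := by
  set S : ℝ := ∑ x ∈ X, (w x : ℝ) with hS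
  set M : ℕ := N.factorial with hM
  have hMpos : (0 : ℝ) < M := by exact_mod_cast N.factorial_pos
  have hper' : ∀ x ∈ X, ∃ n : ℕ, 1 ≤ n ∧ f^[n] x = x := fun x hx => by
    obtain ⟨n, a, _, b⟩ := hper x hx
    exact ⟨n, a, b⟩
  have hwi := Avg_eq X f hf w hw hper'
  set A : α → ℝ := fun x => ∑ i ∈ Finset.range M, h (f^[i] x) with hA
  -- the mean of `A`
  have hsumA : ∑ x ∈ X, (w x : ℝ) * A x ≤ M * (ep / 2 * S) := by
    have e1 : ∑ x ∈ X, (w x : ℝ) * A x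
        = ∑ i ∈ Finset.range M, ∑ x ∈ X, (w x : ℝ) * h (f^[i] x) := by
      simp only [hA, Finset.mul_sum]
      exact Finset.sum_comm
    have e2 : ∀ i ∈ Finset.range M, ∑ x ∈ X, (w x : ℝ) * h (f^[i] x)
        = ∑ x ∈ X, (w x : ℝ) * h x := by
      intro i _
      rw [← Avg_sum_iterate X f hf hinj i (fun y => (w y : ℝ) * h y)]
      refine Finset.sum_congr rfl (fun x hx => ?_)
      rw [hwi i x hx]
    rw [e1, Finset.sum_congr rfl e2, Finset.sum_const, Finset.card_range, nsmul_eq_mul]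
    exact mul_le_mul_of_nonneg_left h1 hMpos.le
  set Y1 : Finset α := X.filter (fun x => ep * M < A x) with hY1
  set Y2 : Finset α := X.filter (fun x => ∃ i ∈ Finset.range N, Bd1 (f^[i] x)) with hY2
  have hAnn : ∀ x, 0 ≤ A x := fun x => Finset.sum_nonneg (fun i _ => hnn _)
  have hY1w : ∑ x ∈ Y1, (w x : ℝ) ≤ S / 2 := by
    have e1 : ep * M * ∑ x ∈ Y1, (w x : ℝ) ≤ ∑ x ∈ Y1, (w x : ℝ) * A x := by
      rw [Finset.mul_sum]
      refine Finset.sum_le_sum (fun x hx => ?_)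
      have := (Finset.mem_filter.mp hx).2
      rw [mul_comm]
      exact mul_le_mul_of_nonneg_left this.le (Nat.cast_nonneg _)
    have e2 : ∑ x ∈ Y1, (w x : ℝ) * A x ≤ ∑ x ∈ X, (w x : ℝ) * A x :=
      Finset.sum_le_sum_of_subset_of_nonneg (Finset.filter_subset _ _)
        (fun x _ _ => mul_nonneg (Nat.cast_nonneg _) (hAnn x))
    have e3 : ep * M * ∑ x ∈ Y1, (w x : ℝ) ≤ ep * M * (S / 2) := by
      refine (e1.trans (e2.trans hsumA)).trans (le_of_eq ?_)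
      ring
    exact le_of_mul_le_mul_left e3 (mul_pos hep hMpos)
  have hY2w : ∑ x ∈ Y2, (w x : ℝ) ≤ 1 / 4 * S := by
    refine le_trans ?_ h2
    have e1 : ∀ x ∈ Y2, (w x : ℝ) ≤
        ∑ i ∈ Finset.range N, (if Bd1 (f^[i] x) then (w (f^[i] x) : ℝ) else 0) := by
      intro x hx
      obtain ⟨hxX, i, hi, hb⟩ := Finset.mem_filter.mp hx
      have e : (w x : ℝ) = (if Bd1 (f^[i] x) then (w (f^[i] x) : ℝ) else 0) := by
        rw [if_pos hb, hwi i x hxX]
      rw [e]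
      exact Finset.single_le_sum
        (f := fun i => (if Bd1 (f^[i] x) then (w (f^[i] x) : ℝ) else 0))
        (fun j _ => by split_ifs <;> positivity) hi
    have e2 : ∑ x ∈ Y2, (w x : ℝ) ≤ ∑ x ∈ X,
        ∑ i ∈ Finset.range N, (if Bd1 (f^[i] x) then (w (f^[i] x) : ℝ) else 0) :=
      (Finset.sum_le_sum e1).trans
        (Finset.sum_le_sum_of_subset_of_nonneg (Finset.filter_subset _ _)
          (fun x _ _ => Finset.sum_nonneg (fun j _ => by split_ifs <;> positivity)))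
    refine e2.trans (le_of_eq ?_)
    rw [Finset.sum_comm]
    have e3 : ∀ i ∈ Finset.range N,
        ∑ x ∈ X, (if Bd1 (f^[i] x) then (w (f^[i] x) : ℝ) else 0)
          = ∑ x ∈ X.filter Bd1, (w x : ℝ) := by
      intro i _
      rw [Avg_sum_iterate X f hf hinj i (fun y => if Bd1 y then (w y : ℝ) else 0),
        Finset.sum_filter]
    rw [Finset.sum_congr rfl e3, Finset.sum_const, Finset.card_range, nsmul_eq_mul]
  refine ⟨X \ (Y1 ∪ Y2), Finset.sdiff_subset, ?_, ?_⟩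
  · have hsub : Y1 ∪ Y2 ⊆ X :=
      Finset.union_subset (Finset.filter_subset _ _) (Finset.filter_subset _ _)
    have e1 := Finset.sum_sdiff (f := fun x => (w x : ℝ)) hsub
    have e2 : ∑ x ∈ Y1 ∪ Y2, (w x : ℝ) ≤ ∑ x ∈ Y1, (w x : ℝ) + ∑ x ∈ Y2, (w x : ℝ) := by
      rw [← Finset.sum_union_inter]
      exact le_add_of_nonneg_right (Finset.sum_nonneg (fun x _ => Nat.cast_nonneg _))
    have e3 : ∑ x ∈ X, (w x : ℝ) = S := rfl
    linarith
  · intro x hx
    obtain ⟨hxX, hxn⟩ := Finset.mem_sdiff.mp hx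
    rw [Finset.mem_union, not_or] at hxn
    obtain ⟨n, hn1, hnN, hn⟩ := hper x hxX
    refine ⟨fun i hb => ?_, n, hn1, hnN, hn, ?_⟩
    · apply hxn.2
      refine Finset.mem_filter.mpr ⟨hxX, i % n, ?_, ?_⟩
      · exact Finset.mem_range.mpr ((Nat.mod_lt _ hn1).trans_le hnN)
      · have e : f^[i] x = f^[i % n] x := by
          conv_lhs => rw [← Nat.mod_add_div i n]
          rw [Function.iterate_add_apply, Avg_period f x n hn]
        rwa [← e]
    · have hAx : A x ≤ ep * M := by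
        by_contra hc
        exact hxn.1 (Finset.mem_filter.mpr ⟨hxX, not_le.mp hc⟩)
      obtain ⟨q, hq⟩ := Nat.dvd_factorial hn1 hnN
      have hMq : (M : ℝ) = n * q := by
        rw [hM, hq]
        push_cast
        ring
      have hqpos : (0 : ℝ) < q := by
        rcases Nat.eq_zero_or_pos q with h0 | h0
        · rw [h0] at hMq
          simp at hMq
          exact absurd hMq (by rw [hM]; exact Nat.factorial_ne_zero N)
        · exact_mod_cast h0
      have e1 : A x = q * ∑ i ∈ Finset.range n, h (f^[i] x) := by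
        rw [← Avg_sum_period f x n hn h q, ← hq]
      rw [e1, hMq] at hAx
      have e2 : (q : ℝ) * ∑ i ∈ Finset.range n, h (f^[i] x) ≤ q * (ep * n) := by
        refine hAx.trans (le_of_eq ?_)
        ring
      exact le_of_mul_le_mul_left e2 hqpos

open Classical in
theorem avg {α : Type*} (X : Finset α) (f : α → α) (hf : ∀ x ∈ X, f x ∈ X)
    (hinj : Set.InjOn f X) (w : α → ℕ) (hw : ∀ x ∈ X, w x ≤ w (f x)) (N : ℕ)
    (hper : ∀ x ∈ X, ∃ n : ℕ, 1 ≤ n ∧ n ≤ N ∧ f^[n] x = x)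
    (Bd Bd1 : α → Prop) {ep : ℝ} (hep : 0 < ep)
    (h1 : ∑ x ∈ X.filter Bd, (w x : ℝ) ≤ ep / 2 * ∑ x ∈ X, (w x : ℝ))
    (h2 : N * ∑ x ∈ X.filter Bd1, (w x : ℝ) ≤ 1 / 4 * ∑ x ∈ X, (w x : ℝ)) :
    ∃ Y : Finset α, Y ⊆ X ∧ 1 / 4 * ∑ x ∈ X, (w x : ℝ) ≤ ∑ x ∈ Y, (w x : ℝ) ∧
      ∀ x ∈ Y, (∀ i : ℕ, ¬ Bd1 (f^[i] x)) ∧ ∃ n : ℕ, 1 ≤ n ∧ n ≤ N ∧ f^[n] x = x ∧
        (((Finset.range n).filter (fun i => Bd (f^[i] x))).card : ℝ) ≤ ep * n := by
  have h1' : ∑ x ∈ X, (w x : ℝ) * (if Bd x then (1 : ℝ) else 0)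
      ≤ ep / 2 * ∑ x ∈ X, (w x : ℝ) := by
    refine le_trans (le_of_eq ?_) h1
    rw [Finset.sum_filter]
    refine Finset.sum_congr rfl (fun x _ => ?_)
    split_ifs <;> simp
  obtain ⟨Y, hY, hYw, hYp⟩ := avgF X f hf hinj w hw N hper
    (fun x => if Bd x then (1 : ℝ) else 0) (fun x => by split_ifs <;> norm_num)
    Bd1 hep h1' h2
  refine ⟨Y, hY, hYw, fun x hx => ?_⟩
  obtain ⟨hb, n, hn1, hnN, hn, hs⟩ := hYp x hx
  refine ⟨hb, n, hn1, hnN, hn, ?_⟩
  refine le_trans (le_of_eq ?_) hs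
  rw [Finset.card_filter]
  push_cast
  rfl

end Pool.Agent.Helper20.MC
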