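import Pool.Agent.Helper20.MC.Defs

/-!
Logarithmic bound for the period.

PROOF of `gm_matrix`: strong induction on `r` (for all `p q s y`).
`r = 1, s = 0`: then `q = 1`, the number is `p + 1/y`, `n = 1`.
`r = s`: then `r = 1`, `p = q + 1 ≥ 2`, the number is `p - 1 + y/(y+1)`, `gm` of it is
`1 + 1/y`, `n = 2`.  `r ≥ 2`, so `1 ≤ s < r`: `p = k r + p'` with `1 ≤ p' < r` (`p' = 0` would
give `r ∣ 1`), `k ≥ 1`, `q = k s + q'` with `q' ≥ 0` (as `q' r = p' s ± 1` and `p' s ≥ 1`),
`q' ≤ p'` (as `q' r ≤ p' s + 1 ≤ p' (r - 1) + 1 ≤ p' r`), `q' ≤ s`.  The number is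
`k + (p' y + q')/(r y + s)` with the fraction in `(0,1)`, so `gm` of it is
`(r y + s)/(p' y + q')`; induction for `(r, s; p', q')` gives `n'` with `fib n' ≤ p'`,
`fib (n' + 1) ≤ r`; take `n = n' + 1`: `fib (n' + 2) ≤ p' + r ≤ p`.
PROOF of `red_period`: apply it with `y = x = xv a g (P, Q)` and the matrix
`(t + P, (D g² - P²)/Q; Q, t - P)` (determinant 1, fixes `x`; `B < t < B + 1`).
-/

namespace Pool.Agent.Helper20.MC

/-- `gm` of an integer plus a number in `(0, 1)`. -/
theorem CF2_gm (k : ℤ) {z : ℝ} (h0 : 0 < z) (h1 : z < 1) : gm (k + z) = z⁻¹ := by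
  have h : Int.fract ((k : ℝ) + z) = z := by
    rw [Int.fract_intCast_add]
    exact Int.fract_eq_self.2 ⟨h0.le, h1⟩
  unfold gm
  rw [h]

theorem CF2_gm_inv (k : ℤ) {y : ℝ} (hy : 1 < y) : gm (k + y⁻¹) = y := by
  have h0 : 0 < y := by linarith
  rw [CF2_gm k (inv_pos.2 h0) (inv_lt_one_of_one_lt₀ hy), inv_inv]

/-- Euclid's algorithm on a nonnegative matrix of determinant `± 1` is the Gauss map. -/
theorem gm_matrix {y : ℝ} (hy : 1 < y) (p q r s : ℕ)
    (hdet : p * s = q * r + 1 ∨ q * r = p * s + 1) (h1 : 1 ≤ q) (h2 : q ≤ p) (h3 : s ≤ r)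
    (h4 : r ≤ p) (h5 : 1 ≤ r) :
    ∃ n : ℕ, 1 ≤ n ∧ Nat.fib n ≤ r ∧ Nat.fib (n + 1) ≤ p ∧
      gm^[n] (((p : ℝ) * y + q) / (r * y + s)) = y := by
  have hy0 : 0 < y := by linarith
  induction r using Nat.strong_induction_on generalizing p q s with
  | _ r ih =>
    rcases Nat.lt_or_ge 1 r with hr | hr
    · -- r ≥ 2
      have hs1 : 1 ≤ s := by
        rcases Nat.eq_zero_or_pos s with h | h
        · subst h
          rcases hdet with hd | hd
          · omega
          · have : r ≤ q * r := Nat.le_mul_of_pos_left r h1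
            omega
        · exact h
      have hk : p = r * (p / r) + p % r := (Nat.div_add_mod p r).symm
      set k := p / r with hkdef
      set p' := p % r with hpdef
      have hp'r : p' < r := Nat.mod_lt _ (by omega)
      have hk1 : 1 ≤ k := Nat.div_pos h4 (by omega)
      have hp'1 : 1 ≤ p' := by
        rcases Nat.eq_zero_or_pos p' with h | h
        · rw [h, Nat.add_zero] at hk
          exfalso
          rcases hdet with hd | hd
          · have hdv : r ∣ 1 := by
              have : r ∣ q * r + 1 := by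
                rw [← hd, hk]
                exact ⟨k * s, by ring⟩
              exact (Nat.dvd_add_right (Dvd.intro_left q rfl)).1 this
            have := Nat.le_of_dvd one_pos hdv
            omega
          · have hdv : r ∣ 1 := by
              have : r ∣ p * s + 1 := by
                rw [← hd]
                exact Dvd.intro_left q rfl
              have h' : r ∣ p * s := by
                rw [hk]
                exact ⟨k * s, by ring⟩
              exact (Nat.dvd_add_right h').1 this
            have := Nat.le_of_dvd one_pos hdv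
            omega
        · exact h
      have hps : 1 ≤ p' * s := Nat.mul_pos hp'1 hs1
      have hqk : k * s ≤ q := by
        by_contra hlt
        push Not at hlt
        have h6 : (q + 1) * r ≤ k * s * r := Nat.mul_le_mul_right r (by omega)
        have h7 : p * s = k * s * r + p' * s := by rw [hk]; ring
        rcases hdet with hd | hd
        · nlinarith
        · nlinarith
      obtain ⟨q', hq'⟩ := Nat.exists_eq_add_of_le hqk
      have hdet' : r * q' = s * p' + 1 ∨ s * p' = r * q' + 1 := by
        have h7 : p * s = k * s * r + p' * s := by rw [hk]; ring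
        have h8 : q * r = k * s * r + q' * r := by rw [hq']; ring
        rcases hdet with hd | hd
        · right
          have : p' * s = q' * r + 1 := by omega
          rw [Nat.mul_comm s p', Nat.mul_comm r q', this]
        · left
          have : q' * r = p' * s + 1 := by omega
          rw [Nat.mul_comm s p', Nat.mul_comm r q', this]
      have hsr : s < r := by
        rcases Nat.lt_or_ge s r with h | h
        · exact h
        · have hsr : s = r := le_antisymm h3 h
          exfalso
          have hdv : r ∣ 1 := by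
            rcases hdet' with hd | hd
            · have : r ∣ s * p' + 1 := by rw [← hd]; exact Dvd.intro _ rfl
              rw [hsr] at this
              exact (Nat.dvd_add_right (Dvd.intro _ rfl)).1 this
            · have : r ∣ r * q' + 1 := by rw [← hd, hsr]; exact Dvd.intro _ rfl
              exact (Nat.dvd_add_right (Dvd.intro _ rfl)).1 this
          have := Nat.le_of_dvd one_pos hdv
          omega
      have hq's : q' ≤ s := by
        have h9 : r * q' ≤ s * p' + 1 := by omega
        have h10 : s * p' ≤ s * (r - 1) := Nat.mul_le_mul_left s (by omega)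
        have h11 : s * (r - 1) + s = s * r := by
          rw [← Nat.mul_succ]; congr 1; omega
        have h12 : r * q' ≤ r * s := by
          rw [Nat.mul_comm r s]; omega
        exact Nat.le_of_mul_le_mul_left h12 (by omega)
      have hq'p : q' ≤ p' := by
        have h9 : r * q' ≤ s * p' + 1 := by omega
        have h10 : s * p' ≤ (r - 1) * p' := Nat.mul_le_mul_right p' (by omega)
        have h11 : (r - 1) * p' + p' = r * p' := by
          rw [← Nat.succ_mul]; congr 1; omega
        have h12 : r * q' ≤ r * p' := by omega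
        exact Nat.le_of_mul_le_mul_left h12 (by omega)
      obtain ⟨n, hn1, hn2, hn3, hn4⟩ := ih p' hp'r r s q' hdet' hs1 h3 hq'p hp'r.le hp'1
      refine ⟨n + 1, by omega, hn3, ?_, ?_⟩
      · have h13 : Nat.fib (n + 1 + 1) = Nat.fib n + Nat.fib (n + 1) := Nat.fib_add_two
        have h14 : r ≤ r * k := Nat.le_mul_of_pos_right r hk1
        omega
      · rw [Function.iterate_succ_apply]
        have hden : (0 : ℝ) < r * y + s := by positivity
        have hp'0 : (0 : ℝ) < p' := by exact_mod_cast hp'1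
        have hnum : (0 : ℝ) < p' * y + q' := by positivity
        have hlt : (p' : ℝ) * y + q' < r * y + s := by
          have h15 : (p' : ℝ) < r := by exact_mod_cast hp'r
          have h16 : (q' : ℝ) ≤ s := by exact_mod_cast hq's
          have h17 : (p' : ℝ) * y < r * y := mul_lt_mul_of_pos_right h15 hy0
          linarith
        have hx : ((p : ℝ) * y + q) / (r * y + s)
            = ((k : ℤ) : ℝ) + (p' * y + q') / (r * y + s) := by
          have h18 : (p : ℝ) = r * k + p' := by exact_mod_cast hk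
          have h19 : (q : ℝ) = k * s + q' := by exact_mod_cast hq'
          rw [h18, h19]
          push_cast
          field_simp
          ring
        have hg : gm (((p : ℝ) * y + q) / (r * y + s)) = (r * y + s) / (p' * y + q') := by
          rw [hx, CF2_gm _ (div_pos hnum hden) ((div_lt_one hden).2 hlt), inv_div]
        rw [hg]
        exact hn4
    · -- r = 1
      have hr1 : r = 1 := by omega
      subst hr1
      have hs : s = 0 ∨ s = 1 := by omega
      rcases hs with hs | hs
      · subst hs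
        have hq1 : q = 1 := by omega
        subst hq1
        refine ⟨1, le_rfl, by simp, by simpa using h2, ?_⟩
        have hx : ((p : ℝ) * y + (1 : ℕ)) / ((1 : ℕ) * y + (0 : ℕ)) = ((p : ℤ) : ℝ) + y⁻¹ := by
          push_cast
          field_simp
          try ring
        rw [hx, Function.iterate_one]
        exact CF2_gm_inv _ hy
      · subst hs
        have hq1 : p = q + 1 := by omega
        subst hq1
        refine ⟨2, by omega, by simp, ?_, ?_⟩
        · have : Nat.fib (2 + 1) = 2 := by decide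
          omega
        · have h20 : (0 : ℝ) < y + 1 := by linarith
          have hx : (((q + 1 : ℕ) : ℝ) * y + q) / ((1 : ℕ) * y + (1 : ℕ))
              = ((q : ℤ) : ℝ) + y / (y + 1) := by
            push_cast
            field_simp
            try ring
          have hg : gm ((((q + 1 : ℕ) : ℝ) * y + q) / ((1 : ℕ) * y + (1 : ℕ)))
              = ((1 : ℤ) : ℝ) + y⁻¹ := by
            rw [hx, CF2_gm _ (div_pos hy0 h20) ((div_lt_one h20).2 (by linarith)), inv_div]
            push_cast
            field_simp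
          rw [Function.iterate_succ_apply, Function.iterate_one, hg]
          exact CF2_gm_inv _ hy

/-- A reduced number of level `g` has a short period if `t² - D g² = 1`. -/
theorem red_period {a g t : ℕ} (ha : 2 ≤ a) (hg : 1 ≤ g)
    (ht : (t : ℤ) ^ 2 = DD a * (g : ℤ) ^ 2 + 1) {p : ℤ × ℤ} (hp : p ∈ Red a g) :
    ∃ n : ℕ, 1 ≤ n ∧ Nat.fib (n + 1) ≤ 2 * t ∧ gm^[n] (xv a g p) = xv a g p := by
  obtain ⟨P, Q⟩ := p
  obtain ⟨hQ0, hdv, hPB, hBQ, hQB⟩ := hp
  simp only at hQ0 hdv hPB hBQ hQB
  set B := bb a g with hB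
  have hsq : sq a ^ 2 = (a : ℝ) ^ 2 - 1 := by
    unfold sq
    apply Real.sq_sqrt
    have : (2 : ℝ) ≤ a := by exact_mod_cast ha
    nlinarith
  have hB2 : B ^ 2 = (t : ℝ) ^ 2 - 1 := by
    have h1 : ((t : ℝ)) ^ 2 = ((a : ℝ) ^ 2 - 1) * (g : ℝ) ^ 2 + 1 := by
      have := congrArg (fun z : ℤ => (z : ℝ)) ht
      simp only [DD] at this
      push_cast at this
      exact this
    rw [hB]
    unfold bb
    rw [mul_pow, hsq, h1]
    ring
  have hB0 : 0 ≤ B := by
    rw [hB]; unfold bb sq; positivity
  have hB1 : 1 < B := by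
    have h2 : (1 : ℝ) ≤ g := by exact_mod_cast hg
    have h3 : (2 : ℝ) ≤ a := by exact_mod_cast ha
    have h4 : (1 : ℝ) < sq a := by
      unfold sq
      rw [Real.lt_sqrt (by norm_num)]
      nlinarith
    rw [hB]; unfold bb
    nlinarith
  have htR : (0 : ℝ) ≤ t := Nat.cast_nonneg t
  have hBt : B < t := by nlinarith
  have htB : (t : ℝ) < B + 1 := by nlinarith
  have hP0 : (0 : ℝ) < P := by linarith
  have hP1 : 0 < P := by exact_mod_cast hP0
  have hPt : P < t := by
    have : (P : ℝ) < ((t : ℤ) : ℝ) := by push_cast; linarith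
    exact_mod_cast this
  obtain ⟨R, hR⟩ := hdv
  have hQR : (Q : ℝ) * R = B ^ 2 - P ^ 2 := by
    have h5 : (Q : ℤ) * R = (t : ℤ) ^ 2 - 1 - P ^ 2 := by rw [← hR]; linarith
    have h6 := congrArg (fun z : ℤ => (z : ℝ)) h5
    push_cast at h6
    rw [h6, hB2]
  have hQ0' : (0 : ℝ) < Q := by exact_mod_cast hQ0
  have hR0 : (0 : ℝ) < R := by
    by_contra h
    push Not at h
    have : (Q : ℝ) * R ≤ 0 := mul_nonpos_of_nonneg_of_nonpos hQ0'.le h
    nlinarith
  have hR1 : 0 < R := by exact_mod_cast hR0
  have hRlt : (R : ℝ) < B + P := by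
    by_contra h
    push Not at h
    nlinarith [mul_le_mul_of_nonneg_left h hQ0'.le]
  -- natural number versions
  obtain ⟨Pn, rfl⟩ := Int.eq_ofNat_of_zero_le hP1.le
  obtain ⟨Qn, rfl⟩ := Int.eq_ofNat_of_zero_le hQ0.le
  obtain ⟨Rn, rfl⟩ := Int.eq_ofNat_of_zero_le hR1.le
  have hPt' : Pn < t := by exact_mod_cast hPt
  have hts : ((t - Pn : ℕ) : ℝ) = t - Pn := by rw [Nat.cast_sub hPt'.le]
  have hdet : (t + Pn) * (t - Pn) = Rn * Qn + 1 := by
    have h7 : (((t + Pn) * (t - Pn) : ℕ) : ℤ) = ((Rn * Qn + 1 : ℕ) : ℤ) := by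
      rw [Nat.cast_mul, Nat.cast_sub hPt'.le]
      push_cast
      have h8 : ((Qn : ℤ)) * Rn = (t : ℤ) ^ 2 - 1 - (Pn : ℤ) ^ 2 := by
        rw [← hR]; linarith
      linarith [h8, mul_comm (Rn : ℤ) (Qn : ℤ)]
    exact_mod_cast h7
  have hc1 : (((Pn : ℤ) : ℝ)) = (Pn : ℝ) := by push_cast; rfl
  have hc2 : (((Qn : ℤ) : ℝ)) = (Qn : ℝ) := by push_cast; rfl
  have hc3 : (((Rn : ℤ) : ℝ)) = (Rn : ℝ) := by push_cast; rfl
  rw [hc1] at hPB hBQ hQB hP0 hQR hRlt
  rw [hc2] at hBQ hQB hQR hQ0'
  rw [hc3] at hQR hR0 hRlt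
  have hRp : Rn ≤ t + Pn := by
    have : (Rn : ℝ) < ((t + Pn : ℕ) : ℝ) := by push_cast; linarith
    exact le_of_lt (by exact_mod_cast this)
  have hQp : Qn ≤ t + Pn := by
    have : (Qn : ℝ) < ((t + Pn : ℕ) : ℝ) := by push_cast; linarith
    exact le_of_lt (by exact_mod_cast this)
  have hsQ : t - Pn ≤ Qn := by
    have h9 : (t : ℝ) < ((Qn + Pn + 1 : ℕ) : ℝ) := by push_cast; linarith
    have h10 : t < Qn + Pn + 1 := by exact_mod_cast h9
    omega
  have hx : xv a g ((Pn : ℤ), (Qn : ℤ)) = (Pn + B) / Qn := by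
    unfold xv
    rw [← hB]
    push_cast
    rfl
  have hx1 : 1 < ((Pn : ℝ) + B) / Qn := by
    rw [lt_div_iff₀ hQ0']
    linarith
  obtain ⟨n, hn1, -, hn3, hn4⟩ := gm_matrix hx1 (t + Pn) Rn Qn (t - Pn) (Or.inl hdet)
    (by exact_mod_cast hR1) hRp hsQ hQp (by exact_mod_cast hQ0)
  refine ⟨n, hn1, by omega, ?_⟩
  rw [hx]
  have hfix : (((t + Pn : ℕ) : ℝ) * (((Pn : ℝ) + B) / Qn) + Rn)
      / ((Qn : ℝ) * (((Pn : ℝ) + B) / Qn) + ((t - Pn : ℕ) : ℝ)) = ((Pn : ℝ) + B) / Qn := by
    rw [hts]
    have h11 : (Qn : ℝ) * (((Pn : ℝ) + B) / Qn) + ((t : ℝ) - Pn) = B + t := by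
      field_simp
      ring
    have h12 : (0 : ℝ) < B + t := by linarith
    rw [h11, div_eq_div_iff h12.ne' hQ0'.ne']
    push_cast
    field_simp
    nlinarith [hQR]
  rw [hfix] at hn4
  exact hn4

end Pool.Agent.Helper20.MC
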