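import Pool.Agent.Helper20.MC.Win

/-!
Double counting of the weights.

PROOF.  Every nonzero `v` is `e v'` in exactly one way with `e ≥ 1` and `v'` primitive
(`e = gcd (re, im)`), `v ∈ Dom ↔ v' ∈ Dom`, `|N v| = e² |N v'|`.  If `v ∣ P - g √D` then
`e ∣ g` (`content_dvd`) and `N v ∣ P² - D g²`.
LOWER: for `e ∣ g`, `v' ∈ PS (B / e²)`, `Q = e² |N v'| < B`, each of the `e` integers `P` of
`window` with `b = ⌊B⌋` (so `B - Q < P < B`, as `B` is irrational) gives a pair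
`(P, Q) ∈ Red` and `e v' ∈ W (P, Q)`; the map `(e, v', P) ↦ ((P, Q), e v')` is injective.
UPPER: the same map read backwards: a pair `(P, Q) ∈ Red`, `Q < z` with `v ∈ W (P, Q)` has
`B - Q < P < B`, so `P` is in the window, and `v' ∈ PS (z / e²)`.
-/

namespace Pool.Agent.Helper20.MC

private theorem Dbl_re {a : ℕ} (e : ℕ) (v : ℤ√(DD a)) :
    ((e : ℤ√(DD a)) * v).re = e * v.re := by
  simp [Zsqrtd.re_mul]

private theorem Dbl_im {a : ℕ} (e : ℕ) (v : ℤ√(DD a)) :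
    ((e : ℤ√(DD a)) * v).im = e * v.im := by
  simp [Zsqrtd.im_mul]

private theorem Dbl_norm {a : ℕ} (e : ℕ) (v : ℤ√(DD a)) :
    |((e : ℤ√(DD a)) * v).norm| = (e : ℤ) ^ 2 * |v.norm| := by
  rw [Zsqrtd.norm_mul, Zsqrtd.norm_natCast, abs_mul, ← pow_two, abs_of_nonneg (by positivity)]

private theorem Dbl_dom {a : ℕ} {e : ℕ} (he : 1 ≤ e) (v : ℤ√(DD a)) :
    Dom a ((e : ℤ√(DD a)) * v) ↔ Dom a v := by
  have he0 : (0 : ℝ) < e := by exact_mod_cast he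
  have h1 : ph a ((e : ℤ√(DD a)) * v) = e * ph a v := by
    unfold ph
    rw [Dbl_re, Dbl_im]
    push_cast
    ring
  have h2 : ps a ((e : ℤ√(DD a)) * v) = e * ps a v := by
    unfold ps
    rw [Dbl_re, Dbl_im]
    push_cast
    ring
  unfold Dom
  rw [h1, h2, abs_mul, abs_of_pos he0, mul_left_comm (eps a ^ 2)]
  rw [mul_pos_iff_of_pos_left he0, mul_le_mul_iff_right₀ he0, mul_lt_mul_iff_right₀ he0]

private theorem Dbl_ne {a : ℕ} {v : ℤ√(DD a)} (h : Dom a v) : v ≠ 0 := by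
  rintro rfl
  have := h.1
  simp [ph] at this

private theorem Dbl_norm_ne {a : ℕ} (v : ℤ√(DD a)) (h : Dom a v) (hsq : 0 ≤ (a : ℝ) ^ 2 - 1) :
    v.norm ≠ 0 := by
  intro h0
  obtain ⟨h1, h2, h3⟩ := h
  have h4 : ph a v * ps a v = (v.norm : ℝ) := by
    unfold ph ps
    have h5 : sq a * sq a = (a : ℝ) ^ 2 - 1 := Real.mul_self_sqrt hsq
    rw [Zsqrtd.norm_def]
    push_cast
    linear_combination (-(v.im : ℝ) ^ 2) * h5
  rw [h0, Int.cast_zero] at h4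
  rcases mul_eq_zero.1 h4 with h5 | h5
  · rw [h5] at h1
    exact lt_irrefl _ h1
  · rw [h5, abs_zero, mul_zero] at h3
    exact lt_asymm h1 h3

private theorem Dbl_gcd {a : ℕ} (e : ℕ) {v : ℤ√(DD a)} (hv : IsCoprime v.re v.im) :
    Int.gcd ((e : ℤ√(DD a)) * v).re ((e : ℤ√(DD a)) * v).im = e := by
  rw [Dbl_re, Dbl_im, Int.gcd_mul_left, Int.isCoprime_iff_gcd_eq_one.1 hv, mul_one,
    Int.natAbs_natCast]

private theorem Dbl_inj {a : ℕ} {e f : ℕ} {v w : ℤ√(DD a)} (he : 1 ≤ e)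
    (hv : IsCoprime v.re v.im) (hw : IsCoprime w.re w.im)
    (h : (e : ℤ√(DD a)) * v = (f : ℤ√(DD a)) * w) : e = f ∧ v = w := by
  have h1 : e = f := by
    rw [← Dbl_gcd e hv, h, Dbl_gcd f hw]
  subst h1
  have he0 : (e : ℤ) ≠ 0 := by
    have : (0 : ℤ) < e := by exact_mod_cast he
    exact this.ne'
  refine ⟨rfl, Zsqrtd.ext ?_ ?_⟩
  · have := congrArg Zsqrtd.re h
    rw [Dbl_re, Dbl_re] at this
    exact mul_left_cancel₀ he0 this
  · have := congrArg Zsqrtd.im h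
    rw [Dbl_im, Dbl_im] at this
    exact mul_left_cancel₀ he0 this

/-- the primitive part -/
private theorem Dbl_prim {a : ℕ} {v : ℤ√(DD a)} (hv : v ≠ 0) :
    ∃ (e : ℕ) (w : ℤ√(DD a)), 1 ≤ e ∧ IsCoprime w.re w.im ∧ v = (e : ℤ√(DD a)) * w := by
  have h0 : Int.gcd v.re v.im ≠ 0 := by
    intro h
    rw [Int.gcd_eq_zero_iff] at h
    exact hv (Zsqrtd.ext (by rw [h.1]; rfl) (by rw [h.2]; rfl))
  obtain ⟨x, hx⟩ := Int.gcd_dvd_left v.re v.im
  obtain ⟨y, hy⟩ := Int.gcd_dvd_right v.re v.im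
  refine ⟨Int.gcd v.re v.im, ⟨x, y⟩, Nat.one_le_iff_ne_zero.2 h0, ?_, ?_⟩
  · rw [Int.isCoprime_iff_gcd_eq_one]
    have h1 : Int.gcd v.re v.im = Int.gcd v.re v.im * Int.gcd x y := by
      have h2 : Int.gcd ((Int.gcd v.re v.im : ℤ) * x) ((Int.gcd v.re v.im : ℤ) * y) =
          Int.gcd v.re v.im * Int.gcd x y := by
        rw [Int.gcd_mul_left, Int.natAbs_natCast]
      rw [← hx, ← hy] at h2
      exact h2
    have h3 : Int.gcd v.re v.im * 1 = Int.gcd v.re v.im * Int.gcd x y := by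
      rw [mul_one]
      exact h1
    exact (Nat.eq_of_mul_eq_mul_left (Nat.pos_of_ne_zero h0) h3).symm
  · refine Zsqrtd.ext ?_ ?_
    · rw [Dbl_re]
      exact hx
    · rw [Dbl_im]
      exact hy

/-- the window set -/
private def Dbl_win (a g : ℕ) (e : ℕ) (v : ℤ√(DD a)) : Set ℤ :=
  {P : ℤ | ⌊bb a g⌋ - (e : ℤ) ^ 2 * |v.norm| < P ∧ P ≤ ⌊bb a g⌋ ∧
      ((e : ℤ√(DD a)) * v) ∣ ⟨P, -(g : ℤ)⟩}

private theorem Dbl_win_fin (a g e : ℕ) (v : ℤ√(DD a)) : (Dbl_win a g e v).Finite := by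
  apply (Set.finite_Ioc (⌊bb a g⌋ - (e : ℤ) ^ 2 * |v.norm|) ⌊bb a g⌋).subset
  intro P hP
  exact ⟨hP.1, hP.2.1⟩

/-- the finite set of triples -/
private noncomputable def Dbl_T (a g : ℕ) (z : ℝ) (hP : ∀ z, (PS a z).Finite) :
    Finset (Σ _ : ℕ, Σ _ : ℤ√(DD a), ℤ) :=
  g.divisors.sigma fun e => (hP (z / (e : ℝ) ^ 2)).toFinset.sigma fun v =>
    (Dbl_win_fin a g e v).toFinset

private theorem Dbl_T_card {a g : ℕ} (ha : 2 ≤ a) (z : ℝ) (hP : ∀ z, (PS a z).Finite) :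
    (Dbl_T a g z hP).card = ∑ e ∈ g.divisors, e * (PS a (z / (e : ℝ) ^ 2)).ncard := by
  unfold Dbl_T
  rw [Finset.card_sigma]
  refine Finset.sum_congr rfl fun e he => ?_
  rw [Nat.mem_divisors] at he
  have he1 : 1 ≤ e := Nat.pos_of_dvd_of_pos he.1 (Nat.pos_of_ne_zero he.2)
  rw [Finset.card_sigma, Set.ncard_eq_toFinset_card _ (hP _), mul_comm, ← smul_eq_mul,
    ← Finset.sum_const]
  refine Finset.sum_congr rfl fun v hv => ?_
  rw [Set.Finite.mem_toFinset] at hv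
  have hsq : 0 ≤ (a : ℝ) ^ 2 - 1 := by
    have : (2 : ℝ) ≤ a := by exact_mod_cast ha
    nlinarith
  exact (Set.ncard_eq_toFinset_card _ (Dbl_win_fin a g e v)).symm.trans
    (window hv.2.1 (Dbl_norm_ne v hv.1 hsq) he1 he.1 _)

theorem dbl_lower {a g : ℕ} (ha : 2 ≤ a) (hg : 1 ≤ g) (hB : Irrational (bb a g))
    (hR : (Red a g).Finite) (hW : ∀ p, (W a g p).Finite) (hP : ∀ z, (PS a z).Finite) :
    ∑ e ∈ g.divisors, e * (PS a (bb a g / (e : ℝ) ^ 2)).ncard ≤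
      ∑ p ∈ hR.toFinset, (W a g p).ncard := by
  have hsq : 0 ≤ (a : ℝ) ^ 2 - 1 := by
    have : (2 : ℝ) ≤ a := by exact_mod_cast ha
    nlinarith
  rw [← Dbl_T_card ha (bb a g) hP]
  have h1 : ∑ p ∈ hR.toFinset, (W a g p).ncard =
      (hR.toFinset.sigma fun p => (hW p).toFinset).card := by
    rw [Finset.card_sigma]
    exact Finset.sum_congr rfl fun p _ => Set.ncard_eq_toFinset_card _ (hW p)
  rw [h1]
  refine Finset.card_le_card_of_injOn
    (fun t => ⟨(t.2.2, (t.1 : ℤ) ^ 2 * |t.2.1.norm|), (t.1 : ℤ√(DD a)) * t.2.1⟩) ?_ ?_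
  · rintro ⟨e, v, P⟩ ht
    rw [Finset.mem_coe] at ht
    unfold Dbl_T at ht
    rw [Finset.mem_sigma, Finset.mem_sigma, Set.Finite.mem_toFinset, Set.Finite.mem_toFinset,
      Nat.mem_divisors] at ht
    obtain ⟨⟨he, _⟩, ⟨hd, hc, hn⟩, hP1, hP2, hP3⟩ := ht
    dsimp only at he hd hc hn hP1 hP2 hP3
    have he1 : 1 ≤ e := Nat.pos_of_dvd_of_pos he hg
    have he0 : (0 : ℝ) < e := by exact_mod_cast he1
    have hN := Dbl_norm_ne v hd hsq
    have hNpos : 0 < |v.norm| := abs_pos.2 hN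
    have hQpos : 0 < (e : ℤ) ^ 2 * |v.norm| := by
      have : (0 : ℤ) < e := by exact_mod_cast he1
      positivity
    rw [lt_div_iff₀ (by positivity)] at hn
    have hQB : (((e : ℤ) ^ 2 * |v.norm| : ℤ) : ℝ) < bb a g := by
      push_cast
      rw [mul_comm]
      exact hn
    have hPB : (P : ℝ) < bb a g := by
      have h2 : (P : ℝ) ≤ (⌊bb a g⌋ : ℝ) := by exact_mod_cast hP2
      have h3 : (⌊bb a g⌋ : ℝ) ≤ bb a g := Int.floor_le _
      rcases lt_or_eq_of_le (h2.trans h3) with h4 | h4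
      · exact h4
      · exact absurd ⟨(P : ℚ), by rw [← h4]; norm_cast⟩ hB
    have hBQ : bb a g - (((e : ℤ) ^ 2 * |v.norm| : ℤ) : ℝ) < P := by
      have h2 : bb a g < ⌊bb a g⌋ + 1 := Int.lt_floor_add_one _
      have h3 : ⌊bb a g⌋ - (e : ℤ) ^ 2 * |v.norm| + 1 ≤ P := hP1
      have h4 : ((⌊bb a g⌋ - (e : ℤ) ^ 2 * |v.norm| + 1 : ℤ) : ℝ) ≤ P := by exact_mod_cast h3
      push_cast at h4 ⊢
      linarith
    rw [Finset.mem_coe, Finset.mem_sigma, Set.Finite.mem_toFinset, Set.Finite.mem_toFinset]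
    refine ⟨⟨hQpos, ?_, hPB, ?_, ?_⟩, (Dbl_dom he1 v).2 hd, Dbl_norm e v, hP3⟩
    · dsimp only
      obtain ⟨w, hw⟩ := hP3
      have h5 : (⟨P, -(g : ℤ)⟩ : ℤ√(DD a)).norm = ((e : ℤ√(DD a)) * v).norm * w.norm := by
        rw [hw, Zsqrtd.norm_mul]
      rw [Zsqrtd.norm_def] at h5
      dsimp only at h5
      have h6 : |((e : ℤ√(DD a)) * v).norm| ∣ DD a * (g : ℤ) ^ 2 - P ^ 2 := by
        rw [abs_dvd]
        refine ⟨-w.norm, ?_⟩
        linear_combination -h5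
      rw [Dbl_norm] at h6
      exact h6
    · dsimp only
      linarith
    · dsimp only
      linarith
  · rintro ⟨e, v, P⟩ ht ⟨f, w, R⟩ hu h
    rw [Finset.mem_coe] at ht hu
    unfold Dbl_T at ht hu
    rw [Finset.mem_sigma, Finset.mem_sigma, Set.Finite.mem_toFinset, Set.Finite.mem_toFinset,
      Nat.mem_divisors] at ht hu
    obtain ⟨⟨he, _⟩, ⟨hd, hc, hn⟩, _⟩ := ht
    obtain ⟨_, ⟨_, hc', _⟩, _⟩ := hu
    dsimp only at he hc hc'
    have he1 : 1 ≤ e := Nat.pos_of_dvd_of_pos he hg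
    simp only [Sigma.mk.injEq, Prod.mk.injEq, heq_eq_eq] at h
    obtain ⟨rfl, rfl⟩ := Dbl_inj he1 hc hc' h.2
    rw [h.1.1]

open Classical in
theorem dbl_upper {a g : ℕ} (ha : 2 ≤ a) (hg : 1 ≤ g) (hB : Irrational (bb a g))
    (hR : (Red a g).Finite) (hW : ∀ p, (W a g p).Finite) (hP : ∀ z, (PS a z).Finite) (z : ℝ) :
    ∑ p ∈ hR.toFinset.filter (fun p => (p.2 : ℝ) < z), (W a g p).ncard ≤
      ∑ e ∈ g.divisors, e * (PS a (z / (e : ℝ) ^ 2)).ncard := by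
  rw [← Dbl_T_card ha z hP]
  have h1 : ∑ p ∈ hR.toFinset.filter (fun p => (p.2 : ℝ) < z), (W a g p).ncard =
      ((hR.toFinset.filter (fun p => (p.2 : ℝ) < z)).sigma fun p => (hW p).toFinset).card := by
    rw [Finset.card_sigma]
    exact Finset.sum_congr rfl fun p _ => Set.ncard_eq_toFinset_card _ (hW p)
  rw [h1]
  have hex : ∀ v : ℤ√(DD a), ∃ t : ℕ × ℤ√(DD a), v ≠ 0 →
      1 ≤ t.1 ∧ IsCoprime t.2.re t.2.im ∧ v = (t.1 : ℤ√(DD a)) * t.2 := by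
    intro v
    by_cases hv : v = 0
    · exact ⟨(0, 0), fun h => absurd hv h⟩
    · obtain ⟨e, w, h⟩ := Dbl_prim hv
      exact ⟨(e, w), fun _ => h⟩
  choose F hF using hex
  refine Finset.card_le_card_of_injOn
    (fun t => ⟨(F t.2).1, (F t.2).2, t.1.1⟩) ?_ ?_
  · rintro ⟨⟨P, Q⟩, v⟩ ht
    rw [Finset.mem_coe, Finset.mem_sigma, Finset.mem_filter, Set.Finite.mem_toFinset,
      Set.Finite.mem_toFinset] at ht
    obtain ⟨⟨⟨hQ, _, hPB, hBQ, _⟩, hQz⟩, hd, hnorm, hdvd⟩ := ht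
    dsimp only at hQ hPB hBQ hQz hd hnorm hdvd
    obtain ⟨h2, h3, h4⟩ := hF v (Dbl_ne hd)
    have he0 : (0 : ℝ) < (F v).1 := by exact_mod_cast h2
    have hnorm' : ((F v).1 : ℤ) ^ 2 * |(F v).2.norm| = Q := by
      rw [← Dbl_norm, ← h4]
      exact hnorm
    rw [Finset.mem_coe]
    unfold Dbl_T
    rw [Finset.mem_sigma, Finset.mem_sigma, Set.Finite.mem_toFinset, Set.Finite.mem_toFinset,
      Nat.mem_divisors]
    dsimp only
    refine ⟨⟨?_, by omega⟩, ⟨?_, h3, ?_⟩, ?_, ?_, ?_⟩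
    · rw [h4] at hdvd
      exact content_dvd hdvd
    · rw [h4] at hd
      exact (Dbl_dom h2 _).1 hd
    · rw [lt_div_iff₀ (by positivity)]
      have h5 : (((F v).1 : ℤ) ^ 2 * |(F v).2.norm| : ℝ) = Q := by exact_mod_cast hnorm'
      push_cast at h5
      rw [mul_comm, h5]
      exact hQz
    · rw [hnorm']
      have h5 : (⌊bb a g⌋ : ℝ) ≤ bb a g := Int.floor_le _
      have h6 : ((⌊bb a g⌋ - Q : ℤ) : ℝ) < P := by
        push_cast
        linarith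
      exact_mod_cast h6
    · rw [Int.le_floor]
      exact hPB.le
    · rw [← h4]
      exact hdvd
  · rintro ⟨⟨P, Q⟩, v⟩ ht ⟨⟨P', Q'⟩, v'⟩ hu h
    rw [Finset.mem_coe, Finset.mem_sigma, Finset.mem_filter, Set.Finite.mem_toFinset,
      Set.Finite.mem_toFinset] at ht hu
    obtain ⟨_, hd, hnorm, _⟩ := ht
    obtain ⟨_, hd', hnorm', _⟩ := hu
    dsimp only at hd hnorm hd' hnorm'
    obtain ⟨_, _, h4⟩ := hF v (Dbl_ne hd)
    obtain ⟨_, _, h4'⟩ := hF v' (Dbl_ne hd')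
    simp only [Sigma.mk.injEq, heq_eq_eq] at h
    obtain ⟨e1, e2, e3⟩ := h
    have hv : v = v' := by
      rw [h4, h4', e1, e2]
    subst hv
    have hQ : Q = Q' := by rw [← hnorm, ← hnorm']
    rw [hQ, e3]

end Pool.Agent.Helper20.MC
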