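import Pool.Agent.Helper20.MC.Defs

/-!
Crude bounds for the elements of the domain.

PROOF.  `v ∈ Dom`, `|N v| = ph v |ps v| < z` gives `ph v < ε √z`, `|re|, |im| ≤ ph v`.
`W_card`: `0 ≤ im ≤ ph v / √D ≤ ε √Q / √3`; for given `im` the equation
`re² = D im² ± Q` has at most four solutions; `8 ε √Q / √3 + 4 ≤ 12 ε √Q`.
`AS_one`: `N v` is a nonzero integer for `v ∈ Dom`.
-/

namespace Pool.Agent.Helper20.MC

private theorem Fin_sq_sq {a : ℕ} (ha : 2 ≤ a) : sq a ^ 2 = (a : ℝ) ^ 2 - 1 := by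
  unfold sq
  have h2 : (2 : ℝ) ≤ a := by exact_mod_cast ha
  exact Real.sq_sqrt (by nlinarith)

private theorem Fin_sq_one {a : ℕ} (ha : 2 ≤ a) : 1 ≤ sq a := by
  have h2 : (2 : ℝ) ≤ a := by exact_mod_cast ha
  have h := Fin_sq_sq ha
  have h0 : 0 ≤ sq a := Real.sqrt_nonneg _
  nlinarith

private theorem Fin_eps_three {a : ℕ} (ha : 2 ≤ a) : 3 ≤ eps a := by
  have h2 : (2 : ℝ) ≤ a := by exact_mod_cast ha
  have h1 := Fin_sq_one ha
  unfold eps
  linarith

private theorem Fin_norm {a : ℕ} (ha : 2 ≤ a) (v : ℤ√(DD a)) :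
    (v.norm : ℝ) = ph a v * ps a v := by
  have h := Fin_sq_sq ha
  unfold ph ps
  rw [Zsqrtd.norm_def]
  push_cast [DD]
  linear_combination ((v.im : ℝ) ^ 2) * h

private theorem Fin_ph_sq {a : ℕ} (ha : 2 ≤ a) {v : ℤ√(DD a)} (hv : Dom a v) :
    ph a v ^ 2 < eps a ^ 2 * |(v.norm : ℝ)| := by
  obtain ⟨h0, _, h2⟩ := hv
  rw [Fin_norm ha, abs_mul, abs_of_pos h0]
  nlinarith

private theorem Fin_re_sq {a : ℕ} {v : ℤ√(DD a)} (hv : Dom a v) :
    (v.re : ℝ) ^ 2 ≤ ph a v ^ 2 := by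
  obtain ⟨h0, h1, _⟩ := hv
  have h3 := abs_le.1 h1
  have h4 : (v.re : ℝ) = (ph a v + ps a v) / 2 := by unfold ph ps; ring
  rw [h4]
  apply sq_le_sq'
  · linarith [h3.1]
  · linarith [h3.2]

private theorem Fin_im_nonneg {a : ℕ} (ha : 2 ≤ a) {v : ℤ√(DD a)} (hv : Dom a v) :
    0 ≤ v.im := by
  obtain ⟨h0, h1, _⟩ := hv
  have h3 := abs_le.1 h1
  have h5 := Fin_sq_one ha
  have h4 : (v.im : ℝ) * sq a = (ph a v - ps a v) / 2 := by unfold ph ps; ring
  have h6 : 0 ≤ (v.im : ℝ) * sq a := by rw [h4]; linarith [h3.2]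
  have h7 : 0 ≤ (v.im : ℝ) := by
    by_contra hc
    have : (v.im : ℝ) * sq a < 0 := mul_neg_of_neg_of_pos (not_le.1 hc) (by linarith)
    linarith
  exact_mod_cast h7

private theorem Fin_im_le {a : ℕ} (ha : 2 ≤ a) {v : ℤ√(DD a)} (hv : Dom a v) :
    (v.im : ℝ) ≤ ph a v := by
  have h7 := Fin_im_nonneg ha hv
  have h7' : 0 ≤ (v.im : ℝ) := by exact_mod_cast h7
  obtain ⟨h0, h1, _⟩ := hv
  have h3 := abs_le.1 h1
  have h5 := Fin_sq_one ha
  have h4 : (v.im : ℝ) * sq a = (ph a v - ps a v) / 2 := by unfold ph ps; ring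
  nlinarith [h3.1]

private theorem Fin_im_sq {a : ℕ} (ha : 2 ≤ a) {v : ℤ√(DD a)} (hv : Dom a v) :
    (v.im : ℝ) ^ 2 ≤ ph a v ^ 2 := by
  have h7 : (0 : ℝ) ≤ v.im := by exact_mod_cast Fin_im_nonneg ha hv
  exact pow_le_pow_left₀ h7 (Fin_im_le ha hv) 2

theorem AS_finite {a : ℕ} (ha : 2 ≤ a) (z : ℝ) : (AS a z).Finite := by
  obtain ⟨M, hM⟩ := exists_nat_gt (eps a ^ 2 * z)
  have hinj : Set.InjOn (fun v : ℤ√(DD a) => (v.re, v.im)) (AS a z) := by
    intro v _ w _ h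
    simp only [Prod.mk.injEq] at h
    exact Zsqrtd.ext h.1 h.2
  apply Set.Finite.of_injOn (t := ((Finset.Icc (-(M : ℤ)) M ×ˢ Finset.Icc (-(M : ℤ)) M :
    Finset (ℤ × ℤ)) : Set (ℤ × ℤ))) _ hinj (Finset.finite_toSet _)
  intro v hv
  obtain ⟨hd, hz⟩ := hv
  have e3 := Fin_eps_three ha
  have hp : ph a v ^ 2 < M := by
    have h1 := Fin_ph_sq ha hd
    have h2 : eps a ^ 2 * |(v.norm : ℝ)| < eps a ^ 2 * z :=
      mul_lt_mul_of_pos_left hz (by positivity)
    linarith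
  have key : ∀ n : ℤ, (n : ℝ) ^ 2 ≤ ph a v ^ 2 → n ∈ Finset.Icc (-(M : ℤ)) M := by
    intro n hn
    have h1 : (n : ℝ) ^ 2 < M := lt_of_le_of_lt hn hp
    have h2 : n ^ 2 < (M : ℤ) := by exact_mod_cast h1
    rw [Finset.mem_Icc]
    constructor <;> nlinarith
  simp only [Finset.coe_product, Set.mem_prod, Finset.mem_coe]
  exact ⟨key _ (Fin_re_sq hd), key _ (Fin_im_sq ha hd)⟩

theorem PS_finite {a : ℕ} (ha : 2 ≤ a) (z : ℝ) : (PS a z).Finite :=
  (AS_finite ha z).subset fun _ hv => ⟨hv.1, hv.2.2⟩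

theorem W_finite {a g : ℕ} (ha : 2 ≤ a) (p : ℤ × ℤ) : (W a g p).Finite := by
  refine (AS_finite ha ((p.2 : ℝ) + 1)).subset fun v hv => ⟨hv.1, ?_⟩
  have h : ((|v.norm| : ℤ) : ℝ) = p.2 := by exact_mod_cast hv.2.1
  rw [Int.cast_abs] at h
  rw [h]
  linarith

/-- For each value of `v.im` there are at most four values of `v.re`, and
`|v.im| ≤ ε √Q`. -/
theorem W_card {a g : ℕ} (ha : 2 ≤ a) {p : ℤ × ℤ} (hp : 0 < p.2) :
    ((W a g p).ncard : ℝ) ≤ 12 * eps a * Real.sqrt p.2 := by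
  have e3 := Fin_eps_three ha
  have hQ : (1 : ℝ) ≤ p.2 := by exact_mod_cast hp
  have hs1 : 1 ≤ Real.sqrt p.2 := by
    rw [Real.one_le_sqrt]; exact hQ
  set X : ℝ := eps a * Real.sqrt p.2 with hX
  have hX1 : 1 ≤ X := by nlinarith
  have hXsq : X ^ 2 = eps a ^ 2 * p.2 := by
    rw [hX, mul_pow, Real.sq_sqrt (by linarith)]
  let f : ℤ√(DD a) → ℕ × Bool × Bool := fun v =>
    (v.im.toNat, decide (0 ≤ v.re), decide (0 ≤ v.norm))
  let t : Finset (ℕ × Bool × Bool) :=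
    Finset.range (⌊X⌋₊ + 1) ×ˢ (Finset.univ : Finset (Bool × Bool))
  have hmap : ∀ v ∈ W a g p, f v ∈ (t : Set (ℕ × Bool × Bool)) := by
    intro v hv
    obtain ⟨hd, hn, _⟩ := hv
    simp only [f, t, Finset.coe_product, Set.mem_prod, Finset.mem_coe, Finset.mem_range,
      Finset.mem_univ, and_true]
    have h0 := Fin_im_nonneg ha hd
    have h1 := Fin_im_le ha hd
    have h2 := Fin_ph_sq ha hd
    have h : ((|v.norm| : ℤ) : ℝ) = p.2 := by exact_mod_cast hn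
    rw [Int.cast_abs] at h
    rw [h, ← hXsq] at h2
    have h3 : ph a v < X := lt_of_pow_lt_pow_left₀ 2 (by linarith) h2
    have h4 : (v.im : ℝ) ≤ X := by linarith
    have h5 : ((v.im.toNat : ℕ) : ℝ) = v.im := by
      have : ((v.im.toNat : ℤ)) = v.im := Int.toNat_of_nonneg h0
      exact_mod_cast congrArg (fun n : ℤ => (n : ℝ)) this
    have h6 : v.im.toNat ≤ ⌊X⌋₊ := Nat.le_floor (by rw [h5]; exact h4)
    omega
  have hinj : Set.InjOn f (W a g p) := by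
    intro v hv w hw h
    simp only [f, Prod.mk.injEq, decide_eq_decide] at h
    obtain ⟨h1, h2, h3⟩ := h
    have hv0 := Fin_im_nonneg ha hv.1
    have hw0 := Fin_im_nonneg ha hw.1
    have him : v.im = w.im := by omega
    have hn : v.norm = w.norm := by
      have e1 := hv.2.1
      have e2 := hw.2.1
      by_cases hc : 0 ≤ v.norm
      · have hc' := h3.1 hc
        rw [abs_of_nonneg hc] at e1
        rw [abs_of_nonneg hc'] at e2
        omega
      · have hc' : ¬ 0 ≤ w.norm := fun hh => hc (h3.2 hh)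
        rw [abs_of_neg (not_le.1 hc)] at e1
        rw [abs_of_neg (not_le.1 hc')] at e2
        omega
    have hre : v.re * v.re = w.re * w.re := by
      rw [Zsqrtd.norm_def, Zsqrtd.norm_def, him] at hn
      linarith
    have hre' : v.re = w.re := by
      rcases mul_self_eq_mul_self_iff.1 hre with h4 | h4
      · exact h4
      · by_cases hc : 0 ≤ v.re
        · have := h2.1 hc
          omega
        · have hc' : ¬ 0 ≤ w.re := fun hh => hc (h2.2 hh)
          omega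
    exact Zsqrtd.ext hre' him
  have hcard := Set.ncard_le_ncard_of_injOn f hmap hinj (Finset.finite_toSet t)
  rw [Set.ncard_coe_finset] at hcard
  have ht : t.card = (⌊X⌋₊ + 1) * 4 := by
    simp only [t, Finset.card_product, Finset.card_range]
    rfl
  rw [ht] at hcard
  have hfl : (⌊X⌋₊ : ℝ) ≤ X := Nat.floor_le (by linarith)
  have hcR : ((W a g p).ncard : ℝ) ≤ ((⌊X⌋₊ : ℝ) + 1) * 4 := by exact_mod_cast hcard
  have : 12 * eps a * Real.sqrt p.2 = 12 * X := by rw [hX]; ring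
  rw [this]
  linarith

theorem AS_one {a : ℕ} (ha : 2 ≤ a) {z : ℝ} (hz : z ≤ 1) : AS a z = ∅ := by
  ext v
  simp only [Set.mem_empty_iff_false, iff_false]
  intro hv
  obtain ⟨⟨h0, h1, h2⟩, h3⟩ := hv
  have h4 : |(v.norm : ℝ)| < 1 := by linarith
  have h5 : |v.norm| < 1 := by exact_mod_cast h4
  have h6 : v.norm = 0 := Int.abs_lt_one_iff.1 h5
  have h7 := Fin_norm ha v
  rw [h6, Int.cast_zero] at h7
  have h8 : ps a v = 0 := by
    rcases mul_eq_zero.1 h7.symm with h | h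
    · linarith
    · exact h
  rw [h8, abs_zero, mul_zero] at h2
  linarith

end Pool.Agent.Helper20.MC
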