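import Pool.Agent.Helper20.MC.Defs

/-!
Lower bound for the number of elements of the domain.

PROOF.  `K = KK a ≥ 1`, `2^K ≤ a < ε`.  `s = √(z/2)`.  For `0 ≤ j < K` take the `v` with
`2^j s ≤ ph v < 2^(j+1) s` and `2^(-j-1) s < ps v ≤ 2^(-j) s`.  They are in `Dom`
(`ps ≤ ph < 4^(j+1) ps ≤ a² ps < ε² ps`) with norm `< 2 s² = z`, and different `j` give
different `v`.  Number for given `j`, `α = 2^j s`, `β = 2^(-j-1) s`, `α ≥ 2 β`: for every
integer `Y` with `α - β ≤ 2 Y √D < 2 (α - β)` all `X` with `β < X - Y √D ≤ 2 β`,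
`X - Y√D < 2 α - 2 Y √D`... (simplest: take `α - β ≤ 2 Y √D` and `2 Y √D + 2 β < 2 α`), at
least `(α - β)/(2√D) - 1 ≥ α/(8 √D)` values of `Y` and `β - 1 ≥ β/2` values of `X`:
at least `α β/(16 √D) = z/(64 √D)` elements for `z` large.  (The constant 200 leaves room.)
-/

namespace Pool.Agent.Helper20.MC

private theorem Low_sq_pos {a : ℕ} (ha : 2 ≤ a) : 0 < sq a := by
  unfold sq
  apply Real.sqrt_pos.mpr
  have : (2 : ℝ) ≤ a := by exact_mod_cast ha
  nlinarith

private theorem Low_toNat (n : ℤ) : (n : ℝ) ≤ (n.toNat : ℝ) := by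
  exact_mod_cast Int.self_le_toNat n

private theorem Low_piece {a : ℕ} (ha : 2 ≤ a) (α β : ℝ) (hβ : 4 ≤ β) (hαβ : 2 * β ≤ α)
    (hα : 8 * sq a ≤ α) : ∃ T : Finset (ℤ√(DD a)),
      (∀ v ∈ T, α ≤ ph a v ∧ ph a v < 2 * α ∧ β < ps a v ∧ ps a v ≤ 2 * β) ∧
      α * β / (16 * sq a) ≤ (T.card : ℝ) := by
  classical
  have hr : 0 < sq a := Low_sq_pos ha
  obtain ⟨r, hrr⟩ : ∃ r, r = sq a := ⟨_, rfl⟩
  rw [← hrr] at hr hα
  let YS : Finset ℤ := Finset.Ico ⌈(α - β) / (2 * r)⌉ ⌈(α - β) / r⌉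
  let TS : Finset ℤ := Finset.Icc ⌈β + 1⌉ ⌊2 * β⌋
  let f : ℤ × ℤ → ℤ√(DD a) := fun p => ⟨⌊(p.1 : ℝ) * r⌋ + p.2, p.1⟩
  have hf : Function.Injective f := by
    rintro ⟨y, t⟩ ⟨y', t'⟩ h
    simp only [f, Zsqrtd.mk.injEq] at h
    obtain ⟨h1, h2⟩ := h
    subst h2
    simpa using h1
  refine ⟨(YS ×ˢ TS).image f, ?_, ?_⟩
  · intro v hv
    obtain ⟨⟨y, t⟩, hp, rfl⟩ := Finset.mem_image.mp hv
    simp only [YS, TS, Finset.mem_product, Finset.mem_Ico, Finset.mem_Icc] at hp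
    obtain ⟨⟨h1, h2⟩, h3, h4⟩ := hp
    have h1' : (α - β) / (2 * r) ≤ y := Int.ceil_le.mp h1
    have h2' : (y : ℝ) < (α - β) / r := Int.lt_ceil.mp h2
    have h3' : β + 1 ≤ t := Int.ceil_le.mp h3
    have h4' : (t : ℝ) ≤ 2 * β := Int.le_floor.mp h4
    rw [div_le_iff₀ (by positivity)] at h1'
    rw [lt_div_iff₀ hr] at h2'
    have h5 := Int.floor_le ((y : ℝ) * r)
    have h6 := Int.lt_floor_add_one ((y : ℝ) * r)
    simp only [f, ph, ps, ← hrr]
    push_cast
    refine ⟨by linarith, by linarith, by linarith, by linarith⟩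
  · rw [Finset.card_image_of_injective _ hf, Finset.card_product]
    push_cast
    rw [← hrr]
    have hY : α / (8 * r) ≤ (YS.card : ℝ) := by
      have h1 : ((⌈(α - β) / r⌉ - ⌈(α - β) / (2 * r)⌉ : ℤ) : ℝ) ≤ (YS.card : ℝ) := by
        simp only [YS, Int.card_Ico]
        exact Low_toNat _
      push_cast at h1
      have h2 : (α - β) / r ≤ ⌈(α - β) / r⌉ := Int.le_ceil _
      have h3 : (⌈(α - β) / (2 * r)⌉ : ℝ) < (α - β) / (2 * r) + 1 := Int.ceil_lt_add_one _
      have h4 : (α - β) / r = 2 * ((α - β) / (2 * r)) := by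
        field_simp
      have h5 : α / (4 * r) ≤ (α - β) / (2 * r) := by
        rw [div_le_div_iff₀ (by positivity) (by positivity)]
        nlinarith
      have h6 : 1 ≤ α / (8 * r) := by
        rw [le_div_iff₀ (by positivity)]
        linarith
      have h7 : α / (4 * r) = 2 * (α / (8 * r)) := by
        field_simp
        ring
      linarith
    have hT : β / 2 ≤ (TS.card : ℝ) := by
      have h1 : ((⌊2 * β⌋ + 1 - ⌈β + 1⌉ : ℤ) : ℝ) ≤ (TS.card : ℝ) := by
        simp only [TS, Int.card_Icc]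
        exact Low_toNat _
      push_cast at h1
      have h2 : 2 * β - 1 < ⌊2 * β⌋ := Int.sub_one_lt_floor _
      have h3 : (⌈β + 1⌉ : ℝ) < β + 1 + 1 := Int.ceil_lt_add_one _
      linarith
    have h8 : α * β / (16 * r) = α / (8 * r) * (β / 2) := by
      field_simp
      ring
    rw [h8]
    exact mul_le_mul hY hT (by linarith) (by positivity)

theorem AS_lower {a : ℕ} (ha : 2 ≤ a) (hf : ∀ z, (AS a z).Finite) :
    ∃ z0 : ℝ, ∀ z : ℝ, z0 ≤ z →
      KK a * z / (200 * sq a) ≤ ((AS a z).ncard : ℝ) := by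
  classical
  have hr : 0 < sq a := Low_sq_pos ha
  have hK2 : (2 : ℝ) ^ KK a ≤ a := by
    have h : 2 ^ KK a ≤ a := Nat.pow_log_le_self 2 (by omega)
    exact_mod_cast h
  refine ⟨2 * (4 * 2 ^ KK a + 8 * sq a) ^ 2, fun z hz => ?_⟩
  have hz0 : 0 ≤ z := le_trans (by positivity) hz
  obtain ⟨s, hs⟩ : ∃ s, s = Real.sqrt (z / 2) := ⟨_, rfl⟩
  have hs2 : s ^ 2 = z / 2 := by
    rw [hs]
    exact Real.sq_sqrt (by positivity)
  have hs1 : 4 * 2 ^ KK a + 8 * sq a ≤ s := by
    rw [hs]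
    apply Real.le_sqrt_of_sq_le
    linarith
  have hs0 : 0 < s := lt_of_lt_of_le (by positivity) hs1
  have hpc : ∀ j : ℕ, j < KK a → ∃ T : Finset (ℤ√(DD a)),
      (∀ v ∈ T, 2 ^ j * s ≤ ph a v ∧ ph a v < 2 * (2 ^ j * s) ∧ s / 2 ^ (j + 1) < ps a v ∧
        ps a v ≤ 2 * (s / 2 ^ (j + 1))) ∧
      (2 ^ j * s) * (s / 2 ^ (j + 1)) / (16 * sq a) ≤ (T.card : ℝ) := by
    intro j hj
    have hj1 : (2 : ℝ) ^ (j + 1) ≤ 2 ^ KK a := pow_le_pow_right₀ (by norm_num) hj
    have hj0 : (1 : ℝ) ≤ 2 ^ j := one_le_pow₀ (by norm_num)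
    apply Low_piece ha
    · rw [le_div_iff₀ (by positivity)]
      nlinarith
    · have h1 : 2 * (s / 2 ^ (j + 1)) = s / 2 ^ j := by
        rw [pow_succ]
        field_simp
      rw [h1]
      calc s / 2 ^ j ≤ s := div_le_self hs0.le hj0
        _ ≤ 2 ^ j * s := by nlinarith
    · have h1 : 8 * sq a ≤ s := by
        have : (0 : ℝ) ≤ 4 * 2 ^ KK a := by positivity
        linarith
      nlinarith
  choose! T hT1 hT2 using hpc
  have hdis : ∀ i ∈ Finset.range (KK a), ∀ j ∈ Finset.range (KK a), i < j →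
      Disjoint (T i) (T j) := by
    intro i hi j hj hij
    rw [Finset.disjoint_left]
    intro v h1 h2
    have h3 := (hT1 i (Finset.mem_range.mp hi) v h1).2.1
    have h4 := (hT1 j (Finset.mem_range.mp hj) v h2).1
    have h5 : (2 : ℝ) ^ (i + 1) ≤ 2 ^ j := pow_le_pow_right₀ (by norm_num) hij
    rw [pow_succ] at h5
    nlinarith
  have hcard : ((Finset.range (KK a)).biUnion T).card = ∑ j ∈ Finset.range (KK a), (T j).card := by
    apply Finset.card_biUnion
    intro i hi j hj hij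
    rcases lt_or_gt_of_ne hij with h | h
    · exact hdis i hi j hj h
    · exact (hdis j hj i hi h).symm
  have hsub : (((Finset.range (KK a)).biUnion T : Finset (ℤ√(DD a))) : Set (ℤ√(DD a))) ⊆ AS a z := by
    intro v hv
    rw [Finset.mem_coe, Finset.mem_biUnion] at hv
    obtain ⟨j, hj, hvj⟩ := hv
    have hj' := Finset.mem_range.mp hj
    obtain ⟨h1, h2, h3, h4⟩ := hT1 j hj' v hvj
    have hp2 : (0 : ℝ) < 2 ^ j := by positivity
    have hps : 0 < ps a v := lt_trans (by positivity) h3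
    have hph : 0 < ph a v := lt_of_lt_of_le (by positivity) h1
    have hj1 : (2 : ℝ) ^ (j + 1) ≤ a := (pow_le_pow_right₀ (by norm_num) hj').trans hK2
    have hj0 : (1 : ℝ) ≤ 2 ^ j := one_le_pow₀ (by norm_num)
    have e1 : 2 * (s / 2 ^ (j + 1)) = s / 2 ^ j := by
      rw [pow_succ]
      field_simp
    have hn : ((v.norm : ℤ) : ℝ) = ph a v * ps a v := by
      have h5 : sq a ^ 2 = (a : ℝ) ^ 2 - 1 := by
        unfold sq
        apply Real.sq_sqrt
        have : (2 : ℝ) ≤ a := by exact_mod_cast ha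
        nlinarith
      rw [Zsqrtd.norm_def]
      unfold ph ps
      push_cast
      linear_combination ((v.im : ℝ) ^ 2) * h5
    refine ⟨⟨hph, ?_, ?_⟩, ?_⟩
    · rw [abs_of_pos hps]
      calc ps a v ≤ s / 2 ^ j := by rw [← e1]; exact h4
        _ ≤ s := div_le_self hs0.le hj0
        _ ≤ 2 ^ j * s := by nlinarith
        _ ≤ ph a v := h1
    · rw [abs_of_pos hps]
      have he : (a : ℝ) ≤ eps a := by
        unfold eps
        linarith
      have ha0 : (0 : ℝ) < a := by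
        have : (2 : ℝ) ≤ a := by exact_mod_cast ha
        linarith
      have h6 : (2 : ℝ) ^ (j + 1) ≤ eps a := hj1.trans he
      have h7 : ((2 : ℝ) ^ (j + 1)) ^ 2 ≤ eps a ^ 2 := pow_le_pow_left₀ (by positivity) h6 2
      have h8 : 2 * (2 ^ j * s) = ((2 : ℝ) ^ (j + 1)) ^ 2 * (s / 2 ^ (j + 1)) := by
        rw [pow_succ]
        field_simp
        try ring
      calc ph a v < 2 * (2 ^ j * s) := h2
        _ = ((2 : ℝ) ^ (j + 1)) ^ 2 * (s / 2 ^ (j + 1)) := h8
        _ ≤ eps a ^ 2 * (s / 2 ^ (j + 1)) := mul_le_mul_of_nonneg_right h7 (by positivity)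
        _ ≤ eps a ^ 2 * ps a v := mul_le_mul_of_nonneg_left h3.le (by positivity)
    · rw [hn, abs_of_pos (mul_pos hph hps)]
      have h9 : z = 2 * (2 ^ j * s) * (2 * (s / 2 ^ (j + 1))) := by
        have : z = 2 * s ^ 2 := by linarith
        rw [this, pow_succ]
        field_simp
        try ring
      rw [h9]
      calc ph a v * ps a v ≤ ph a v * (2 * (s / 2 ^ (j + 1))) :=
            mul_le_mul_of_nonneg_left h4 hph.le
        _ < 2 * (2 ^ j * s) * (2 * (s / 2 ^ (j + 1))) :=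
            mul_lt_mul_of_pos_right h2 (by positivity)
  have hle : ((Finset.range (KK a)).biUnion T).card ≤ (AS a z).ncard := by
    rw [← Set.ncard_coe_finset]
    exact Set.ncard_le_ncard hsub (hf z)
  have hsum : (KK a : ℝ) * (z / (64 * sq a)) ≤ ∑ j ∈ Finset.range (KK a), ((T j).card : ℝ) := by
    have h1 : ∀ j ∈ Finset.range (KK a), z / (64 * sq a) ≤ ((T j).card : ℝ) := by
      intro j hj
      refine le_trans (le_of_eq ?_) (hT2 j (Finset.mem_range.mp hj))
      have : z = 2 * s ^ 2 := by linarith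
      rw [this, pow_succ]
      field_simp
      try ring
    calc (KK a : ℝ) * (z / (64 * sq a)) = ∑ _j ∈ Finset.range (KK a), z / (64 * sq a) := by
          rw [Finset.sum_const, Finset.card_range, nsmul_eq_mul]
      _ ≤ _ := Finset.sum_le_sum h1
  have hfin : (KK a : ℝ) * z / (200 * sq a) ≤ (KK a : ℝ) * (z / (64 * sq a)) := by
    rw [mul_div_assoc]
    apply mul_le_mul_of_nonneg_left _ (by positivity)
    apply div_le_div_of_nonneg_left hz0 (by positivity)
    linarith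
  calc (KK a : ℝ) * z / (200 * sq a) ≤ (KK a : ℝ) * (z / (64 * sq a)) := hfin
    _ ≤ ∑ j ∈ Finset.range (KK a), ((T j).card : ℝ) := hsum
    _ = (((Finset.range (KK a)).biUnion T).card : ℝ) := by rw [hcard]; push_cast; rfl
    _ ≤ ((AS a z).ncard : ℝ) := by exact_mod_cast hle

end Pool.Agent.Helper20.MC
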