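import Pool.Agent.Helper20.MC.Defs

/-!
Primitive elements.

PROOF.  `AS_le_sum`: `v = m v'`, `m = gcd (re, im)`, `m² |N v'| < z`.
`PS_lower`: `M = 40000`: `AS z ≤ M * PS z + ∑_{M < m ≤ √z} (100 K z/(m² √D) + C √z/m)`
(monotone in `z`), `∑_{m > M} 1/m² ≤ 1/M`, `∑_{m ≤ √z} 1/m ≤ 1 + log z`, so
`M * PS z ≥ K z/√D (1/200 - 1/400) - C √z (1 + log z) ≥ K z/(800 √D)` for large `z`.
`PS_ratio`: `PS w ≤ AS w ≤ 200 K w/√D` for large `w`, `PS (w T/2) ≥ K w T/(2 * 10^8 √D)`.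
-/

namespace Pool.Agent.Helper20.MC

private lemma Prm_ph {a : ℕ} (m : ℤ) (b : ℤ√(DD a)) :
    ph a ((m : ℤ√(DD a)) * b) = m * ph a b := by
  simp only [ph, Zsqrtd.re_mul, Zsqrtd.im_mul, Zsqrtd.re_intCast, Zsqrtd.im_intCast]
  push_cast
  ring

private lemma Prm_ps {a : ℕ} (m : ℤ) (b : ℤ√(DD a)) :
    ps a ((m : ℤ√(DD a)) * b) = m * ps a b := by
  simp only [ps, Zsqrtd.re_mul, Zsqrtd.im_mul, Zsqrtd.re_intCast, Zsqrtd.im_intCast]
  push_cast
  ring

private lemma Prm_sq {a : ℕ} (ha : 2 ≤ a) : 1 ≤ sq a := by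
  unfold sq
  rw [Real.one_le_sqrt]
  have : (2 : ℝ) ≤ a := by exact_mod_cast ha
  nlinarith

private lemma Prm_norm {a : ℕ} (ha : 2 ≤ a) (v : ℤ√(DD a)) :
    ((v.norm : ℤ) : ℝ) = ph a v * ps a v := by
  have h : sq a * sq a = (a : ℝ) ^ 2 - 1 := by
    unfold sq
    apply Real.mul_self_sqrt
    have : (2 : ℝ) ≤ a := by exact_mod_cast ha
    nlinarith
  simp only [Zsqrtd.norm_def, ph, ps, DD]
  push_cast
  linear_combination ((v.im : ℝ) * v.im) * h

private lemma Prm_dom_ne {a : ℕ} (ha : 2 ≤ a) {v : ℤ√(DD a)} (h : Dom a v) :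
    1 ≤ |((v.norm : ℤ) : ℝ)| := by
  have h0 : v.norm ≠ 0 := by
    intro h0
    have h1 := Prm_norm ha v
    rw [h0, Int.cast_zero] at h1
    obtain ⟨h2, h3, h4⟩ := h
    have h5 : ps a v = 0 := by
      rcases mul_eq_zero.mp h1.symm with h6 | h6
      · exact absurd h6 h2.ne'
      · exact h6
    rw [h5] at h4
    simp at h4
    linarith
  have h1 : 1 ≤ |v.norm| := Int.one_le_abs h0
  exact_mod_cast h1

private lemma Prm_dom {a : ℕ} {m : ℤ} (hm : 0 < m) {b : ℤ√(DD a)}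
    (h : Dom a ((m : ℤ√(DD a)) * b)) : Dom a b := by
  have hm' : (0 : ℝ) < m := by exact_mod_cast hm
  obtain ⟨h1, h2, h3⟩ := h
  rw [Prm_ph] at h1 h2 h3
  rw [Prm_ps, abs_mul, abs_of_pos hm'] at h2 h3
  refine ⟨?_, ?_, ?_⟩
  · exact (mul_pos_iff_of_pos_left hm').mp h1
  · exact le_of_mul_le_mul_left h2 hm'
  · have h4 : (m : ℝ) * ph a b < m * ((eps a) ^ 2 * |ps a b|) := by
      calc (m : ℝ) * ph a b < (eps a) ^ 2 * (m * |ps a b|) := h3
        _ = m * ((eps a) ^ 2 * |ps a b|) := by ring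
    exact lt_of_mul_lt_mul_left h4 hm'.le

private lemma Prm_PS_sub (a : ℕ) (z : ℝ) : PS a z ⊆ AS a z :=
  fun _ h => ⟨h.1, h.2.2⟩

private lemma Prm_PS_mono (a : ℕ) {w z : ℝ} (h : w ≤ z) : PS a w ⊆ PS a z :=
  fun _ hv => ⟨hv.1, hv.2.1, lt_of_lt_of_le hv.2.2 h⟩

/-- `AS z` is the union over `m ≥ 1` of `m • PS (z / m²)`. -/
theorem AS_le_sum {a : ℕ} (ha : 2 ≤ a) (hf : ∀ z, (AS a z).Finite)
    (h1 : ∀ z : ℝ, z ≤ 1 → AS a z = ∅) {z : ℝ} (hz : 0 < z) :
    (AS a z).ncard ≤ ∑ m ∈ Finset.Icc 1 ⌊Real.sqrt z⌋₊, (PS a (z / (m : ℝ) ^ 2)).ncard := by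
  classical
  have hp : ∀ w, (PS a w).Finite := fun w => (hf w).subset (Prm_PS_sub a w)
  let F : ℕ → Finset (ℤ√(DD a)) := fun m =>
    (hp (z / (m : ℝ) ^ 2)).toFinset.image (fun b => (((m : ℤ)) : ℤ√(DD a)) * b)
  have hsub : (hf z).toFinset ⊆ (Finset.Icc 1 ⌊Real.sqrt z⌋₊).biUnion F := by
    intro v hv
    rw [Set.Finite.mem_toFinset] at hv
    obtain ⟨hd, hn⟩ := hv
    have hg : 0 < Int.gcd v.re v.im := by
      rw [Int.gcd_pos_iff]
      by_contra hcon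
      push Not at hcon
      have h2 := hd.1
      simp only [ph, hcon.1, hcon.2] at h2
      simp at h2
    obtain ⟨b, hb1, hb2⟩ := Zsqrtd.exists_coprime_of_gcd_pos hg
    set m : ℕ := Int.gcd v.re v.im with hm
    have hm0 : (0 : ℤ) < (m : ℤ) := by exact_mod_cast hg
    have hmr : (0 : ℝ) < (m : ℝ) := by exact_mod_cast hg
    have hdb : Dom a b := by
      apply Prm_dom hm0
      rw [← hb1]
      exact hd
    have hnv : |((v.norm : ℤ) : ℝ)| = (m : ℝ) ^ 2 * |((b.norm : ℤ) : ℝ)| := by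
      have h3 : v.norm = (m : ℤ) * (m : ℤ) * b.norm := by
        conv_lhs => rw [hb1]
        rw [Zsqrtd.norm_mul, Zsqrtd.norm_intCast]
      rw [h3]
      push_cast
      rw [abs_mul, abs_mul, abs_of_pos hmr]
      ring
    have hb3 : 1 ≤ |((b.norm : ℤ) : ℝ)| := Prm_dom_ne ha hdb
    have hm2 : (m : ℝ) ^ 2 * |((b.norm : ℤ) : ℝ)| < z := by
      rw [← hnv]
      exact hn
    rw [Finset.mem_biUnion]
    refine ⟨m, ?_, ?_⟩
    · rw [Finset.mem_Icc]
      refine ⟨hg, Nat.le_floor ?_⟩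
      apply Real.le_sqrt_of_sq_le
      nlinarith [sq_nonneg (m : ℝ)]
    · simp only [F, Finset.mem_image, Set.Finite.mem_toFinset]
      refine ⟨b, ⟨hdb, hb2, ?_⟩, hb1.symm⟩
      rw [lt_div_iff₀ (by positivity)]
      linarith
  calc (AS a z).ncard = (hf z).toFinset.card := Set.ncard_eq_toFinset_card _ _
    _ ≤ ((Finset.Icc 1 ⌊Real.sqrt z⌋₊).biUnion F).card := Finset.card_le_card hsub
    _ ≤ ∑ m ∈ Finset.Icc 1 ⌊Real.sqrt z⌋₊, (F m).card := Finset.card_biUnion_le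
    _ ≤ _ := by
      apply Finset.sum_le_sum
      intro m _
      refine le_trans Finset.card_image_le ?_
      rw [Set.ncard_eq_toFinset_card _ (hp (z / (m : ℝ) ^ 2))]

private lemma Prm_KK {a : ℕ} (ha : 2 ≤ a) : (1 : ℝ) ≤ (KK a : ℝ) := by
  have h : 1 ≤ KK a := by
    unfold KK
    have h1 : 2 ^ 1 ≤ a := by simpa using ha
    exact Nat.le_log_of_pow_le (by norm_num) h1
  exact_mod_cast h

/-- `∑_{M < m ≤ N} 1/m² ≤ 1/M`. -/
private lemma Prm_sum_sq {M N : ℕ} (hM : 0 < M) :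
    ∑ m ∈ Finset.Ioc M N, 1 / (m : ℝ) ^ 2 ≤ 1 / (M : ℝ) := by
  rcases le_total N M with h | h
  · rw [Finset.Ioc_eq_empty_of_le h]
    simp
  · have h1 := sum_Ioc_inv_sq_le_sub (α := ℝ) hM.ne' h
    have h2 : (0 : ℝ) ≤ (N : ℝ)⁻¹ := by positivity
    simp only [one_div]
    linarith

private lemma Prm_sum_inv (N : ℕ) :
    ∑ m ∈ Finset.Icc 1 N, 1 / (m : ℝ) ≤ 2 * Real.sqrt N := by
  rcases Nat.eq_zero_or_pos N with h | h
  · subst h
    simp
  · have h1 := harmonic_le_one_add_log N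
    have h2 : ((harmonic N : ℚ) : ℝ) = ∑ m ∈ Finset.Icc 1 N, 1 / (m : ℝ) := by
      rw [harmonic_eq_sum_Icc]
      push_cast
      simp
    have hN : (1 : ℝ) ≤ N := by exact_mod_cast h
    have hs : 0 < Real.sqrt N := Real.sqrt_pos.mpr (by linarith)
    have h3 : Real.log N = 2 * Real.log (Real.sqrt N) := by
      rw [Real.log_sqrt (by linarith)]
      ring
    have h4 := Real.log_le_sub_one_of_pos hs
    rw [← h2]
    linarith

/-- Positive proportion of primitive elements, with an absolute constant. -/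
theorem PS_lower {a : ℕ} (ha : 2 ≤ a) (hf : ∀ z, (AS a z).Finite)
    (h1 : ∀ z : ℝ, z ≤ 1 → AS a z = ∅)
    (hup : ∃ C : ℝ, 0 ≤ C ∧ ∀ z : ℝ, 0 < z →
      ((AS a z).ncard : ℝ) ≤ 100 * KK a * z / sq a + C * Real.sqrt z)
    (hlo : ∃ z0 : ℝ, ∀ z : ℝ, z0 ≤ z → KK a * z / (200 * sq a) ≤ ((AS a z).ncard : ℝ)) :
    ∃ z0 : ℝ, ∀ z : ℝ, z0 ≤ z → KK a * z / (10 ^ 8 * sq a) ≤ ((PS a z).ncard : ℝ) := by
  obtain ⟨C, hC, hup⟩ := hup
  obtain ⟨z1, hlo⟩ := hlo
  have hs := Prm_sq ha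
  have hs0 : 0 < sq a := by linarith
  have hK := Prm_KK ha
  have hp : ∀ w, (PS a w).Finite := fun w => (hf w).subset (Prm_PS_sub a w)
  refine ⟨max z1 (max 1 ((1600 * C * sq a) ^ 4)), fun z hz => ?_⟩
  have hz1 : z1 ≤ z := le_trans (le_max_left _ _) hz
  have hz2 : 1 ≤ z := le_trans (le_trans (le_max_left _ _) (le_max_right _ _)) hz
  have hz3 : (1600 * C * sq a) ^ 4 ≤ z :=
    le_trans (le_trans (le_max_right _ _) (le_max_right _ _)) hz
  have hz0 : 0 < z := by linarith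
  set r := Real.sqrt z with hr
  set q := Real.sqrt r with hq
  have hr0 : 0 ≤ r := Real.sqrt_nonneg _
  have hq0 : 0 ≤ q := Real.sqrt_nonneg _
  have hrr : r ^ 2 = z := Real.sq_sqrt hz0.le
  have hqq : q ^ 2 = r := Real.sq_sqrt hr0
  have hq4 : q ^ 4 = z := by rw [← hrr, ← hqq]; ring
  have hqC : 1600 * C * sq a ≤ q := by
    rw [← hq4] at hz3
    exact le_of_pow_le_pow_left₀ (by norm_num) hq0 hz3
  set N := ⌊r⌋₊ with hN
  have hNr : (N : ℝ) ≤ r := Nat.floor_le hr0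
  have hA := AS_le_sum ha hf h1 hz0
  have hA' : ((AS a z).ncard : ℝ) ≤
      ∑ m ∈ Finset.Icc 1 N, ((PS a (z / (m : ℝ) ^ 2)).ncard : ℝ) := by exact_mod_cast hA
  have hterm : ∀ m ∈ Finset.Icc 1 N, ((PS a (z / (m : ℝ) ^ 2)).ncard : ℝ) ≤
      (if m ≤ 40000 then ((PS a z).ncard : ℝ) else 0) +
      (if m ≤ 40000 then 0 else 100 * KK a * z / sq a * (1 / (m : ℝ) ^ 2)) +
      C * r * (1 / (m : ℝ)) := by
    intro m hm
    rw [Finset.mem_Icc] at hm
    have hm1 : (1 : ℝ) ≤ m := by exact_mod_cast hm.1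
    have hm0 : (0 : ℝ) < m := by linarith
    by_cases hm4 : m ≤ 40000
    · rw [if_pos hm4, if_pos hm4]
      have h2 : (PS a (z / (m : ℝ) ^ 2)).ncard ≤ (PS a z).ncard := by
        apply Set.ncard_le_ncard _ (hp z)
        apply Prm_PS_mono
        rw [div_le_iff₀ (by positivity)]
        nlinarith [mul_pos hz0 hm0]
      have h3 : ((PS a (z / (m : ℝ) ^ 2)).ncard : ℝ) ≤ ((PS a z).ncard : ℝ) := by
        exact_mod_cast h2
      have h4 : 0 ≤ C * r * (1 / (m : ℝ)) := by positivity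
      linarith
    · rw [if_neg hm4, if_neg hm4]
      have h2 : (PS a (z / (m : ℝ) ^ 2)).ncard ≤ (AS a (z / (m : ℝ) ^ 2)).ncard :=
        Set.ncard_le_ncard (Prm_PS_sub a _) (hf _)
      have h3 : ((PS a (z / (m : ℝ) ^ 2)).ncard : ℝ) ≤ ((AS a (z / (m : ℝ) ^ 2)).ncard : ℝ) := by
        exact_mod_cast h2
      have h4 := hup (z / (m : ℝ) ^ 2) (by positivity)
      have h5 : Real.sqrt (z / (m : ℝ) ^ 2) = r / m := by
        rw [Real.sqrt_div hz0.le, Real.sqrt_sq hm0.le]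
      rw [h5] at h4
      have h6 : 100 * (KK a : ℝ) * (z / (m : ℝ) ^ 2) / sq a
          = 100 * KK a * z / sq a * (1 / (m : ℝ) ^ 2) := by ring
      have h7 : C * (r / (m : ℝ)) = C * r * (1 / (m : ℝ)) := by ring
      rw [h6, h7] at h4
      linarith
  have hsum := Finset.sum_le_sum hterm
  rw [Finset.sum_add_distrib, Finset.sum_add_distrib, ← Finset.mul_sum] at hsum
  have hS1 : ∑ m ∈ Finset.Icc 1 N, (if m ≤ 40000 then ((PS a z).ncard : ℝ) else 0)
      ≤ 40000 * ((PS a z).ncard : ℝ) := by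
    rw [← Finset.sum_filter, Finset.sum_const, nsmul_eq_mul]
    apply mul_le_mul_of_nonneg_right _ (Nat.cast_nonneg _)
    have h2 : ((Finset.Icc 1 N).filter (fun m => m ≤ 40000)) ⊆ Finset.Icc 1 40000 := by
      intro m hm
      rw [Finset.mem_filter, Finset.mem_Icc] at hm
      rw [Finset.mem_Icc]
      exact ⟨hm.1.1, hm.2⟩
    have h3 := Finset.card_le_card h2
    rw [Nat.card_Icc] at h3
    have h4 : ((Finset.Icc 1 N).filter (fun m => m ≤ 40000)).card ≤ 40000 := by omega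
    exact_mod_cast h4
  have hS2 : ∑ m ∈ Finset.Icc 1 N,
      (if m ≤ 40000 then 0 else 100 * (KK a : ℝ) * z / sq a * (1 / (m : ℝ) ^ 2))
      ≤ 100 * KK a * z / sq a * (1 / 40000) := by
    have h2 : ∑ m ∈ Finset.Icc 1 N,
        (if m ≤ 40000 then 0 else 100 * (KK a : ℝ) * z / sq a * (1 / (m : ℝ) ^ 2))
        ≤ ∑ m ∈ Finset.Ioc 40000 N, 100 * (KK a : ℝ) * z / sq a * (1 / (m : ℝ) ^ 2) := by
      have h3 : ∀ m ∈ Finset.Icc 1 N,
          (if m ≤ 40000 then 0 else 100 * (KK a : ℝ) * z / sq a * (1 / (m : ℝ) ^ 2))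
          = (if ¬ m ≤ 40000 then 100 * (KK a : ℝ) * z / sq a * (1 / (m : ℝ) ^ 2) else 0) := by
        intro m _
        by_cases h : m ≤ 40000
        · simp [h]
        · simp [h]
      rw [Finset.sum_congr rfl h3, ← Finset.sum_filter]
      apply Finset.sum_le_sum_of_subset_of_nonneg
      · intro m hm
        rw [Finset.mem_filter, Finset.mem_Icc] at hm
        rw [Finset.mem_Ioc]
        exact ⟨by omega, hm.1.2⟩
      · intro m _ _
        positivity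
    refine le_trans h2 ?_
    rw [← Finset.mul_sum]
    apply mul_le_mul_of_nonneg_left _ (by positivity)
    have h4 := Prm_sum_sq (M := 40000) (N := N) (by norm_num)
    exact_mod_cast h4
  have hS3 : C * r * ∑ m ∈ Finset.Icc 1 N, 1 / (m : ℝ) ≤ C * r * (2 * q) := by
    apply mul_le_mul_of_nonneg_left _ (by positivity)
    refine le_trans (Prm_sum_inv N) ?_
    have h2 : Real.sqrt N ≤ q := Real.sqrt_le_sqrt hNr
    linarith
  have hl := hlo z hz1
  have hX : KK a * z / (200 * sq a) ≤ 40000 * ((PS a z).ncard : ℝ)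
      + 100 * KK a * z / sq a * (1 / 40000) + C * r * (2 * q) := by linarith
  have hY : C * r * (2 * q) ≤ KK a * z / sq a * (1 / 800) := by
    rw [div_mul_eq_mul_div, le_div_iff₀ hs0]
    have h2 : C * r * (2 * q) * sq a = (1600 * C * sq a) * (r * q) * (1 / 800) := by ring
    rw [h2]
    have h3 : (1600 * C * sq a) * (r * q) ≤ q * (r * q) :=
      mul_le_mul_of_nonneg_right hqC (by positivity)
    have h4 : q * (r * q) = z := by
      calc q * (r * q) = q ^ 2 * r := by ring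
        _ = z := by rw [hqq, ← hrr]; ring
    have h5 : z ≤ (KK a : ℝ) * z := by nlinarith
    linarith
  have hZ : KK a * z / (200 * sq a) = KK a * z / sq a * (1 / 200) := by
    field_simp
  have hW : KK a * z / (10 ^ 8 * sq a) = KK a * z / sq a * (1 / 10 ^ 8) := by
    field_simp
  have hV : 100 * (KK a : ℝ) * z / sq a * (1 / 40000) = KK a * z / sq a * (1 / 400) := by
    ring
  rw [hZ, hV] at hX
  rw [hW]
  have hU : 0 ≤ (KK a : ℝ) * z / sq a := by positivity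
  nlinarith

/-- The ratio estimate, with an absolute constant. -/
theorem PS_ratio {a : ℕ} (ha : 2 ≤ a) (hf : ∀ z, (AS a z).Finite)
    (hup : ∃ C : ℝ, 0 ≤ C ∧ ∀ z : ℝ, 0 < z →
      ((AS a z).ncard : ℝ) ≤ 100 * KK a * z / sq a + C * Real.sqrt z)
    (hlo : ∃ z0 : ℝ, ∀ z : ℝ, z0 ≤ z → KK a * z / (10 ^ 8 * sq a) ≤ ((PS a z).ncard : ℝ)) :
    ∃ z0 : ℝ, ∀ w : ℝ, z0 ≤ w → ∀ T : ℝ, 2 ≤ T →
      ((PS a w).ncard : ℝ) ≤ 10 ^ 12 / T * ((PS a (w * T / 2)).ncard : ℝ) := by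
  obtain ⟨C, hC, hup⟩ := hup
  obtain ⟨z1, hlo⟩ := hlo
  have hs := Prm_sq ha
  have hs0 : 0 < sq a := by linarith
  have hK := Prm_KK ha
  refine ⟨max z1 (max 1 ((C * sq a) ^ 2)), fun w hw T hT => ?_⟩
  have hw1 : z1 ≤ w := le_trans (le_max_left _ _) hw
  have hw2 : 1 ≤ w := le_trans (le_trans (le_max_left _ _) (le_max_right _ _)) hw
  have hw3 : (C * sq a) ^ 2 ≤ w :=
    le_trans (le_trans (le_max_right _ _) (le_max_right _ _)) hw
  have hw0 : 0 < w := by linarith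
  have hT0 : 0 < T := by linarith
  have hwT : w ≤ w * T / 2 := by nlinarith
  have h1 := hlo (w * T / 2) (le_trans hw1 hwT)
  have h2 := hup w hw0
  have h3 : (PS a w).ncard ≤ (AS a w).ncard := Set.ncard_le_ncard (Prm_PS_sub a _) (hf _)
  have h3' : ((PS a w).ncard : ℝ) ≤ ((AS a w).ncard : ℝ) := by exact_mod_cast h3
  set r := Real.sqrt w with hr
  have hr0 : 0 ≤ r := Real.sqrt_nonneg _
  have hrr : r ^ 2 = w := Real.sq_sqrt hw0.le
  have hrC : C * sq a ≤ r := Real.le_sqrt_of_sq_le hw3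
  have h4 : C * r ≤ KK a * w / sq a := by
    rw [le_div_iff₀ hs0]
    have h5 : C * r * sq a ≤ r * r := by
      calc C * r * sq a = (C * sq a) * r := by ring
        _ ≤ r * r := mul_le_mul_of_nonneg_right hrC hr0
    nlinarith
  have h5 : 100 * (KK a : ℝ) * w / sq a = 100 * (KK a * w / sq a) := by ring
  rw [h5] at h2
  have h6 : 10 ^ 12 / T * (KK a * (w * T / 2) / (10 ^ 8 * sq a)) = 5000 * (KK a * w / sq a) := by
    field_simp
    norm_num
  have h7 : 10 ^ 12 / T * (KK a * (w * T / 2) / (10 ^ 8 * sq a)) ≤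
      10 ^ 12 / T * ((PS a (w * T / 2)).ncard : ℝ) :=
    mul_le_mul_of_nonneg_left h1 (by positivity)
  have h8 : 0 ≤ (KK a : ℝ) * w / sq a := by positivity
  linarith

end Pool.Agent.Helper20.MC
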