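import Pool.Agent.Helper20.MC.Defs

/-!
Upper bound for the number of elements of the domain.

PROOF.  For `z ≤ 1` the set is empty (norm is a nonzero integer).  `ε < 2 a < 2^(K+2)`,
`K = KK a ≥ 1`.  `v ∈ AS z` has `ph v < ε √z`; if `ph v ≤ √z` put `j = 0`, otherwise
`2^(j-1) √z < ph v ≤ 2^j √z` with `1 ≤ j ≤ K + 2`; then `|ps v| ≤ 2^(1-j) √z`.
For given `j`: `im = (ph - ps)/(2 √D) ∈ [0, (2^j + 2^(1-j)) √z / (2 √D)]` and for given `im`
the integer `re` is in an interval of length `2 * 2^(1-j) √z`.  So at most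
`((2^j + 2^(1-j)) √z/(2√D) + 1) (4 * 2^(-j) √z + 1)` elements: main term at most `6 z/√D`,
the rest is `≤ C_a √z` for `z ≥ 1`.  `6 (K + 3) ≤ 24 K ≤ 100 K`.
-/

namespace Pool.Agent.Helper20.MC

private theorem Up_sq_sq {a : ℕ} (ha : 2 ≤ a) : sq a ^ 2 = (a : ℝ) ^ 2 - 1 := by
  unfold sq
  rw [Real.sq_sqrt]
  have : (2 : ℝ) ≤ a := by exact_mod_cast ha
  nlinarith

private theorem Up_sq_pos {a : ℕ} (ha : 2 ≤ a) : 0 < sq a := by
  unfold sq
  apply Real.sqrt_pos.mpr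
  have : (2 : ℝ) ≤ a := by exact_mod_cast ha
  nlinarith

private theorem Up_norm {a : ℕ} (ha : 2 ≤ a) (v : ℤ√(DD a)) :
    (v.norm : ℝ) = ph a v * ps a v := by
  have h := Up_sq_sq ha
  rw [Zsqrtd.norm_def]
  unfold ph ps DD
  push_cast
  linear_combination (v.im : ℝ) ^ 2 * h

private theorem Up_eps_lt {a : ℕ} (ha : 2 ≤ a) : eps a < 2 ^ (KK a + 2) := by
  have h0 := Up_sq_pos ha
  have h1 := Up_sq_sq ha
  have ha' : (2 : ℝ) ≤ a := by exact_mod_cast ha
  have h2 : sq a < a := by nlinarith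
  have h3 : a < 2 ^ (KK a + 1) := Nat.lt_pow_succ_log_self (by norm_num) a
  have h4 : (a : ℝ) < 2 ^ (KK a + 1) := by exact_mod_cast h3
  unfold eps
  have : (2 : ℝ) ^ (KK a + 2) = 2 * 2 ^ (KK a + 1) := by ring
  rw [this]
  linarith

private theorem Up_cover {a : ℕ} (ha : 2 ≤ a) {z : ℝ} (hz : 0 < z) {v : ℤ√(DD a)}
    (hv : v ∈ AS a z) :
    ∃ j ∈ Finset.range (KK a + 3), 0 ≤ v.im ∧
      (v.im : ℝ) ≤ (2 ^ j * Real.sqrt z + 2 * Real.sqrt z / 2 ^ j) / (2 * sq a) ∧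
      |(v.re : ℝ) - v.im * sq a| ≤ 2 * Real.sqrt z / 2 ^ j := by
  classical
  obtain ⟨⟨h1, h2, h3⟩, h4⟩ := hv
  have hs := Up_sq_pos ha
  have hS : 0 < Real.sqrt z := Real.sqrt_pos.mpr hz
  have hSS : Real.sqrt z ^ 2 = z := Real.sq_sqrt hz.le
  set S := Real.sqrt z with hSdef
  have hε : 0 < eps a := by
    unfold eps
    have : (0 : ℝ) ≤ a := by positivity
    linarith
  have h5 : ph a v * |ps a v| < S ^ 2 := by
    rw [hSS]
    have : |(v.norm : ℝ)| = ph a v * |ps a v| := by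
      rw [Up_norm ha, abs_mul, abs_of_pos h1]
    rw [← this]
    exact h4
  have h6 : ph a v < eps a * S := by
    have h7 : ph a v ^ 2 < (eps a * S) ^ 2 := by
      calc ph a v ^ 2 = ph a v * ph a v := by ring
        _ < ph a v * (eps a ^ 2 * |ps a v|) := by
            exact mul_lt_mul_of_pos_left h3 h1
        _ = eps a ^ 2 * (ph a v * |ps a v|) := by ring
        _ < eps a ^ 2 * S ^ 2 := by
            exact mul_lt_mul_of_pos_left h5 (by positivity)
        _ = (eps a * S) ^ 2 := by ring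
    exact lt_of_pow_lt_pow_left₀ 2 (by positivity) h7
  have hex : ∃ j : ℕ, ph a v ≤ 2 ^ j * S :=
    ⟨KK a + 2, (h6.trans (mul_lt_mul_of_pos_right (Up_eps_lt ha) hS)).le⟩
  have hjle : Nat.find hex ≤ KK a + 2 :=
    Nat.find_min' hex (h6.trans (mul_lt_mul_of_pos_right (Up_eps_lt ha) hS)).le
  have hj := Nat.find_spec hex
  set j := Nat.find hex with hjdef
  have hps : |ps a v| ≤ 2 * S / 2 ^ j := by
    rcases Nat.eq_zero_or_pos j with h0 | h0
    · rw [h0] at hj ⊢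
      simp only [pow_zero, one_mul, div_one] at hj ⊢
      linarith
    · have hm : ¬ ph a v ≤ 2 ^ (j - 1) * S := Nat.find_min hex (by omega)
      push Not at hm
      by_contra hcon
      push Not at hcon
      have h8 : (2 : ℝ) ^ j = 2 * 2 ^ (j - 1) := by
        rw [← pow_succ']
        congr 1
        omega
      have h9 : (0 : ℝ) < 2 ^ (j - 1) := by positivity
      have h10 : S ^ 2 = (2 ^ (j - 1) * S) * (2 * S / 2 ^ j) := by
        rw [h8]; field_simp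
      have h11 : (2 ^ (j - 1) * S) * (2 * S / 2 ^ j) < ph a v * |ps a v| :=
        mul_lt_mul'' hm hcon (by positivity) (by positivity)
      linarith
  have hdiff : ph a v - ps a v = 2 * sq a * v.im := by
    unfold ph ps; ring
  refine ⟨j, Finset.mem_range.mpr (by omega), ?_, ?_, ?_⟩
  · have : 0 ≤ 2 * sq a * (v.im : ℝ) := by
      rw [← hdiff]
      have := le_abs_self (ps a v)
      linarith
    have h9 : 0 ≤ (v.im : ℝ) := by
      by_contra hc
      push Not at hc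
      have : 2 * sq a * (v.im : ℝ) < 0 := mul_neg_of_pos_of_neg (by positivity) hc
      linarith
    exact_mod_cast h9
  · rw [le_div_iff₀ (by positivity)]
    have h7 := neg_abs_le (ps a v)
    have : (v.im : ℝ) * (2 * sq a) = ph a v - ps a v := by rw [hdiff]; ring
    rw [this]
    linarith
  · exact hps

private theorem Up_card_Icc {x y : ℝ} (h : 0 ≤ y - x + 1) :
    ((Finset.Icc ⌈x⌉ ⌊y⌋).card : ℝ) ≤ y - x + 1 := by
  rw [Int.card_Icc]
  rcases le_or_gt 0 (⌊y⌋ + 1 - ⌈x⌉) with h0 | h0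
  · have h1 : (((⌊y⌋ + 1 - ⌈x⌉).toNat : ℤ) : ℝ) = ((⌊y⌋ + 1 - ⌈x⌉ : ℤ) : ℝ) := by
      rw [Int.toNat_of_nonneg h0]
    have h2 : (((⌊y⌋ + 1 - ⌈x⌉).toNat : ℕ) : ℝ) = ((⌊y⌋ + 1 - ⌈x⌉ : ℤ) : ℝ) := by
      rw [← h1]; push_cast; rfl
    rw [h2]
    push_cast
    have := Int.floor_le y
    have := Int.le_ceil x
    linarith
  · rw [Int.toNat_of_nonpos h0.le]
    simpa using h

private theorem Up_card {s U R : ℝ} (hU : 0 ≤ U) (hR : 0 ≤ R) :
    (((Finset.Icc (0 : ℤ) ⌊U⌋).sigma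
      (fun m : ℤ => Finset.Icc ⌈(m : ℝ) * s - R⌉ ⌊(m : ℝ) * s + R⌋)).card : ℝ)
      ≤ (U + 1) * (2 * R + 1) := by
  rw [Finset.card_sigma]
  push_cast
  have h1 : ∀ m ∈ Finset.Icc (0 : ℤ) ⌊U⌋,
      ((Finset.Icc ⌈(m : ℝ) * s - R⌉ ⌊(m : ℝ) * s + R⌋).card : ℝ) ≤ 2 * R + 1 := by
    intro m _
    have := @Up_card_Icc ((m : ℝ) * s - R) ((m : ℝ) * s + R) (by linarith)
    linarith
  refine (Finset.sum_le_sum h1).trans ?_
  rw [Finset.sum_const, nsmul_eq_mul]
  have h2 := @Up_card_Icc 0 U (by linarith)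
  simp only [Int.ceil_zero, sub_zero] at h2
  exact mul_le_mul_of_nonneg_right h2 (by linarith)

private theorem Up_term {K j : ℕ} {s S : ℝ} (hs : 0 < s) (hS : 1 ≤ S) (hj : j < K + 3) :
    ((2 ^ j * S + 2 * S / 2 ^ j) / (2 * s) + 1) * (2 * (2 * S / 2 ^ j) + 1)
      ≤ 6 * S ^ 2 / s + ((2 ^ (K + 2) + 2) / (2 * s) + 5) * S := by
  have ht1 : (1 : ℝ) ≤ 2 ^ j := one_le_pow₀ (by norm_num)
  have ht2 : (2 : ℝ) ^ j ≤ 2 ^ (K + 2) := pow_le_pow_right₀ (by norm_num) (by omega)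
  obtain ⟨t, ht⟩ : ∃ t : ℝ, t = 2 ^ j := ⟨_, rfl⟩
  obtain ⟨T, hT⟩ : ∃ T : ℝ, T = 2 ^ (K + 2) := ⟨_, rfl⟩
  rw [← ht] at ht1 ht2 ⊢
  rw [← hT] at ht2 ⊢
  have ht0 : 0 < t := by linarith
  obtain ⟨r, hr⟩ : ∃ r : ℝ, r = 1 / t := ⟨_, rfl⟩
  have hr0 : 0 < r := by rw [hr]; positivity
  have hr1 : r ≤ 1 := by rw [hr, div_le_one ht0]; exact ht1
  have hrt : t * r = 1 := by rw [hr]; field_simp
  obtain ⟨q, hq⟩ : ∃ q : ℝ, q = 1 / s := ⟨_, rfl⟩
  have hq0 : 0 < q := by rw [hq]; positivity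
  have e1 : ((t * S + 2 * S / t) / (2 * s) + 1) * (2 * (2 * S / t) + 1)
      = ((t * S + 2 * S * r) * q / 2 + 1) * (4 * S * r + 1) := by
    rw [hr, hq]; field_simp; ring
  have e2 : 6 * S ^ 2 / s + ((T + 2) / (2 * s) + 5) * S
      = 6 * S ^ 2 * q + ((T + 2) * q / 2 + 5) * S := by
    rw [hq]; field_simp
  rw [e1, e2]
  have e3 : ((t * S + 2 * S * r) * q / 2 + 1) * (4 * S * r + 1)
      = 2 * S ^ 2 * q * (t * r) + 4 * S ^ 2 * q * r ^ 2 + (t + 2 * r) * S * q / 2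
        + 4 * S * r + 1 := by ring
  rw [e3, hrt]
  have hSq : 0 < S ^ 2 * q := by positivity
  have hSq' : 0 < S * q := by positivity
  have h1 : r ^ 2 ≤ 1 := by nlinarith
  have h2 : 4 * S ^ 2 * q * r ^ 2 ≤ 4 * (S ^ 2 * q) := by nlinarith
  have h3 : (t + 2 * r) * (S * q) ≤ (T + 2) * (S * q) :=
    mul_le_mul_of_nonneg_right (by linarith) hSq'.le
  have h4 : 4 * S * r ≤ 4 * S := by nlinarith
  nlinarith

theorem AS_upper {a : ℕ} (ha : 2 ≤ a) (hf : ∀ z, (AS a z).Finite) :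
    ∃ C : ℝ, 0 ≤ C ∧ ∀ z : ℝ, 0 < z →
      ((AS a z).ncard : ℝ) ≤ 100 * KK a * z / sq a + C * Real.sqrt z := by
  classical
  have hs := Up_sq_pos ha
  have hK : 1 ≤ KK a := by
    unfold KK
    exact Nat.log_pos (by norm_num) ha
  have hK' : (1 : ℝ) ≤ KK a := by exact_mod_cast hK
  refine ⟨(KK a + 3 : ℝ) * ((2 ^ (KK a + 2) + 2) / (2 * sq a) + 5), by positivity, ?_⟩
  intro z hz
  rcases le_or_gt z 1 with hz1 | hz1
  · have hemp : AS a z = ∅ := by
      rw [Set.eq_empty_iff_forall_notMem]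
      rintro v ⟨⟨h1, h2, h3⟩, h4⟩
      have hne : v.norm ≠ 0 := by
        intro h0
        have := Up_norm ha v
        rw [h0, Int.cast_zero] at this
        have h5 : ps a v = 0 := by
          rcases mul_eq_zero.mp this.symm with h | h
          · exact absurd h h1.ne'
          · exact h
        rw [h5, abs_zero, mul_zero] at h3
        linarith
      have h6 : (1 : ℤ) ≤ |v.norm| := Int.one_le_abs hne
      have h7 : (1 : ℝ) ≤ |(v.norm : ℝ)| := by exact_mod_cast h6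
      linarith
    rw [hemp, Set.ncard_empty]
    have : 0 ≤ Real.sqrt z := Real.sqrt_nonneg z
    push_cast
    positivity
  · have hS1 : 1 ≤ Real.sqrt z := by
      rw [Real.one_le_sqrt]; exact hz1.le
    have hSS : Real.sqrt z ^ 2 = z := Real.sq_sqrt hz.le
    obtain ⟨S, hSdef⟩ : ∃ S : ℝ, S = Real.sqrt z := ⟨_, rfl⟩
    rw [← hSdef] at hS1 hSS ⊢
    let U : ℕ → ℝ := fun j => (2 ^ j * S + 2 * S / 2 ^ j) / (2 * sq a)
    let R : ℕ → ℝ := fun j => 2 * S / 2 ^ j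
    let T : ℕ → Finset ((_ : ℤ) × ℤ) := fun j => (Finset.Icc (0 : ℤ) ⌊U j⌋).sigma
      (fun m : ℤ => Finset.Icc ⌈(m : ℝ) * sq a - R j⌉ ⌊(m : ℝ) * sq a + R j⌋)
    let F : Finset (ℤ√(DD a)) := (Finset.range (KK a + 3)).biUnion
      (fun j => (T j).image (fun p => (⟨p.2, p.1⟩ : ℤ√(DD a))))
    have hsub : AS a z ⊆ ↑F := by
      intro v hv
      obtain ⟨j, hj, h1, h2, h3⟩ := Up_cover ha hz hv
      rw [← hSdef] at h2 h3
      rw [Finset.mem_coe, Finset.mem_biUnion]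
      refine ⟨j, hj, ?_⟩
      rw [Finset.mem_image]
      refine ⟨⟨v.im, v.re⟩, ?_, rfl⟩
      rw [Finset.mem_sigma]
      rw [abs_le] at h3
      refine ⟨Finset.mem_Icc.mpr ⟨h1, Int.le_floor.mpr h2⟩, Finset.mem_Icc.mpr ⟨?_, ?_⟩⟩
      · rw [Int.ceil_le]
        show (v.im : ℝ) * sq a - R j ≤ v.re
        simp only [R]
        linarith [h3.1]
      · rw [Int.le_floor]
        show (v.re : ℝ) ≤ (v.im : ℝ) * sq a + R j
        simp only [R]
        linarith [h3.2]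
    have h1 : (AS a z).ncard ≤ F.card := by
      rw [← Set.ncard_coe_finset F]
      exact Set.ncard_le_ncard hsub (Finset.finite_toSet F)
    have h2 : F.card ≤ ∑ j ∈ Finset.range (KK a + 3), (T j).card :=
      Finset.card_biUnion_le.trans (Finset.sum_le_sum fun j _ => Finset.card_image_le)
    have h3 : ((AS a z).ncard : ℝ) ≤ ∑ j ∈ Finset.range (KK a + 3), ((T j).card : ℝ) := by
      exact_mod_cast h1.trans h2
    have hS0 : 0 < S := by linarith
    have h4 : ∀ j ∈ Finset.range (KK a + 3), ((T j).card : ℝ) ≤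
        6 * S ^ 2 / sq a + ((2 ^ (KK a + 2) + 2) / (2 * sq a) + 5) * S := by
      intro j hj
      have hU : 0 ≤ U j := by simp only [U]; positivity
      have hR : 0 ≤ R j := by simp only [R]; positivity
      exact (Up_card hU hR).trans (Up_term hs hS1 (Finset.mem_range.mp hj))
    have h5 := h3.trans (Finset.sum_le_sum h4)
    rw [Finset.sum_const, Finset.card_range, nsmul_eq_mul, hSS] at h5
    refine h5.trans ?_
    push_cast
    have h6 : (KK a + 3 : ℝ) * (6 * z / sq a) ≤ 100 * KK a * z / sq a := by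
      have : (KK a + 3 : ℝ) * (6 * z / sq a) = ((KK a + 3 : ℝ) * 6) * (z / sq a) := by ring
      rw [this]
      have h7 : 100 * (KK a : ℝ) * z / sq a = (100 * KK a) * (z / sq a) := by ring
      rw [h7]
      exact mul_le_mul_of_nonneg_right (by linarith) (by positivity)
    nlinarith
end Pool.Agent.Helper20.MC
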