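import Pool.Agent.Helper20.MC.Defs

/-!
The weight does not decrease along the continued fraction map.

PROOF.  `P' = a0 Q - P`.  If `v ∈ W (P, Q)` then `v ∣ Q` and `v ∣ P - g √D`, so
`v ∣ P' + g √D = v μ`; `|N μ| = (D g² - P'²)/Q = Q'`, `conj μ ∣ P' - g √D`.  Multiply
`conj μ` by `± ε^j` (`j` integer, `ε = a + √D` is a unit of norm 1) to get into `Dom`
(`exists_mem_Ico_zpow` for `|ph/ps|` and the base `ε²`).  If `v1, v2` have the same image then
`conj μ1 = ± ε^j conj μ2`, so `v1 = ± ε^j v2` (another `j`), and both are in `Dom`, so `v1 = v2`.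
Useful first: `ph`, `ps` are multiplicative, `ph v * ps v = N v`, `ph (conj v) = ps v`,
`ph`, `ps` vanish only at 0 (`√D` irrational).
-/

namespace Pool.Agent.Helper20.MC

private theorem wt_sq {a : ℕ} (ha : 2 ≤ a) : sq a * sq a = (a : ℝ) ^ 2 - 1 := by
  have h2 : (2 : ℝ) ≤ a := by exact_mod_cast ha
  have h : (0 : ℝ) ≤ (a : ℝ) ^ 2 - 1 := by nlinarith
  exact Real.mul_self_sqrt h

private theorem wt_sq_pos {a : ℕ} (ha : 2 ≤ a) : 0 < sq a := by
  have h2 : (2 : ℝ) ≤ a := by exact_mod_cast ha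
  exact Real.sqrt_pos.mpr (by nlinarith)

private theorem wt_irr {a : ℕ} (ha : 2 ≤ a) : Irrational (sq a) := by
  have hns : ¬ IsSquare (DD a) := by
    rintro ⟨r, hr⟩
    have h2 : (2 : ℤ) ≤ a := by exact_mod_cast ha
    have hr' : r * r = (a : ℤ) ^ 2 - 1 := hr.symm
    have h1 : |r| < a := by
      by_contra hc
      push Not at hc
      have : (a : ℤ) ^ 2 ≤ |r| ^ 2 := by
        exact pow_le_pow_left₀ (by omega) hc 2
      rw [sq_abs] at this
      nlinarith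
    have h3 : (a : ℤ) - 1 < |r| := by
      by_contra hc
      push Not at hc
      have : |r| ^ 2 ≤ ((a : ℤ) - 1) ^ 2 := by
        exact pow_le_pow_left₀ (abs_nonneg r) hc 2
      rw [sq_abs] at this
      nlinarith
    omega
  have h := irrational_sqrt_intCast_iff (z := DD a)
  have : Irrational (Real.sqrt ((DD a : ℤ) : ℝ)) := by
    rw [h]
    refine ⟨hns, ?_⟩
    have h2 : (2 : ℤ) ≤ a := by exact_mod_cast ha
    show (0 : ℤ) ≤ (a : ℤ) ^ 2 - 1
    nlinarith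
  have e : (((DD a : ℤ)) : ℝ) = (a : ℝ) ^ 2 - 1 := by
    unfold DD
    push_cast
    ring
  rw [e] at this
  exact this

private theorem wt_ph_mul {a : ℕ} (ha : 2 ≤ a) (v w : ℤ√(DD a)) :
    ph a (v * w) = ph a v * ph a w := by
  have h := wt_sq ha
  unfold ph
  rw [Zsqrtd.re_mul, Zsqrtd.im_mul]
  unfold DD
  push_cast
  linear_combination (-(v.im : ℝ) * w.im) * h

private theorem wt_ps_mul {a : ℕ} (ha : 2 ≤ a) (v w : ℤ√(DD a)) :
    ps a (v * w) = ps a v * ps a w := by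
  have h := wt_sq ha
  unfold ps
  rw [Zsqrtd.re_mul, Zsqrtd.im_mul]
  unfold DD
  push_cast
  linear_combination (-(v.im : ℝ) * w.im) * h

private noncomputable def phm {a : ℕ} (ha : 2 ≤ a) : ℤ√(DD a) →* ℝ where
  toFun := ph a
  map_one' := by simp [ph]
  map_mul' := wt_ph_mul ha

private noncomputable def psm {a : ℕ} (ha : 2 ≤ a) : ℤ√(DD a) →* ℝ where
  toFun := ps a
  map_one' := by simp [ps]
  map_mul' := wt_ps_mul ha

/-- the unit `ε` -/
private def E (a : ℕ) : (ℤ√(DD a))ˣ where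
  val := ⟨a, 1⟩
  inv := ⟨a, -1⟩
  val_inv := by
    ext
    · simp [DD]; ring
    · simp
  inv_val := by
    ext
    · simp [DD]; ring
    · simp

private theorem wt_star_E (a : ℕ) : star ((E a : (ℤ√(DD a))ˣ) : ℤ√(DD a))
    = (((E a)⁻¹ : (ℤ√(DD a))ˣ) : ℤ√(DD a)) := by
  ext <;> simp [E]

private theorem wt_eps_pos {a : ℕ} (ha : 2 ≤ a) : 1 < eps a := by
  have h2 : (2 : ℝ) ≤ a := by exact_mod_cast ha
  have := wt_sq_pos ha
  unfold eps
  linarith

private theorem wt_ph_E {a : ℕ} (ha : 2 ≤ a) (n : ℤ) :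
    ph a (((E a) ^ n : (ℤ√(DD a))ˣ) : ℤ√(DD a)) = (eps a) ^ n := by
  have h1 : ph a (((E a) ^ n : (ℤ√(DD a))ˣ) : ℤ√(DD a))
      = ((Units.map (phm ha) ((E a) ^ n) : ℝˣ) : ℝ) := rfl
  rw [h1, map_zpow, Units.val_zpow_eq_zpow_val]
  congr 1
  show ph a ((E a : (ℤ√(DD a))ˣ) : ℤ√(DD a)) = eps a
  simp [ph, E, eps]

private theorem wt_ps_E {a : ℕ} (ha : 2 ≤ a) (n : ℤ) :
    ps a (((E a) ^ n : (ℤ√(DD a))ˣ) : ℤ√(DD a)) = (eps a) ^ (-n) := by
  have h1 : ps a (((E a) ^ n : (ℤ√(DD a))ˣ) : ℤ√(DD a))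
      = ((Units.map (psm ha) ((E a) ^ n) : ℝˣ) : ℝ) := rfl
  rw [h1, map_zpow, Units.val_zpow_eq_zpow_val]
  have h2 : ((Units.map (psm ha) (E a) : ℝˣ) : ℝ) = (eps a)⁻¹ := by
    show ps a ((E a : (ℤ√(DD a))ˣ) : ℤ√(DD a)) = (eps a)⁻¹
    have h3 : ps a ((E a : (ℤ√(DD a))ˣ) : ℤ√(DD a)) = a - sq a := by simp [ps, E]
    rw [h3]
    have he := wt_eps_pos ha
    apply eq_inv_of_mul_eq_one_left
    have := wt_sq ha
    unfold eps
    linear_combination (-1 : ℝ) * this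
  rw [h2, inv_zpow']

private theorem wt_ph_ne {a : ℕ} (ha : 2 ≤ a) {v : ℤ√(DD a)} (hv : v ≠ 0) : ph a v ≠ 0 := by
  intro h
  apply hv
  unfold ph at h
  have hi := wt_irr ha
  have him : v.im = 0 := by
    by_contra hc
    have h1 : Irrational ((v.im : ℝ) * sq a) := hi.intCast_mul hc
    apply h1
    refine ⟨((-v.re : ℤ) : ℚ), ?_⟩
    push_cast
    linarith
  have hre : v.re = 0 := by
    rw [him] at h
    have : (v.re : ℝ) = 0 := by simpa using h
    exact_mod_cast this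
  ext
  · simpa using hre
  · simpa using him

private theorem wt_ps_ne {a : ℕ} (ha : 2 ≤ a) {v : ℤ√(DD a)} (hv : v ≠ 0) : ps a v ≠ 0 := by
  intro h
  have h1 : star v ≠ 0 := by
    intro hc
    exact hv (star_eq_zero.mp hc)
  apply wt_ph_ne ha h1
  unfold ps at h
  unfold ph
  simp only [Zsqrtd.re_star, Zsqrtd.im_star]
  push_cast
  linarith

private theorem wt_cancel {a : ℕ} (ha : 2 ≤ a) {x y w : ℤ√(DD a)} (hw : w ≠ 0)
    (h : x * w = y * w) : x = y := by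
  by_contra hc
  have h1 : x - y ≠ 0 := sub_ne_zero.mpr hc
  have h2 : (x - y) * w = 0 := by rw [sub_mul, h, sub_self]
  have h3 : ph a (x - y) * ph a w = 0 := by
    rw [← wt_ph_mul ha, h2]
    simp [ph]
  rcases mul_eq_zero.mp h3 with h4 | h4
  · exact wt_ph_ne ha h1 h4
  · exact wt_ph_ne ha hw h4

/-- existence of a representative in the domain -/
private theorem wt_dom_exists {a : ℕ} (ha : 2 ≤ a) {v : ℤ√(DD a)} (hv : v ≠ 0) :
    ∃ n : ℤ, Dom a ((((E a) ^ n : (ℤ√(DD a))ˣ) : ℤ√(DD a)) * v) ∨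
      Dom a (-((((E a) ^ n : (ℤ√(DD a))ˣ) : ℤ√(DD a)) * v)) := by
  have h1 := wt_ph_ne ha hv
  have h2 := wt_ps_ne ha hv
  have he := wt_eps_pos ha
  have he0 : 0 < eps a := by linarith
  have hx : 0 < |ph a v| / |ps a v| := by positivity
  have hy : 1 < (eps a) ^ 2 := by nlinarith
  obtain ⟨n, hn1, hn2⟩ := exists_mem_Ico_zpow hx hy
  refine ⟨-n, ?_⟩
  have hps : 0 < |ps a v| := abs_pos.mpr h2
  have hph : 0 < |ph a v| := abs_pos.mpr h1
  have e1 : ph a ((((E a) ^ (-n) : (ℤ√(DD a))ˣ) : ℤ√(DD a)) * v) = (eps a) ^ (-n) * ph a v := by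
    rw [wt_ph_mul ha, wt_ph_E ha]
  have e2 : ps a ((((E a) ^ (-n) : (ℤ√(DD a))ˣ) : ℤ√(DD a)) * v) = (eps a) ^ n * ps a v := by
    rw [wt_ps_mul ha, wt_ps_E ha, neg_neg]
  set w := (((E a) ^ (-n) : (ℤ√(DD a))ˣ) : ℤ√(DD a)) * v with hw
  have hen : 0 < (eps a) ^ n := zpow_pos he0 n
  have henn : 0 < (eps a) ^ (-n) := zpow_pos he0 (-n)
  have hprod : (eps a) ^ (-n) * (eps a) ^ n = 1 := by
    rw [← zpow_add₀ he0.ne']
    simp
  have hyn : ((eps a) ^ 2) ^ n = (eps a) ^ n * (eps a) ^ n := by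
    rw [pow_two, mul_zpow]
  have hyn1 : ((eps a) ^ 2) ^ (n + 1) = (eps a) ^ n * (eps a) ^ n * (eps a) ^ 2 := by
    rw [zpow_add₀ (by positivity), zpow_one, hyn]
  rw [le_div_iff₀ hps, hyn] at hn1
  rw [div_lt_iff₀ hps, hyn1] at hn2
  have k1 : |ps a w| ≤ |ph a w| := by
    rw [e1, e2, abs_mul, abs_mul, abs_of_pos hen, abs_of_pos henn]
    calc (eps a) ^ n * |ps a v|
        = (eps a) ^ (-n) * ((eps a) ^ n * (eps a) ^ n * |ps a v|) := by
          linear_combination (-((eps a) ^ n * |ps a v|)) * hprod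
      _ ≤ (eps a) ^ (-n) * |ph a v| := by
          exact mul_le_mul_of_nonneg_left hn1 henn.le
  have k2 : |ph a w| < (eps a) ^ 2 * |ps a w| := by
    rw [e1, e2, abs_mul, abs_mul, abs_of_pos hen, abs_of_pos henn]
    calc (eps a) ^ (-n) * |ph a v|
        < (eps a) ^ (-n) * ((eps a) ^ n * (eps a) ^ n * (eps a) ^ 2 * |ps a v|) := by
          exact mul_lt_mul_of_pos_left hn2 henn
      _ = (eps a) ^ 2 * ((eps a) ^ n * |ps a v|) := by
          linear_combination ((eps a) ^ n * (eps a) ^ 2 * |ps a v|) * hprod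
  have hne : ph a w ≠ 0 := by
    rw [e1]
    exact mul_ne_zero henn.ne' h1
  have n1 : ph a (-w) = - ph a w := by simp [ph]; ring
  have n2 : ps a (-w) = - ps a w := by simp [ps]; ring
  rcases lt_or_gt_of_ne hne with hlt | hgt
  · right
    refine ⟨?_, ?_, ?_⟩
    · rw [n1]; linarith
    · rw [n1, n2, abs_neg]
      rwa [abs_of_neg hlt] at k1
    · rw [n1, n2, abs_neg]
      rwa [abs_of_neg hlt] at k2
  · left
    refine ⟨hgt, ?_, ?_⟩
    · rwa [abs_of_pos hgt] at k1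
    · rwa [abs_of_pos hgt] at k2

/-- uniqueness of the representative in the domain -/
private theorem wt_dom_unique {a : ℕ} (ha : 2 ≤ a) {v w : ℤ√(DD a)} (hv : Dom a v) (hw : Dom a w)
    (n : ℤ) (h : w = (((E a) ^ n : (ℤ√(DD a))ˣ) : ℤ√(DD a)) * v ∨
      w = -((((E a) ^ n : (ℤ√(DD a))ˣ) : ℤ√(DD a)) * v)) : w = v := by
  have he := wt_eps_pos ha
  have he0 : 0 < eps a := by linarith
  obtain ⟨v1, v2, v3⟩ := hv
  obtain ⟨w1, w2, w3⟩ := hw
  have hen : 0 < (eps a) ^ n := zpow_pos he0 n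
  have henn : 0 < (eps a) ^ (-n) := zpow_pos he0 (-n)
  have e1 : ph a ((((E a) ^ n : (ℤ√(DD a))ˣ) : ℤ√(DD a)) * v) = (eps a) ^ n * ph a v := by
    rw [wt_ph_mul ha, wt_ph_E ha]
  have e2 : ps a ((((E a) ^ n : (ℤ√(DD a))ˣ) : ℤ√(DD a)) * v) = (eps a) ^ (-n) * ps a v := by
    rw [wt_ps_mul ha, wt_ps_E ha]
  have n1 : ∀ x : ℤ√(DD a), ph a (-x) = - ph a x := by intro x; simp [ph]; ring
  have n2 : ∀ x : ℤ√(DD a), ps a (-x) = - ps a x := by intro x; simp [ps]; ring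
  have a1 : ph a w = (eps a) ^ n * ph a v ∧ w = (((E a) ^ n : (ℤ√(DD a))ˣ) : ℤ√(DD a)) * v := by
    rcases h with h | h
    · exact ⟨by rw [h, e1], h⟩
    · exfalso
      rw [h, n1, e1] at w1
      have := mul_pos hen v1
      linarith
  obtain ⟨a1, a3⟩ := a1
  have a2 : |ps a w| = (eps a) ^ (-n) * |ps a v| := by
    rw [a3, e2, abs_mul, abs_of_pos henn]
  rw [a1, a2] at w2 w3
  have hps : 0 < |ps a v| := by
    by_contra hc
    have : |ps a v| = 0 := le_antisymm (not_lt.mp hc) (abs_nonneg _)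
    rw [this] at v3
    linarith
  have hprod : (eps a) ^ (-n) * (eps a) ^ n = 1 := by
    rw [← zpow_add₀ he0.ne']
    simp
  have hn0 : n = 0 := by
    rcases lt_trichotomy n 0 with hlt | h0 | hgt
    · exfalso
      -- `eps ^ n * ph v < eps ^ (n + 2) * |ps v| ≤ eps ^ (-n) * |ps v|`
      have q1 : (eps a) ^ n * ph a v < (eps a) ^ n * ((eps a) ^ 2 * |ps a v|) :=
        mul_lt_mul_of_pos_left v3 hen
      have q2 : (eps a) ^ n * (eps a) ^ 2 ≤ (eps a) ^ (-n) := by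
        have : (eps a) ^ n * (eps a) ^ 2 = (eps a) ^ (n + 2) := by
          rw [zpow_add₀ he0.ne']
          norm_cast
        rw [this]
        exact zpow_le_zpow_right₀ he.le (by omega)
      have q3 : (eps a) ^ n * ((eps a) ^ 2 * |ps a v|) ≤ (eps a) ^ (-n) * |ps a v| := by
        rw [← mul_assoc]
        exact mul_le_mul_of_nonneg_right q2 hps.le
      linarith
    · exact h0
    · exfalso
      have q1 : (eps a) ^ n * |ps a v| ≤ (eps a) ^ n * ph a v :=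
        mul_le_mul_of_nonneg_left v2 hen.le
      have q2 : (eps a) ^ 2 * (eps a) ^ (-n) ≤ (eps a) ^ n := by
        have : (eps a) ^ 2 * (eps a) ^ (-n) = (eps a) ^ (2 + -n) := by
          rw [zpow_add₀ he0.ne']
          norm_cast
        rw [this]
        exact zpow_le_zpow_right₀ he.le (by omega)
      have q3 : (eps a) ^ 2 * ((eps a) ^ (-n) * |ps a v|) ≤ (eps a) ^ n * |ps a v| := by
        rw [← mul_assoc]
        exact mul_le_mul_of_nonneg_right q2 hps.le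
      linarith
  rw [a3, hn0]
  simp

private theorem wt_star_zpow (a : ℕ) (n : ℤ) :
    star (((E a) ^ n : (ℤ√(DD a))ˣ) : ℤ√(DD a)) =
      (((E a) ^ (-n) : (ℤ√(DD a))ˣ) : ℤ√(DD a)) := by
  have h : star (E a) = (E a)⁻¹ := by
    apply Units.ext
    rw [Units.coe_star]
    exact wt_star_E a
  rw [← Units.coe_star, star_zpow, h, inv_zpow']

private theorem wt_norm_E (a : ℕ) (n : ℤ) :
    |(((E a) ^ n : (ℤ√(DD a))ˣ) : ℤ√(DD a)).norm| = 1 := by
  have h : IsUnit ((((E a) ^ n : (ℤ√(DD a))ˣ) : ℤ√(DD a))) := Units.isUnit _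
  have h1 := Zsqrtd.norm_eq_one_iff.mpr h
  rw [Int.abs_eq_natAbs, h1]
  rfl

/-- For a reduced pair the map `v ↦ conj ((P' + g √D) / v)`, brought back to the domain by
`± ε ^ j`, is an injection from `W p` to `W (nx p)`. -/
theorem W_le {a g : ℕ} (ha : 2 ≤ a) (hg : 1 ≤ g) {p : ℤ × ℤ} (hp : p ∈ Red a g)
    (hn : nx a g p ∈ Red a g) (hf : (W a g (nx a g p)).Finite) :
    (W a g p).ncard ≤ (W a g (nx a g p)).ncard := by
  have hs := wt_sq ha
  obtain ⟨P, Q⟩ := p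
  obtain ⟨hQ, hQd, -, -, -⟩ := hp
  simp only at hQ hQd
  set k : ℤ := ⌊xv a g (P, Q)⌋ with hk
  set P' : ℤ := k * Q - P with hP'
  set Q' : ℤ := (DD a * (g : ℤ) ^ 2 - P' ^ 2) / Q with hQ'
  have hnx : nx a g (P, Q) = (P', Q') := rfl
  rw [hnx] at hn hf ⊢
  obtain ⟨hQ'0, -, -, -, -⟩ := hn
  simp only at hQ'0
  have hdiv : Q ∣ DD a * (g : ℤ) ^ 2 - P' ^ 2 := by
    have : DD a * (g : ℤ) ^ 2 - P' ^ 2
        = (DD a * (g : ℤ) ^ 2 - P ^ 2) - Q * (k * (k * Q - 2 * P)) := by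
      rw [hP']; ring
    rw [this]
    exact dvd_sub hQd (dvd_mul_right _ _)
  have hQQ : DD a * (g : ℤ) ^ 2 - P' ^ 2 = Q * Q' := by
    rw [hQ', Int.mul_ediv_cancel' hdiv]
  set T : ℤ√(DD a) := ⟨P', g⟩ with hT
  have hTn : T.norm = -(Q * Q') := by
    rw [← hQQ]
    simp only [Zsqrtd.norm_def, hT]
    ring
  have hT0 : T ≠ 0 := by
    intro h
    have : T.norm = 0 := by rw [h]; simp
    rw [hTn] at this
    have := mul_pos hQ hQ'0
    omega
  have hkey : ∀ v ∈ W a g (P, Q), ∃ w ∈ W a g (P', Q'), ∃ n : ℤ,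
      v * ((((E a) ^ n : (ℤ√(DD a))ˣ) : ℤ√(DD a)) * star w) = T ∨
      v * ((((E a) ^ n : (ℤ√(DD a))ˣ) : ℤ√(DD a)) * star w) = -T := by
    intro v hv
    obtain ⟨-, hvn, hvd⟩ := hv
    simp only at hvn hvd
    have hvQ : v ∣ ((Q : ℤ) : ℤ√(DD a)) := by
      have h1 : v ∣ ((v.norm : ℤ) : ℤ√(DD a)) := by
        rw [Zsqrtd.norm_eq_mul_conj]
        exact dvd_mul_right _ _
      rcases abs_eq hQ.le |>.mp hvn with h | h
      · rw [h] at h1; exact h1
      · rw [h] at h1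
        have : ((-Q : ℤ) : ℤ√(DD a)) = -((Q : ℤ) : ℤ√(DD a)) := by push_cast; rfl
        rw [this, dvd_neg] at h1
        exact h1
    have hvT : v ∣ T := by
      have : T = ((Q : ℤ) : ℤ√(DD a)) * ((k : ℤ) : ℤ√(DD a)) - ⟨P, -(g : ℤ)⟩ := by
        rw [← Int.cast_mul]
        ext
        · simp [hT, hP']; ring
        · simp [hT]
      rw [this]
      exact dvd_sub (hvQ.mul_right _) hvd
    obtain ⟨μ, hμ⟩ := hvT
    have hμ0 : μ ≠ 0 := by
      intro h
      rw [h, mul_zero] at hμ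
      exact hT0 hμ
    have hμs : star μ ≠ 0 := by
      intro hc
      exact hμ0 (star_eq_zero.mp hc)
    have hμn : |μ.norm| = Q' := by
      have h1 : v.norm * μ.norm = -(Q * Q') := by
        rw [← Zsqrtd.norm_mul, ← hμ, hTn]
      have h2 : |v.norm| * |μ.norm| = Q * Q' := by
        rw [← abs_mul, h1, abs_neg, abs_of_pos (mul_pos hQ hQ'0)]
      rw [hvn] at h2
      exact mul_left_cancel₀ hQ.ne' h2
    have hμd : star μ ∣ (⟨P', -(g : ℤ)⟩ : ℤ√(DD a)) := by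
      have : (⟨P', -(g : ℤ)⟩ : ℤ√(DD a)) = star v * star μ := by
        have h := congrArg star hμ
        rw [star_mul', hT] at h
        rw [← h]
        ext <;> simp
      rw [this]
      exact dvd_mul_left _ _
    obtain ⟨n, hn⟩ := wt_dom_exists ha hμs
    set u := (((E a) ^ n : (ℤ√(DD a))ˣ) : ℤ√(DD a)) with hu
    have hun : |u.norm| = 1 := wt_norm_E a n
    have hud : u * star μ ∣ (⟨P', -(g : ℤ)⟩ : ℤ√(DD a)) := by
      have : IsUnit u := Units.isUnit _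
      rw [mul_comm]
      rwa [this.mul_right_dvd]
    have hnn : |(u * star μ).norm| = Q' := by
      rw [Zsqrtd.norm_mul, abs_mul, hun, one_mul, Zsqrtd.norm_conj, hμn]
    have hcancel : u * star u = 1 := by
      rw [hu, wt_star_zpow, ← Units.val_mul, ← zpow_add]
      simp
    rcases hn with hn | hn
    · refine ⟨u * star μ, ⟨hn, hnn, hud⟩, n, Or.inl ?_⟩
      rw [star_mul', star_star, ← mul_assoc u, hcancel, one_mul, ← hμ]
    · refine ⟨-(u * star μ), ⟨hn, ?_, ?_⟩, n, Or.inr ?_⟩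
      · rw [Zsqrtd.norm_neg]; exact hnn
      · exact (neg_dvd).mpr hud
      · rw [star_neg, star_mul', star_star, mul_neg, ← mul_assoc u, hcancel, one_mul, mul_neg,
          ← hμ]
  choose! f hfm hfe using hkey
  refine Set.ncard_le_ncard_of_injOn f hfm ?_ hf
  intro v1 hv1 v2 hv2 h12
  obtain ⟨n1, h1⟩ := hfe v1 hv1
  obtain ⟨n2, h2⟩ := hfe v2 hv2
  rw [← h12] at h2
  set w := star (f v1) with hw
  have hw0 : w ≠ 0 := by
    intro h
    rw [h, mul_zero, mul_zero] at h1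
    rcases h1 with h1 | h1
    · exact hT0 h1.symm
    · exact hT0 (neg_eq_zero.mp h1.symm)
  have hrel : v1 * (((E a) ^ n1 : (ℤ√(DD a))ˣ) : ℤ√(DD a))
      = v2 * (((E a) ^ n2 : (ℤ√(DD a))ˣ) : ℤ√(DD a)) ∨
      v1 * (((E a) ^ n1 : (ℤ√(DD a))ˣ) : ℤ√(DD a))
      = -(v2 * (((E a) ^ n2 : (ℤ√(DD a))ˣ) : ℤ√(DD a))) := by
    rcases h1 with h1 | h1 <;> rcases h2 with h2 | h2
    · left
      apply wt_cancel ha hw0
      rw [mul_assoc, mul_assoc, h1, h2]
    · right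
      apply wt_cancel ha hw0
      rw [neg_mul, mul_assoc, mul_assoc, h1, h2, neg_neg]
    · right
      apply wt_cancel ha hw0
      rw [neg_mul, mul_assoc, mul_assoc, h1, h2]
    · left
      apply wt_cancel ha hw0
      rw [mul_assoc, mul_assoc, h1, h2]
  apply wt_dom_unique ha hv2.1 hv1.1 (n2 - n1)
  have hc : (((E a) ^ n1 : (ℤ√(DD a))ˣ) : ℤ√(DD a)) *
      (((E a) ^ (-n1) : (ℤ√(DD a))ˣ) : ℤ√(DD a)) = 1 := by
    rw [← Units.val_mul, ← zpow_add]
    simp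
  have hc2 : (((E a) ^ (n2 - n1) : (ℤ√(DD a))ˣ) : ℤ√(DD a)) =
      (((E a) ^ n2 : (ℤ√(DD a))ˣ) : ℤ√(DD a)) *
      (((E a) ^ (-n1) : (ℤ√(DD a))ˣ) : ℤ√(DD a)) := by
    rw [← Units.val_mul, ← zpow_add]
    congr 2
  rw [hc2]
  rcases hrel with h | h
  · left
    linear_combination (((E a) ^ (-n1) : (ℤ√(DD a))ˣ) : ℤ√(DD a)) * h - v1 * hc
  · right
    linear_combination (((E a) ^ (-n1) : (ℤ√(DD a))ˣ) : ℤ√(DD a)) * h - v1 * hc

end Pool.Agent.Helper20.MC
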