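import Pool.Agent.Helper20.MC.CF1
import Pool.Agent.Helper20.MC.CF2
import Pool.Agent.Helper20.MC.Wt
import Pool.Agent.Helper20.MC.Fin
import Pool.Agent.Helper20.MC.Dbl
import Pool.Agent.Helper20.MC.Up
import Pool.Agent.Helper20.MC.Low
import Pool.Agent.Helper20.MC.Prm
import Pool.Agent.Helper20.MC.Avg
import Pool.Agent.Helper89.SLE.Div

/-!
Assembly, first part: the weight of the pairs with a large partial quotient.
-/

namespace Pool.Agent.Helper20.MC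

theorem sq_ge_one {a : ℕ} (ha : 2 ≤ a) : 1 ≤ sq a := by
  have h : (2 : ℝ) ≤ a := by exact_mod_cast ha
  rw [sq]
  exact Real.one_le_sqrt.mpr (by nlinarith)

theorem bb_ge {a g : ℕ} (ha : 2 ≤ a) : (g : ℝ) ≤ bb a g := by
  have h := sq_ge_one ha
  have hg : (0 : ℝ) ≤ g := Nat.cast_nonneg g
  rw [bb]
  nlinarith

/-- The constants of the counting part. -/
theorem counting {a : ℕ} (ha : 2 ≤ a) :
    ∃ z0 : ℝ, 1 ≤ z0 ∧ (∀ z : ℝ, z0 ≤ z → KK a * z / (10 ^ 8 * sq a) ≤ ((PS a z).ncard : ℝ)) ∧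
      ∀ w : ℝ, z0 ≤ w → ∀ T : ℝ, 2 ≤ T →
        ((PS a w).ncard : ℝ) ≤ 10 ^ 12 / T * ((PS a (w * T / 2)).ncard : ℝ) := by
  have hf : ∀ z, (AS a z).Finite := AS_finite ha
  have h1 : ∀ z : ℝ, z ≤ 1 → AS a z = ∅ := fun z hz => AS_one ha hz
  have hup := AS_upper ha hf
  have hlo := AS_lower ha hf
  obtain ⟨y0, hy0⟩ := PS_lower ha hf h1 hup hlo
  obtain ⟨y1, hy1⟩ := PS_ratio ha hf hup ⟨y0, hy0⟩
  refine ⟨max 1 (max y0 y1), le_max_left _ _, fun z hz => hy0 z ?_, fun w hw T hT => hy1 w ?_ T hT⟩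
  · exact le_trans (le_trans (le_max_left _ _) (le_max_right _ _)) hz
  · exact le_trans (le_trans (le_max_right _ _) (le_max_right _ _)) hw

theorem PS_mono {a : ℕ} (ha : 2 ≤ a) {z z' : ℝ} (h : z ≤ z') :
    (PS a z).ncard ≤ (PS a z').ncard :=
  Set.ncard_le_ncard (fun _ hv => ⟨hv.1, hv.2.1, lt_of_lt_of_le hv.2.2 h⟩) (PS_finite ha z')

theorem PS_one {a : ℕ} (ha : 2 ≤ a) {z : ℝ} (hz : z ≤ 1) : (PS a z).ncard = 0 := by
  have h : PS a z ⊆ AS a z := fun v hv => ⟨hv.1, hv.2.2⟩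
  rw [AS_one ha hz] at h
  rw [Set.subset_empty_iff.mp h, Set.ncard_empty]

/-- The sum over the divisors. -/
noncomputable def SD (a g : ℕ) (z : ℝ) : ℝ :=
  ∑ e ∈ g.divisors, (e : ℝ) * ((PS a (z / (e : ℝ) ^ 2)).ncard : ℝ)

/-- For a threshold `T ≥ 2` the divisor sum at `2 B / T` is at most `c / T` times the sum at `B`
and a small error. -/
theorem SD_ratio {a : ℕ} (ha : 2 ≤ a) :
    ∃ C : ℝ, 0 ≤ C ∧ ∀ g : ℕ, 1 ≤ g → ∀ T : ℝ, 2 ≤ T →
      SD a g (2 * bb a g / T) ≤ 10 ^ 12 / T * SD a g (bb a g) +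
        C * Real.sqrt (bb a g) * (g.divisors.card : ℝ) := by
  obtain ⟨z0, hz01, -, hz0⟩ := counting ha
  refine ⟨((PS a z0).ncard : ℝ), Nat.cast_nonneg _, fun g hg T hT => ?_⟩
  have hg' : (1 : ℝ) ≤ g := by exact_mod_cast hg
  have hB : (1 : ℝ) ≤ bb a g := le_trans hg' (bb_ge ha)
  rw [SD, SD, Finset.mul_sum]
  have hterm : ∀ e ∈ g.divisors,
      (e : ℝ) * ((PS a (2 * bb a g / T / (e : ℝ) ^ 2)).ncard : ℝ) ≤
        10 ^ 12 / T * ((e : ℝ) * ((PS a (bb a g / (e : ℝ) ^ 2)).ncard : ℝ)) +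
          ((PS a z0).ncard : ℝ) * Real.sqrt (bb a g) := by
    intro e he
    have he1 : 1 ≤ e := Nat.pos_of_mem_divisors he
    have he' : (1 : ℝ) ≤ e := by exact_mod_cast he1
    have hT0 : 0 < T := by linarith
    have hC0 : (0 : ℝ) ≤ ((PS a z0).ncard : ℝ) := Nat.cast_nonneg _
    have hs0 : 0 ≤ Real.sqrt (bb a g) := Real.sqrt_nonneg _
    rcases le_or_gt z0 (2 * bb a g / T / (e : ℝ) ^ 2) with h | h
    · have h2 := hz0 _ h T hT
      have h3 : 2 * bb a g / T / (e : ℝ) ^ 2 * T / 2 = bb a g / (e : ℝ) ^ 2 := by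
        field_simp
      rw [h3] at h2
      have h4 : (e : ℝ) * ((PS a (2 * bb a g / T / (e : ℝ) ^ 2)).ncard : ℝ) ≤
          (e : ℝ) * (10 ^ 12 / T * ((PS a (bb a g / (e : ℝ) ^ 2)).ncard : ℝ)) :=
        mul_le_mul_of_nonneg_left h2 (by linarith)
      have h5 : (e : ℝ) * (10 ^ 12 / T * ((PS a (bb a g / (e : ℝ) ^ 2)).ncard : ℝ)) =
          10 ^ 12 / T * ((e : ℝ) * ((PS a (bb a g / (e : ℝ) ^ 2)).ncard : ℝ)) := by ring
      have h6 : 0 ≤ ((PS a z0).ncard : ℝ) * Real.sqrt (bb a g) := mul_nonneg hC0 hs0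
      linarith
    · have hnn : 0 ≤ 10 ^ 12 / T * ((e : ℝ) * ((PS a (bb a g / (e : ℝ) ^ 2)).ncard : ℝ)) := by
        positivity
      rcases le_or_gt (2 * bb a g / T / (e : ℝ) ^ 2) 1 with h1 | h1
      · rw [PS_one ha h1]
        have h6 : 0 ≤ ((PS a z0).ncard : ℝ) * Real.sqrt (bb a g) := mul_nonneg hC0 hs0
        simp only [Nat.cast_zero, mul_zero]
        linarith
      · have h2 : ((PS a (2 * bb a g / T / (e : ℝ) ^ 2)).ncard : ℝ) ≤ ((PS a z0).ncard : ℝ) := by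
          exact_mod_cast PS_mono ha h.le
        have h3 : (e : ℝ) ≤ Real.sqrt (bb a g) := by
          apply Real.le_sqrt_of_sq_le
          rw [lt_div_iff₀ (by positivity), one_mul, lt_div_iff₀ hT0] at h1
          nlinarith [sq_nonneg (e : ℝ)]
        have h4 : (e : ℝ) * ((PS a (2 * bb a g / T / (e : ℝ) ^ 2)).ncard : ℝ) ≤
            Real.sqrt (bb a g) * ((PS a z0).ncard : ℝ) :=
          mul_le_mul h3 h2 (Nat.cast_nonneg _) hs0
        linarith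
  calc ∑ e ∈ g.divisors, (e : ℝ) * ((PS a (2 * bb a g / T / (e : ℝ) ^ 2)).ncard : ℝ)
      ≤ ∑ e ∈ g.divisors, (10 ^ 12 / T * ((e : ℝ) * ((PS a (bb a g / (e : ℝ) ^ 2)).ncard : ℝ)) +
          ((PS a z0).ncard : ℝ) * Real.sqrt (bb a g)) := Finset.sum_le_sum hterm
    _ = ∑ e ∈ g.divisors, 10 ^ 12 / T * ((e : ℝ) * ((PS a (bb a g / (e : ℝ) ^ 2)).ncard : ℝ)) +
          ((PS a z0).ncard : ℝ) * Real.sqrt (bb a g) * (g.divisors.card : ℝ) := by
        rw [Finset.sum_add_distrib, Finset.sum_const, nsmul_eq_mul]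
        ring

/-- The finite set of reduced pairs. -/
noncomputable def RF (a g : ℕ) : Finset (ℤ × ℤ) := (red_finite a g).toFinset

theorem mem_RF {a g : ℕ} {p : ℤ × ℤ} : p ∈ RF a g ↔ p ∈ Red a g := by
  rw [RF, Set.Finite.mem_toFinset]

/-- The weight. -/
noncomputable def wt (a g : ℕ) (p : ℤ × ℤ) : ℕ := (W a g p).ncard

theorem total_ge {a g : ℕ} (ha : 2 ≤ a) (hg : 1 ≤ g) :
    SD a g (bb a g) ≤ ∑ p ∈ RF a g, (wt a g p : ℝ) := by
  have h := dbl_lower ha hg (bb_irr ha hg) (red_finite a g) (fun p => W_finite ha p)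
    (fun z => PS_finite ha z)
  have h2 : ((∑ e ∈ g.divisors, e * (PS a (bb a g / (e : ℝ) ^ 2)).ncard : ℕ) : ℝ) ≤
      ((∑ p ∈ (red_finite a g).toFinset, (W a g p).ncard : ℕ) : ℝ) := by exact_mod_cast h
  push_cast at h2
  exact h2

open Classical in
theorem big_le {a g : ℕ} (ha : 2 ≤ a) (hg : 1 ≤ g) {T : ℝ} (hT : 0 < T) (Bd : ℤ × ℤ → Prop)
    (hBd : ∀ p ∈ Red a g, Bd p → T < xv a g p) :
    ∑ p ∈ (RF a g).filter Bd, (wt a g p : ℝ) ≤ SD a g (2 * bb a g / T) := by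
  have h := dbl_upper ha hg (bb_irr ha hg) (red_finite a g) (fun p => W_finite ha p)
    (fun z => PS_finite ha z) (2 * bb a g / T)
  have h2 : ((∑ p ∈ (red_finite a g).toFinset.filter (fun p => (p.2 : ℝ) < 2 * bb a g / T),
      (W a g p).ncard : ℕ) : ℝ) ≤
      ((∑ e ∈ g.divisors, e * (PS a (2 * bb a g / T / (e : ℝ) ^ 2)).ncard : ℕ) : ℝ) := by
    exact_mod_cast h
  push_cast at h2
  refine le_trans (Finset.sum_le_sum_of_subset_of_nonneg ?_ (fun _ _ _ => Nat.cast_nonneg _)) h2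
  intro p hp
  rw [Finset.mem_filter, mem_RF] at hp
  rw [Finset.mem_filter]
  refine ⟨mem_RF.mpr hp.1, ?_⟩
  have h3 := hBd p hp.1 hp.2
  obtain ⟨hq, -, hp1, -, -⟩ := hp.1
  have hq' : (0 : ℝ) < p.2 := by exact_mod_cast hq
  rw [xv, lt_div_iff₀ hq'] at h3
  rw [lt_div_iff₀ hT]
  nlinarith

end Pool.Agent.Helper20.MC
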