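import Pool.Agent.Helper20.MC.Asm1

/-!
Assembly, second part: one level.
-/

namespace Pool.Agent.Helper20.MC

theorem two_pow_le_fib (m : ℕ) : 2 ^ m ≤ Nat.fib (2 * m + 1) := by
  induction m with
  | zero => simp
  | succ m ih =>
    have h : Nat.fib (2 * (m + 1) + 1) = Nat.fib (2 * m + 1) + Nat.fib (2 * m + 2) :=
      Nat.fib_add_two
    have h2 : Nat.fib (2 * m + 1) ≤ Nat.fib (2 * m + 2) := Nat.fib_le_fib_succ
    rw [h, pow_succ]
    omega

theorem xv_iter {a g : ℕ} (ha : 2 ≤ a) (hg : 1 ≤ g) {p : ℤ × ℤ} (hp : p ∈ Red a g) (i : ℕ) :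
    (nx a g)^[i] p ∈ Red a g ∧ gm^[i] (xv a g p) = xv a g ((nx a g)^[i] p) := by
  induction i with
  | zero => exact ⟨hp, rfl⟩
  | succ i ih =>
    rw [Function.iterate_succ_apply', Function.iterate_succ_apply', ih.2]
    exact ⟨nx_mem ha hg ih.1, xv_nx ha hg ih.1⟩

theorem nx_period {a g t m : ℕ} (ha : 2 ≤ a) (hg : 1 ≤ g)
    (ht : (t : ℤ) ^ 2 = DD a * (g : ℤ) ^ 2 + 1) (hm : 2 * t < 2 ^ m) {p : ℤ × ℤ}
    (hp : p ∈ Red a g) : ∃ n : ℕ, 1 ≤ n ∧ n ≤ 2 * m ∧ (nx a g)^[n] p = p := by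
  obtain ⟨n, hn1, hn2, hn3⟩ := red_period ha hg ht hp
  refine ⟨n, hn1, ?_, ?_⟩
  · by_contra hc
    have h1 : Nat.fib (2 * m + 1) ≤ Nat.fib (n + 1) := Nat.fib_mono (by omega)
    have h2 := two_pow_le_fib m
    omega
  · have h := xv_iter ha hg hp n
    rw [hn3] at h
    exact (xv_inj ha hg hp h.1 h.2).symm

theorem sum_inv_sq (J : ℕ) : ∑ j ∈ Finset.Icc 1 J, 1 / (((j : ℝ) + 1) ^ 2) ≤ 1 := by
  have h : ∀ J : ℕ, ∑ j ∈ Finset.Icc 1 J, 1 / (((j : ℝ) + 1) ^ 2) ≤ 1 - 1 / ((J : ℝ) + 1) := by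
    intro J
    induction J with
    | zero => simp
    | succ J ih =>
      rw [Finset.sum_Icc_succ_top (by omega)]
      push_cast
      have hJ : (0 : ℝ) ≤ J := Nat.cast_nonneg J
      have h1 : 1 / (((J : ℝ) + 1 + 1) ^ 2) ≤ 1 / ((J : ℝ) + 1) - 1 / ((J : ℝ) + 1 + 1) := by
        rw [div_sub_div _ _ (by positivity) (by positivity), div_le_div_iff₀ (by positivity)
          (by positivity)]
        nlinarith
      linarith
  refine le_trans (h J) ?_
  have : (0 : ℝ) ≤ 1 / ((J : ℝ) + 1) := by positivity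
  linarith

theorem sum_two_pow (J : ℕ) : ∑ j ∈ Finset.Icc 1 J, (2 : ℝ) ^ j ≤ 2 ^ (J + 1) := by
  induction J with
  | zero => simp
  | succ J ih =>
    rw [Finset.sum_Icc_succ_top (by omega), pow_succ (2 : ℝ) (J + 1)]
    linarith

open Classical in
/-- One level of the construction. -/
theorem level {a : ℕ} (ha : 2 ≤ a) :
    ∃ C z0 : ℝ, 0 ≤ C ∧ ∀ (g t l m : ℕ), 1 ≤ g → 1 ≤ l →
      (t : ℤ) ^ 2 = DD a * (g : ℤ) ^ 2 + 1 →
      2 * t < 2 ^ m → 2 * m ≤ l → z0 ≤ bb a g →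
      l * (C * Real.sqrt (bb a g) * (g.divisors.card : ℝ)) ≤ 1 / 16 * (g / 10 ^ 8) →
      ∃ Y : Finset (ℤ × ℤ), (∀ p ∈ Y, p ∈ Red a g) ∧
        (g : ℝ) / (4 * 10 ^ 8) ≤ Y.card * (12 * eps a * Real.sqrt (2 * bb a g)) ∧
        ∀ p ∈ Y, (∀ i : ℕ, ⌊xv a g ((nx a g)^[i] p)⌋ ≤ 8 * 10 ^ 12 * (l : ℤ)) ∧
          ∃ n : ℕ, 1 ≤ n ∧ n ≤ l ∧ (nx a g)^[n] p = p ∧ ∀ j : ℕ,
            (((Finset.range n).filter
              (fun i => (2 : ℤ) ^ j < ⌊xv a g ((nx a g)^[i] p)⌋)).card : ℝ) ≤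
                4 * 10 ^ 12 * ((j : ℝ) + 1) ^ 2 / 2 ^ j * n := by
  obtain ⟨z0, hz01, hz0, -⟩ := counting ha
  obtain ⟨C, hC, hSD⟩ := SD_ratio ha
  refine ⟨C, z0, hC, fun g t l m hg hl ht hm hml hB hE => ?_⟩
  have hsq := sq_ge_one ha
  have hg' : (1 : ℝ) ≤ g := by exact_mod_cast hg
  have hl' : (1 : ℝ) ≤ l := by exact_mod_cast hl
  have hBg := bb_ge (g := g) ha
  set S : ℝ := ∑ p ∈ RF a g, (wt a g p : ℝ) with hS
  set E : ℝ := C * Real.sqrt (bb a g) * (g.divisors.card : ℝ) with hEdef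
  have hE0 : 0 ≤ E := by rw [hEdef]; positivity
  have htot : SD a g (bb a g) ≤ S := total_ge ha hg
  have hSg : (g : ℝ) / 10 ^ 8 ≤ S := by
    refine le_trans ?_ htot
    have h1 : (1 : ℕ) ∈ g.divisors := Nat.one_mem_divisors.mpr (by omega)
    have h2 := Finset.single_le_sum
      (f := fun e : ℕ => (e : ℝ) * ((PS a (bb a g / (e : ℝ) ^ 2)).ncard : ℝ))
      (fun e _ => by positivity) h1
    refine le_trans ?_ h2
    simp only [Nat.cast_one, one_pow, div_one, one_mul]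
    refine le_trans ?_ (hz0 _ hB)
    have hK : 1 ≤ KK a := by
      rw [KK]
      exact Nat.log_pos (by norm_num) ha
    have hK' : (1 : ℝ) ≤ KK a := by exact_mod_cast hK
    rw [bb]
    have h3 : (KK a : ℝ) * (g * sq a) / (10 ^ 8 * sq a) = KK a * (g / 10 ^ 8) := by
      field_simp
    rw [h3]
    have : (0 : ℝ) ≤ g / 10 ^ 8 := by positivity
    nlinarith
  have hS0 : 0 ≤ S := le_trans (by positivity) hSg
  have hSDnn : 0 ≤ SD a g (bb a g) := by
    rw [SD]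
    exact Finset.sum_nonneg (fun e _ => by positivity)
  have hES : l * E ≤ 1 / 16 * S := le_trans hE (by linarith)
  -- weight of the pairs with a partial quotient larger than `T`
  have hbig : ∀ T : ℕ, 2 ≤ T → ∀ Bd : ℤ × ℤ → Prop, (∀ p, Bd p ↔ (T : ℤ) < ⌊xv a g p⌋) →
      ∑ p ∈ (RF a g).filter Bd, (wt a g p : ℝ) ≤ 10 ^ 12 / T * S + E := by
    intro T hT Bd hBd
    have hT' : (2 : ℝ) ≤ T := by exact_mod_cast hT
    have hT0 : (0 : ℝ) < T := by linarith
    refine le_trans (big_le ha hg hT0 Bd (fun p _ hp => ?_)) ?_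
    · rw [hBd] at hp
      have h3 : ((T : ℤ) : ℝ) < (⌊xv a g p⌋ : ℝ) := by exact_mod_cast hp
      have h4 := Int.floor_le (xv a g p)
      simp only [Int.cast_natCast] at h3
      linarith
    · refine le_trans (hSD g hg T hT') ?_
      have h6 : (10 : ℝ) ^ 12 / T * SD a g (bb a g) ≤ 10 ^ 12 / T * S :=
        mul_le_mul_of_nonneg_left htot (by positivity)
      linarith
  obtain ⟨Bd1, hBd1⟩ : ∃ Bd : ℤ × ℤ → Prop,
      ∀ p, Bd p ↔ ((8 * 10 ^ 12 * l : ℕ) : ℤ) < ⌊xv a g p⌋ := ⟨_, fun _ => Iff.rfl⟩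
  obtain ⟨Bd, hBd⟩ : ∃ Bd : ℕ → ℤ × ℤ → Prop,
      ∀ j p, Bd j p ↔ ((2 ^ j : ℕ) : ℤ) < ⌊xv a g p⌋ := ⟨_, fun _ _ => Iff.rfl⟩
  obtain ⟨J, hJ⟩ : ∃ J : ℕ, J = Nat.log 2 (8 * 10 ^ 12 * l) := ⟨_, rfl⟩
  have hJ1 : 2 ^ J ≤ 8 * 10 ^ 12 * l := by
    rw [hJ]
    exact Nat.pow_log_le_self 2 (by positivity)
  have hJ2 : 8 * 10 ^ 12 * l < 2 ^ (J + 1) := by
    rw [hJ]
    exact Nat.lt_pow_succ_log_self (by norm_num) _
  obtain ⟨cf, hcf⟩ : ∃ cf : ℕ → ℝ, ∀ j, cf j = 2 ^ j / (4 * 10 ^ 12 * ((j : ℝ) + 1) ^ 2) :=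
    ⟨_, fun _ => rfl⟩
  have hcf0 : ∀ j, 0 < cf j := fun j => by rw [hcf]; positivity
  obtain ⟨h, hh⟩ : ∃ h : ℤ × ℤ → ℝ, ∀ p, h p =
      ∑ j ∈ Finset.Icc 1 J, cf j * (if Bd j p then 1 else 0) := ⟨_, fun _ => rfl⟩
  have hnn : ∀ p, 0 ≤ h p := by
    intro p
    rw [hh]
    refine Finset.sum_nonneg (fun j _ => mul_nonneg (hcf0 j).le ?_)
    split_ifs <;> norm_num
  -- first condition
  have h1 : ∑ p ∈ RF a g, (wt a g p : ℝ) * h p ≤ 1 / 2 * S := by
    have h3 : ∑ p ∈ RF a g, (wt a g p : ℝ) * h p =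
        ∑ j ∈ Finset.Icc 1 J, cf j * ∑ p ∈ (RF a g).filter (Bd j), (wt a g p : ℝ) := by
      calc ∑ p ∈ RF a g, (wt a g p : ℝ) * h p
          = ∑ p ∈ RF a g, ∑ j ∈ Finset.Icc 1 J,
              cf j * ((wt a g p : ℝ) * (if Bd j p then 1 else 0)) := by
            refine Finset.sum_congr rfl (fun p _ => ?_)
            rw [hh, Finset.mul_sum]
            exact Finset.sum_congr rfl (fun j _ => by ring)
        _ = ∑ j ∈ Finset.Icc 1 J, ∑ p ∈ RF a g,
              cf j * ((wt a g p : ℝ) * (if Bd j p then 1 else 0)) := Finset.sum_comm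
        _ = _ := by
            refine Finset.sum_congr rfl (fun j _ => ?_)
            rw [Finset.sum_filter, Finset.mul_sum]
            refine Finset.sum_congr rfl (fun p _ => ?_)
            split_ifs <;> simp
    rw [h3]
    have h4 : ∀ j ∈ Finset.Icc 1 J,
        cf j * ∑ p ∈ (RF a g).filter (Bd j), (wt a g p : ℝ) ≤
          S / 4 * (1 / (((j : ℝ) + 1) ^ 2)) + E / (16 * 10 ^ 12) * 2 ^ j := by
      intro j hj
      have hj1 : 1 ≤ j := (Finset.mem_Icc.mp hj).1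
      have h5 : 2 ≤ 2 ^ j := by
        calc 2 = 2 ^ 1 := by norm_num
          _ ≤ 2 ^ j := Nat.pow_le_pow_right (by norm_num) hj1
      have h6 := hbig (2 ^ j) h5 (Bd j) (hBd j)
      have h7 : cf j * ∑ p ∈ (RF a g).filter (Bd j), (wt a g p : ℝ) ≤
          cf j * (10 ^ 12 / ((2 ^ j : ℕ) : ℝ) * S + E) :=
        mul_le_mul_of_nonneg_left h6 (hcf0 j).le
      refine le_trans h7 ?_
      rw [mul_add]
      refine add_le_add (le_of_eq ?_) ?_
      · rw [hcf]
        push_cast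
        field_simp
      · rw [hcf, div_mul_eq_mul_div, div_mul_eq_mul_div]
        have hj' : (1 : ℝ) ≤ j := by exact_mod_cast hj1
        rw [div_le_div_iff₀ (by positivity) (by positivity)]
        have h8 : (4 : ℝ) ≤ ((j : ℝ) + 1) ^ 2 := by nlinarith
        have h9 : 0 ≤ E * 2 ^ j := by positivity
        nlinarith
    refine le_trans (Finset.sum_le_sum h4) ?_
    rw [Finset.sum_add_distrib, ← Finset.mul_sum, ← Finset.mul_sum]
    have h10 := sum_inv_sq J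
    have h11 := sum_two_pow J
    have h12 : (2 : ℝ) ^ (J + 1) ≤ 16 * 10 ^ 12 * l := by
      have : ((2 ^ J : ℕ) : ℝ) ≤ ((8 * 10 ^ 12 * l : ℕ) : ℝ) := by exact_mod_cast hJ1
      push_cast at this
      rw [pow_succ]
      linarith
    have h13 : S / 4 * ∑ j ∈ Finset.Icc 1 J, 1 / (((j : ℝ) + 1) ^ 2) ≤ S / 4 * 1 :=
      mul_le_mul_of_nonneg_left h10 (by positivity)
    have h14 : E / (16 * 10 ^ 12) * ∑ j ∈ Finset.Icc 1 J, (2 : ℝ) ^ j ≤
        E / (16 * 10 ^ 12) * (16 * 10 ^ 12 * l) :=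
      mul_le_mul_of_nonneg_left (le_trans h11 h12) (by positivity)
    have h15 : E / (16 * 10 ^ 12) * (16 * 10 ^ 12 * l) = l * E := by ring
    linarith
  -- second condition
  have h2 : (l : ℝ) * ∑ p ∈ (RF a g).filter Bd1, (wt a g p : ℝ) ≤ 1 / 4 * S := by
    have h9 : 2 ≤ 8 * 10 ^ 12 * l := by omega
    have h8 := hbig (8 * 10 ^ 12 * l) h9 Bd1 hBd1
    have h13 := mul_le_mul_of_nonneg_left h8 (by linarith : (0 : ℝ) ≤ l)
    have h14 : (l : ℝ) * (10 ^ 12 / ((8 * 10 ^ 12 * l : ℕ) : ℝ) * S + E) =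
        1 / 8 * S + l * E := by
      push_cast
      field_simp
      ring
    linarith
  -- the averaging lemma
  obtain ⟨Y, hY1, hY2, hY3⟩ := avgF (RF a g) (nx a g)
    (fun p hp => mem_RF.mpr (nx_mem ha hg (mem_RF.mp hp)))
    (fun p hp q hq h => nx_inj ha hg (mem_RF.mp hp) (mem_RF.mp hq) h) (wt a g)
    (fun p hp => W_le ha hg (mem_RF.mp hp) (nx_mem ha hg (mem_RF.mp hp)) (W_finite ha _)) l
    (fun p hp => by
      obtain ⟨n, hn1, hn2, hn3⟩ := nx_period ha hg ht hm (mem_RF.mp hp)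
      exact ⟨n, hn1, le_trans hn2 hml, hn3⟩)
    h hnn Bd1 one_pos (by rw [← hS]; exact h1) (by rw [← hS]; exact h2)
  refine ⟨Y, fun p hp => mem_RF.mp (hY1 hp), ?_, fun p hp => ?_⟩
  · have h15 : (g : ℝ) / (4 * 10 ^ 8) ≤ ∑ p ∈ Y, (wt a g p : ℝ) := by
      refine le_trans ?_ hY2
      rw [← hS]
      have h16 : (g : ℝ) / (4 * 10 ^ 8) = 1 / 4 * (g / 10 ^ 8) := by ring
      rw [h16]
      linarith
    refine le_trans h15 ?_
    have h17 : ∑ p ∈ Y, (wt a g p : ℝ) ≤ ∑ _p ∈ Y, 12 * eps a * Real.sqrt (2 * bb a g) := by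
      refine Finset.sum_le_sum (fun p hp => ?_)
      have hpR := mem_RF.mp (hY1 hp)
      refine le_trans (W_card ha hpR.1) ?_
      refine mul_le_mul_of_nonneg_left (Real.sqrt_le_sqrt ?_) ?_
      · have := hpR.2.2.2.2
        have := hpR.2.2.1
        linarith
      · rw [eps]
        positivity
    refine le_trans h17 ?_
    rw [Finset.sum_const, nsmul_eq_mul]
  · obtain ⟨h18, n, hn1, hn2, hn3, hn4⟩ := hY3 p hp
    have hn0 : (0 : ℝ) < n := by exact_mod_cast hn1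
    have h19 : ∀ i : ℕ, ⌊xv a g ((nx a g)^[i] p)⌋ ≤ 8 * 10 ^ 12 * (l : ℤ) := by
      intro i
      have h20 := fun hc => h18 i ((hBd1 _).mpr hc)
      push_cast at h20
      exact not_lt.mp h20
    refine ⟨h19, n, hn1, hn2, hn3, fun j => ?_⟩
    rcases Nat.eq_zero_or_pos j with hj0 | hj0
    · subst hj0
      have h21 : (((Finset.range n).filter
          (fun i => (2 : ℤ) ^ 0 < ⌊xv a g ((nx a g)^[i] p)⌋)).card : ℝ) ≤ n := by
        have := Finset.card_filter_le (Finset.range n)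
          (fun i => (2 : ℤ) ^ 0 < ⌊xv a g ((nx a g)^[i] p)⌋)
        rw [Finset.card_range] at this
        exact_mod_cast this
      refine le_trans h21 ?_
      norm_num
      nlinarith
    · rcases le_or_gt j J with hjJ | hjJ
      · have h22 : cf j * (((Finset.range n).filter
            (fun i => (2 : ℤ) ^ j < ⌊xv a g ((nx a g)^[i] p)⌋)).card : ℝ) ≤ 1 * n := by
          refine le_trans ?_ hn4
          have h23 : ∀ i ∈ Finset.range n,
              cf j * (if Bd j ((nx a g)^[i] p) then (1 : ℝ) else 0) ≤ h ((nx a g)^[i] p) := by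
            intro i _
            rw [hh]
            refine Finset.single_le_sum
              (f := fun j => cf j * (if Bd j ((nx a g)^[i] p) then (1 : ℝ) else 0))
              (fun j _ => mul_nonneg (hcf0 j).le ?_) (Finset.mem_Icc.mpr ⟨hj0, hjJ⟩)
            split_ifs <;> norm_num
          refine le_trans (le_of_eq ?_) (Finset.sum_le_sum h23)
          rw [← Finset.mul_sum, Finset.sum_ite, Finset.sum_const_zero, add_zero,
            Finset.sum_const, nsmul_eq_mul, mul_one]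
          congr 3
          ext i
          simp only [Finset.mem_filter, hBd]
          push_cast
          rfl
        rw [hcf] at h22
        rw [div_mul_eq_mul_div, div_le_iff₀ (by positivity)] at h22
        rw [div_mul_eq_mul_div, le_div_iff₀ (by positivity)]
        linarith
      · have h24 : (Finset.range n).filter
            (fun i => (2 : ℤ) ^ j < ⌊xv a g ((nx a g)^[i] p)⌋) = ∅ := by
          rw [Finset.filter_eq_empty_iff]
          intro i _
          rw [not_lt]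
          refine le_trans (h19 i) ?_
          have h25 : 2 ^ (J + 1) ≤ 2 ^ j := Nat.pow_le_pow_right (by norm_num) hjJ
          have h26 : 8 * 10 ^ 12 * l ≤ 2 ^ j := le_trans hJ2.le h25
          exact_mod_cast h26
        rw [h24]
        simp only [Finset.card_empty, Nat.cast_zero]
        positivity

end Pool.Agent.Helper20.MC
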