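import Pool.Agent.Helper20.MC.Asm2

/-!
Assembly, third part: all large `l`.
-/

namespace Pool.Agent.Helper20.MC

theorem pell_seq {a : ℕ} (ha : 2 ≤ a) (k : ℕ) :
    ∃ t g : ℕ, 1 ≤ g ∧ (t : ℤ) ^ 2 = DD a * (g : ℤ) ^ 2 + 1 ∧ a ^ k ≤ g ∧
      t ≤ (3 * a) ^ (k + 1) ∧ a * g ≤ 2 * t := by
  induction k with
  | zero =>
    refine ⟨a, 1, le_rfl, ?_, by norm_num, by simp only [zero_add, pow_one]; omega, by omega⟩
    rw [DD]
    push_cast
    ring
  | succ k ih =>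
    obtain ⟨t, g, h1, h2, h3, h4, h5⟩ := ih
    have ha1 : 1 ≤ a ^ 2 := Nat.one_le_pow _ _ (by omega)
    have hag : g ≤ a * g := Nat.le_mul_of_pos_left g (by omega)
    refine ⟨a * t + (a ^ 2 - 1) * g, t + a * g, by omega, ?_, ?_, ?_, ?_⟩
    · rw [DD] at h2 ⊢
      push_cast [Nat.cast_sub ha1]
      linear_combination (1 : ℤ) * h2
    · rw [pow_succ]
      nlinarith
    · calc a * t + (a ^ 2 - 1) * g ≤ a * t + a ^ 2 * g := by
            gcongr
            omega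
        _ = a * t + a * (a * g) := by ring
        _ ≤ a * t + a * (2 * t) := by gcongr
        _ = 3 * a * t := by ring
        _ ≤ 3 * a * (3 * a) ^ (k + 1) := by gcongr
        _ = (3 * a) ^ (k + 1 + 1) := by ring
    · have h6 : a ^ 2 ≤ 2 * (a ^ 2 - 1) := by
        have : 4 ≤ a ^ 2 := by nlinarith
        omega
      calc a * (t + a * g) = a * t + a ^ 2 * g := by ring
        _ ≤ a * t + 2 * (a ^ 2 - 1) * g := by gcongr
        _ ≤ 2 * (a * t + (a ^ 2 - 1) * g) := by nlinarith [Nat.zero_le (a * t)]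

/-- The exponential beats a linear function. -/
theorem exp_beats {γ M1 M2 : ℝ} (hγ : 0 < γ) (hM1 : 0 ≤ M1) (hM2 : 0 ≤ M2) :
    ∃ L : ℕ, ∀ l : ℕ, L ≤ l → M1 + M2 * l ≤ Real.exp (γ * l) / 2 := by
  obtain ⟨L0, hL0⟩ := exists_nat_ge (4 * (M1 + M2) / γ ^ 2)
  refine ⟨L0 + 1, fun l hl => ?_⟩
  have hl1 : (1 : ℝ) ≤ l := by
    have : 1 ≤ l := by omega
    exact_mod_cast this
  have hl2 : 4 * (M1 + M2) / γ ^ 2 ≤ l := by
    refine le_trans hL0 ?_
    have : L0 ≤ l := by omega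
    exact_mod_cast this
  rw [div_le_iff₀ (by positivity)] at hl2
  have h1 : (γ * l) ^ 2 / 2 ≤ Real.exp (γ * l) := by
    have h2 := Real.quadratic_le_exp_of_nonneg (x := γ * l) (by positivity)
    have h3 : 0 ≤ γ * l := by positivity
    linarith
  have h4 : 4 * (M1 + M2) * l ≤ l * γ ^ 2 * l := mul_le_mul_of_nonneg_right hl2 (by linarith)
  have h5 : M1 ≤ M1 * l := le_mul_of_one_le_right hM1 hl1
  nlinarith

theorem exists_b {a : ℕ} (ha : 2 ≤ a) :
    ∃ b : ℕ, 2 ≤ b ∧ 3 * a ≤ 2 ^ b ∧ (b : ℝ) * Real.log 2 ≤ 4 * Real.log a := by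
  have h1 : 3 * a ≤ 2 ^ Nat.clog 2 (3 * a) := Nat.le_pow_clog (by norm_num) _
  have h2 : 2 ^ (Nat.clog 2 (3 * a)).pred < 3 * a :=
    Nat.pow_pred_clog_lt_self (by norm_num) (by omega)
  have hb2 : 2 ≤ Nat.clog 2 (3 * a) := by
    by_contra hc
    have h3 : 2 ^ Nat.clog 2 (3 * a) ≤ 2 ^ 1 := Nat.pow_le_pow_right (by norm_num) (by omega)
    omega
  refine ⟨Nat.clog 2 (3 * a), hb2, h1, ?_⟩
  generalize Nat.clog 2 (3 * a) = b at h1 h2 hb2
  have ha' : (2 : ℝ) ≤ a := by exact_mod_cast ha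
  have h4 : 3 * a ≤ a ^ 3 := by
    have h5 : 4 ≤ a ^ 2 := by nlinarith
    calc 3 * a ≤ a ^ 2 * a := by nlinarith
      _ = a ^ 3 := by ring
  have h6 : (2 : ℝ) ^ (b - 1) ≤ (a : ℝ) ^ 3 := by
    have : 2 ^ (b - 1) ≤ a ^ 3 := le_trans h2.le h4
    exact_mod_cast this
  have h7 := Real.log_le_log (by positivity) h6
  rw [Real.log_pow, Real.log_pow, Nat.cast_sub (by omega)] at h7
  have h8 : Real.log 2 ≤ Real.log a := Real.log_le_log (by norm_num) ha'
  push_cast at h7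
  nlinarith

open Classical in
theorem final_a {a : ℕ} (ha : 2 ≤ a) :
    ∃ L : ℕ, ∀ l : ℕ, L ≤ l → ∃ g : ℕ, 1 ≤ g ∧
      ∃ Y : Finset (ℤ × ℤ), (∀ p ∈ Y, p ∈ Red a g) ∧ Real.exp ((l : ℝ) / 25) ≤ Y.card ∧
        ∀ p ∈ Y, (∀ i : ℕ, ⌊xv a g ((nx a g)^[i] p)⌋ ≤ 8 * 10 ^ 12 * (l : ℤ)) ∧
          ∃ n : ℕ, 1 ≤ n ∧ n ≤ l ∧ (nx a g)^[n] p = p ∧ ∀ j : ℕ,
            (((Finset.range n).filter
              (fun i => (2 : ℤ) ^ j < ⌊xv a g ((nx a g)^[i] p)⌋)).card : ℝ) ≤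
                4 * 10 ^ 12 * ((j : ℝ) + 1) ^ 2 / 2 ^ j * n := by
  obtain ⟨C, z0, hC, hlev⟩ := level ha
  obtain ⟨Cd, hCd1, hCd⟩ := Pool.Agent.Helper89.SLE.divisor_bound (1 / 4) (by norm_num)
  obtain ⟨b, hb2, hb3, hb4⟩ := exists_b ha
  have hsq := sq_ge_one ha
  have hsq0 : 0 < sq a := by linarith
  have ha' : (2 : ℝ) ≤ a := by exact_mod_cast ha
  have ha0 : (0 : ℝ) < a := by linarith
  have heps : 0 < eps a := by rw [eps]; positivity
  have hb2' : (2 : ℝ) ≤ b := by exact_mod_cast hb2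
  have hb0 : (0 : ℝ) < b := by linarith
  have hlog2 : 0 < Real.log 2 := Real.log_pos (by norm_num)
  have hloga : 0 < Real.log a := Real.log_pos (by linarith)
  set γ : ℝ := Real.log a / b with hγ
  have hγ0 : 0 < γ := by rw [hγ]; positivity
  have hγ1 : 1 / 25 < γ / 4 := by
    have h1 : Real.log 2 / 4 ≤ γ := by
      rw [hγ, div_le_div_iff₀ (by norm_num) hb0]
      linarith
    have h2 := Real.log_two_gt_d9
    norm_num at h2
    linarith
  set δ : ℝ := γ / 4 - 1 / 25 with hδ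
  have hδ0 : 0 < δ := by rw [hδ]; linarith
  set C1 : ℝ := C * (Real.sqrt (sq a) * Cd) with hC1
  have hC10 : 0 ≤ C1 := by rw [hC1]; positivity
  set R : ℝ := 4 * 10 ^ 8 * (12 * eps a * Real.sqrt (2 * sq a)) with hR
  have hR0 : 0 < R := by rw [hR]; positivity
  obtain ⟨L1, hL1⟩ := exp_beats (γ := γ / 8)
    (M1 := (|z0| + 1) * a) (M2 := 16 * 10 ^ 8 * C1 * a)
    (by positivity) (by positivity) (by positivity)
  obtain ⟨L2, hL2⟩ := exp_beats (γ := δ) (M1 := R * a ^ 2) (M2 := 0) hδ0 (by positivity) le_rfl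
  refine ⟨max (max L1 L2) (2 * b + 4), fun l hl => ?_⟩
  have hlL1 : L1 ≤ l := le_trans (le_trans (le_max_left _ _) (le_max_left _ _)) hl
  have hlL2 : L2 ≤ l := le_trans (le_trans (le_max_right _ _) (le_max_left _ _)) hl
  have hlb : 2 * b + 4 ≤ l := le_trans (le_max_right _ _) hl
  have hy := hL1 l hlL1
  have hδl := hL2 l hlL2
  set y : ℝ := Real.exp (γ / 8 * l) with hydef
  have hy0 : 0 < y := Real.exp_pos _
  -- the level
  obtain ⟨q, hq⟩ : ∃ q : ℕ, q = (l - 4) / (2 * b) := ⟨_, rfl⟩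
  have hq1 : 1 ≤ q := by
    rw [hq]
    exact (Nat.one_le_div_iff (by omega)).mpr (by omega)
  have hq2 : 2 * b * q ≤ l - 4 := by
    rw [hq]
    exact Nat.mul_div_le _ _
  have hq3 : l - 4 < 2 * b * (q + 1) := by
    rw [hq]
    exact Nat.lt_mul_div_succ _ (by omega)
  obtain ⟨t, g, hg1, ht, hgk, htk, -⟩ := pell_seq ha (q - 1)
  have hqq : q - 1 + 1 = q := by omega
  rw [hqq] at htk
  have hg' : (1 : ℝ) ≤ g := by exact_mod_cast hg1
  -- fourth root
  set u : ℝ := (g : ℝ) ^ ((1 : ℝ) / 4) with hu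
  have hu0 : 0 < u := by rw [hu]; positivity
  have hu4 : u ^ 4 = g := by
    rw [hu, ← Real.rpow_natCast, ← Real.rpow_mul (by positivity)]
    norm_num
  have hu2 : Real.sqrt g = u ^ 2 := by
    rw [← hu4, show u ^ 4 = (u ^ 2) ^ 2 by ring, Real.sqrt_sq (by positivity)]
  have hgexp : (y / a) ^ 4 ≤ u ^ 4 := by
    rw [hu4]
    have h1 : ((a : ℝ)) ^ (q - 1) ≤ g := by exact_mod_cast hgk
    refine le_trans ?_ h1
    have h2 : (a : ℝ) ^ (q - 1) = Real.exp (Real.log a * ((q - 1 : ℕ) : ℝ)) := by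
      rw [← Real.rpow_natCast, Real.rpow_def_of_pos ha0]
    have h3 : (y / a) ^ 4 = Real.exp (γ / 2 * l - 4 * Real.log a) := by
      rw [Real.exp_sub, div_pow, hydef, ← Real.exp_nat_mul]
      congr 1
      · congr 1
        push_cast
        ring
      · have h4 : Real.exp (4 * Real.log a) = (Real.exp (Real.log a)) ^ 4 := by
          rw [← Real.exp_nat_mul]
          push_cast
          rfl
        rw [h4, Real.exp_log ha0]
    rw [h2, h3, Real.exp_le_exp]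
    have h5 : (l : ℝ) - 4 < 2 * b * (q + 1) := by
      have h6 : ((l - 4 : ℕ) : ℝ) < ((2 * b * (q + 1) : ℕ) : ℝ) := by exact_mod_cast hq3
      rw [Nat.cast_sub (by omega)] at h6
      push_cast at h6
      linarith
    have h7 : ((q - 1 : ℕ) : ℝ) = q - 1 := by
      rw [Nat.cast_sub hq1]
      push_cast
      ring
    rw [h7, hγ]
    have h8 : Real.log a / b / 2 * l ≤ Real.log a * (q + 3) := by
      rw [div_div, div_mul_eq_mul_div, div_le_iff₀ (by positivity)]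
      have h9 : (l : ℝ) ≤ (q + 3) * (b * 2) := by nlinarith
      calc Real.log a * l ≤ Real.log a * ((q + 3) * (b * 2)) :=
            mul_le_mul_of_nonneg_left h9 hloga.le
        _ = Real.log a * (q + 3) * (b * 2) := by ring
    nlinarith
  have huy : y / a ≤ u := le_of_pow_le_pow_left₀ (by norm_num) hu0.le hgexp
  -- consequences
  have hl0 : (0 : ℝ) ≤ l := Nat.cast_nonneg _
  have huM : |z0| + 1 + 16 * 10 ^ 8 * C1 * l ≤ u := by
    refine le_trans ?_ huy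
    rw [le_div_iff₀ ha0]
    have : (|z0| + 1 + 16 * 10 ^ 8 * C1 * l) * a = (|z0| + 1) * a + 16 * 10 ^ 8 * C1 * a * l := by
      ring
    rw [this]
    linarith
  have hM2 : 0 ≤ 16 * 10 ^ 8 * C1 * l := by positivity
  have hz0' := abs_nonneg z0
  have hu1 : 1 ≤ u := by linarith
  have hB : bb a g = g * sq a := rfl
  have hsqrtB : Real.sqrt (bb a g) = u ^ 2 * Real.sqrt (sq a) := by
    rw [hB, Real.sqrt_mul (by positivity), hu2]
  have herr : C * Real.sqrt (bb a g) * (g.divisors.card : ℝ) ≤ C1 * u ^ 3 := by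
    have h10 := hCd g hg1
    rw [← hu] at h10
    calc C * Real.sqrt (bb a g) * (g.divisors.card : ℝ)
        ≤ C * Real.sqrt (bb a g) * (Cd * u) := mul_le_mul_of_nonneg_left h10 (by positivity)
      _ = C1 * u ^ 3 := by rw [hsqrtB, hC1]; ring
  have hE2 : l * (C * Real.sqrt (bb a g) * (g.divisors.card : ℝ)) ≤ 1 / 16 * (g / 10 ^ 8) := by
    refine le_trans (mul_le_mul_of_nonneg_left herr hl0) ?_
    rw [← hu4]
    have h11 : 16 * 10 ^ 8 * C1 * l ≤ u := by linarith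
    calc (l : ℝ) * (C1 * u ^ 3) = 1 / (16 * 10 ^ 8) * (16 * 10 ^ 8 * C1 * l) * u ^ 3 := by ring
      _ ≤ 1 / (16 * 10 ^ 8) * u * u ^ 3 := by gcongr
      _ = 1 / 16 * (u ^ 4 / 10 ^ 8) := by ring
  have hz : z0 ≤ bb a g := by
    refine le_trans ?_ (bb_ge ha)
    rw [← hu4]
    have h13 : z0 ≤ u := by
      have := le_abs_self z0
      linarith
    refine le_trans h13 ?_
    calc u = u ^ 1 := (pow_one u).symm
      _ ≤ u ^ 4 := pow_le_pow_right₀ hu1 (by norm_num)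
  have hm : 2 * t < 2 ^ (b * q + 2) := by
    have h15 : t ≤ 2 ^ (b * q) := by
      refine le_trans htk ?_
      rw [pow_mul]
      exact Nat.pow_le_pow_left hb3 q
    rw [pow_add]
    have : 0 < 2 ^ (b * q) := by positivity
    omega
  have hml : 2 * (b * q + 2) ≤ l := by
    have : 2 * (b * q + 2) = 2 * b * q + 4 := by ring
    omega
  obtain ⟨Y, hY1, hY2, hY3⟩ := hlev g t l (b * q + 2) hg1 (by omega) ht hm hml hz hE2
  refine ⟨g, hg1, Y, hY1, ?_, hY3⟩
  -- the number of elements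
  have h16 : Real.sqrt (2 * bb a g) = u ^ 2 * Real.sqrt (2 * sq a) := by
    rw [hB, show 2 * ((g : ℝ) * sq a) = g * (2 * sq a) by ring, Real.sqrt_mul (by positivity), hu2]
  rw [h16, ← hu4] at hY2
  have h17 : u ^ 2 ≤ Y.card * R := by
    rw [div_le_iff₀ (by positivity)] at hY2
    have h18 : u ^ 2 * u ^ 2 ≤ Y.card * R * u ^ 2 := by
      rw [hR]
      calc u ^ 2 * u ^ 2 = u ^ 4 := by ring
        _ ≤ _ := hY2
        _ = _ := by ring
    exact le_of_mul_le_mul_right h18 (by positivity)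
  have h19 : Real.exp ((l : ℝ) / 25) * R ≤ u ^ 2 := by
    have h21 : (y / a) ^ 2 ≤ u ^ 2 := pow_le_pow_left₀ (by positivity) huy 2
    refine le_trans ?_ h21
    rw [div_pow, le_div_iff₀ (by positivity)]
    have h22 : y ^ 2 = Real.exp ((l : ℝ) / 25) * Real.exp (δ * l) := by
      rw [hydef, ← Real.exp_nat_mul, ← Real.exp_add, hδ]
      congr 1
      push_cast
      ring
    rw [h22, mul_assoc]
    refine mul_le_mul_of_nonneg_left ?_ (Real.exp_pos _).le
    have h23 := Real.exp_pos (δ * l)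
    linarith
  exact le_of_mul_le_mul_right (le_trans h19 h17) hR0

end Pool.Agent.Helper20.MC
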