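import Pool.Agent.Helper20.MC.Asm3

/-!
Assembly, last part: real quadratic fields.
-/

namespace Pool.Agent.Helper20.MC

theorem exists_pell {d : ℕ} (hd : ¬ IsSquare d) :
    ∃ a m : ℕ, 2 ≤ a ∧ 1 ≤ m ∧ (a : ℝ) ^ 2 - 1 = d * (m : ℝ) ^ 2 := by
  have hd0 : 0 < d := Nat.pos_of_ne_zero (fun h => hd (h ▸ ⟨0, rfl⟩))
  have hd' : ¬ IsSquare (d : ℤ) := by
    intro h
    exact hd (Int.isSquare_natCast_iff.mp h)
  obtain ⟨x, y, h1, h2⟩ := Pell.exists_of_not_isSquare (by exact_mod_cast hd0) hd'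
  refine ⟨x.natAbs, y.natAbs, ?_, Int.natAbs_pos.mpr h2, ?_⟩
  · by_contra hc
    have h3 : x.natAbs ≤ 1 := by omega
    have h4 : x ^ 2 ≤ 1 := by
      rw [← Int.natAbs_sq]
      have : ((x.natAbs : ℤ)) ≤ 1 := by exact_mod_cast h3
      have h0 : (0 : ℤ) ≤ (x.natAbs : ℤ) := Int.natCast_nonneg _
      nlinarith
    have h5 : 0 < (d : ℤ) * y ^ 2 := by positivity
    omega
  · have h6 : ((x.natAbs : ℝ)) ^ 2 = (x : ℝ) ^ 2 := by
      rw [← sq_abs (x : ℝ), Nat.cast_natAbs]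
      push_cast
      rfl
    have h7 : ((y.natAbs : ℝ)) ^ 2 = (y : ℝ) ^ 2 := by
      rw [← sq_abs (y : ℝ), Nat.cast_natAbs]
      push_cast
      rfl
    rw [h6, h7]
    have h8 : (x : ℝ) ^ 2 - d * (y : ℝ) ^ 2 = 1 := by exact_mod_cast h1
    linarith

/-- Passage from powers of two to all thresholds. -/
theorem log_factor {T : ℕ} (hT : 1 ≤ T) :
    4 * 10 ^ 12 * (((Nat.log 2 T : ℕ) : ℝ) + 1) ^ 2 / 2 ^ (Nat.log 2 T) ≤
      ((24 * 10 ^ 12 : ℕ) : ℝ) * (1 + Real.log T) ^ 2 / T := by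
  have hT' : (1 : ℝ) ≤ T := by exact_mod_cast hT
  have hT0 : (0 : ℝ) < T := by linarith
  have h1 : 2 ^ (Nat.log 2 T) ≤ T := Nat.pow_log_le_self 2 (by omega)
  have h2 : T < 2 ^ (Nat.log 2 T + 1) := Nat.lt_pow_succ_log_self (by norm_num) T
  generalize Nat.log 2 T = j at h1 h2
  have h1' : (2 : ℝ) ^ j ≤ T := by exact_mod_cast h1
  have h2' : (T : ℝ) ≤ 2 * 2 ^ j := by
    have : (T : ℝ) < 2 ^ (j + 1) := by exact_mod_cast h2
    rw [pow_succ] at this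
    linarith
  have h3 : (j : ℝ) * Real.log 2 ≤ Real.log T := by
    rw [← Real.log_pow]
    exact Real.log_le_log (by positivity) h1'
  have h4 := Real.log_two_gt_d9
  have h5 : 0 ≤ Real.log T := Real.log_nonneg hT'
  have hj : (0 : ℝ) ≤ j := Nat.cast_nonneg j
  have h6 : ((j : ℝ) + 1) ≤ 3 / 2 * (1 + Real.log T) := by
    norm_num at h4
    nlinarith
  have h7 : ((j : ℝ) + 1) ^ 2 ≤ 3 * (1 + Real.log T) ^ 2 := by nlinarith
  rw [div_le_div_iff₀ (by positivity) hT0]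
  push_cast
  calc 4 * 10 ^ 12 * ((j : ℝ) + 1) ^ 2 * T
      ≤ 4 * 10 ^ 12 * (3 * (1 + Real.log T) ^ 2) * (2 * 2 ^ j) := by gcongr
    _ = 24000000000000 * (1 + Real.log T) ^ 2 * 2 ^ j := by ring

theorem main : ∃ C : ℕ, ∀ d : ℕ, ¬ IsSquare d → ∃ L : ℕ, ∀ l : ℕ, L ≤ l →
    ∃ S : Finset ℝ, Real.exp ((l : ℝ) / 25) ≤ (S.card : ℝ) ∧ ∀ x ∈ S,
      (∃ p q : ℚ, x = (p : ℝ) + (q : ℝ) * Real.sqrt (d : ℝ)) ∧
      ∃ n : ℕ, 1 ≤ n ∧ n ≤ l ∧ ∃ a : ℕ → ℕ, Function.Periodic a n ∧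
        (∀ k, 1 ≤ a k ∧ a k ≤ C * l) ∧
        (∀ T : ℕ, 1 ≤ T → (((Finset.range n).filter (fun k => T < a k)).card : ℝ) ≤
          C * (1 + Real.log T) ^ 2 / T * n) ∧
        ∀ k : ℕ, ⌊(fun y : ℝ => (Int.fract y)⁻¹)^[k] x⌋ = (a k : ℤ) := by
  classical
  refine ⟨24 * 10 ^ 12, fun d hd => ?_⟩
  obtain ⟨a, m, ha, hm, ham⟩ := exists_pell hd
  obtain ⟨L, hL⟩ := final_a ha
  refine ⟨L, fun l hl => ?_⟩
  obtain ⟨g, hg, Y, hY1, hY2, hY3⟩ := hL l hl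
  refine ⟨Y.image (xv a g), ?_, fun x hx => ?_⟩
  · rw [Finset.card_image_of_injOn (fun p hp q hq h => xv_inj ha hg (hY1 p hp) (hY1 q hq) h)]
    exact hY2
  · obtain ⟨p, hp, rfl⟩ := Finset.mem_image.mp hx
    have hpR := hY1 p hp
    obtain ⟨h1, n, hn1, hn2, hn3, hn4⟩ := hY3 p hp
    have hfl : ∀ k : ℕ, 1 ≤ ⌊xv a g ((nx a g)^[k] p)⌋ := fun k =>
      Int.le_floor.mpr (by push_cast; exact (one_lt_xv (xv_iter ha hg hpR k).1).le)
    refine ⟨⟨(p.1 : ℚ) / p.2, (g : ℚ) * m / p.2, ?_⟩, n, hn1, hn2,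
      fun k => ⌊xv a g ((nx a g)^[k] p)⌋.toNat, ?_, fun k => ?_, fun T hT => ?_, fun k => ?_⟩
    · have hsq : sq a = m * Real.sqrt d := by
        rw [sq, ham, mul_comm (d : ℝ), Real.sqrt_mul (by positivity), Real.sqrt_sq (by positivity)]
      rw [xv, bb, hsq]
      push_cast
      ring
    · intro k
      change ⌊xv a g ((nx a g)^[k + n] p)⌋.toNat = ⌊xv a g ((nx a g)^[k] p)⌋.toNat
      rw [Function.iterate_add_apply, hn3]
    · have h3 := hfl k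
      have h4 := h1 k
      constructor
      · change 1 ≤ ⌊xv a g ((nx a g)^[k] p)⌋.toNat
        omega
      · change ⌊xv a g ((nx a g)^[k] p)⌋.toNat ≤ 24 * 10 ^ 12 * l
        omega
    · have h5 := hn4 (Nat.log 2 T)
      have h6 : 2 ^ (Nat.log 2 T) ≤ T := Nat.pow_log_le_self 2 (by omega)
      have h7 : (Finset.range n).filter (fun k => T < ⌊xv a g ((nx a g)^[k] p)⌋.toNat) ⊆
          (Finset.range n).filter
            (fun i => (2 : ℤ) ^ (Nat.log 2 T) < ⌊xv a g ((nx a g)^[i] p)⌋) := by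
        intro i hi
        rw [Finset.mem_filter] at hi ⊢
        refine ⟨hi.1, ?_⟩
        have h8 : ((2 ^ (Nat.log 2 T) : ℕ) : ℤ) ≤ (T : ℤ) := by exact_mod_cast h6
        push_cast at h8
        have h9 := hi.2
        omega
      have h10 : (((Finset.range n).filter
          (fun k => T < ⌊xv a g ((nx a g)^[k] p)⌋.toNat)).card : ℝ) ≤
          (((Finset.range n).filter
            (fun i => (2 : ℤ) ^ (Nat.log 2 T) < ⌊xv a g ((nx a g)^[i] p)⌋)).card : ℝ) := by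
        exact_mod_cast Finset.card_le_card h7
      refine le_trans h10 (le_trans h5 ?_)
      exact mul_le_mul_of_nonneg_right (log_factor hT) (Nat.cast_nonneg n)
    · have h2 := xv_iter ha hg hpR k
      have h4 := hfl k
      change ⌊gm^[k] (xv a g p)⌋ = ((⌊xv a g ((nx a g)^[k] p)⌋.toNat : ℕ) : ℤ)
      rw [h2.2]
      omega

end Pool.Agent.Helper20.MC
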