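import Pool.Agent.Helper20.MC.Defs

/-!
Continued fraction step on reduced pairs.

PROOF.  `a² - 1` is not a square for `a ≥ 2` (it is between `(a-1)²` and `a²`).  `x = (P + B)/Q`,
`a0 = ⌊x⌋ ≥ 1`, `P' = a0 Q - P`, `Q' = (D g² - P'²) / Q` (exact: `P' ≡ -P mod Q`).
`a0 Q < P + B < (a0 + 1) Q` (irrational), so `P' < B`, `B - P' < Q`, `P' > -B`
(from `P < B`), `Q' > 0`; `B - P' < Q'` because `(B + P') / Q > 1` (`B + P' = B - P + a0 Q > Q`)
and `Q' < B + P'` because `(B - P') / Q < 1`.  `1/(x - a0) = Q/(B - P') = (B + P')/Q'`.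
Injective: `Q = (D g² - P'²) / Q'`, `P = a0 Q - P'` and `P ∈ (B - Q, B)` fixes `a0`.
-/

namespace Pool.Agent.Helper20.MC

theorem sq_sq {a : ℕ} (ha : 2 ≤ a) : sq a ^ 2 = (a : ℝ) ^ 2 - 1 := by
  unfold sq
  rw [Real.sq_sqrt]
  have h : (2 : ℝ) ≤ a := by exact_mod_cast ha
  nlinarith

theorem sq_irr {a : ℕ} (ha : 2 ≤ a) : Irrational (sq a) := by
  have h1 : (a : ℝ) ^ 2 - 1 = ((a ^ 2 - 1 : ℕ) : ℝ) := by
    rw [Nat.cast_sub (Nat.one_le_pow _ _ (by omega))]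
    simp
  unfold sq
  rw [h1, irrational_sqrt_natCast_iff]
  rintro ⟨b, hb⟩
  have h2 : a ^ 2 = b * b + 1 := by
    have h3 : 1 ≤ a ^ 2 := Nat.one_le_pow _ _ (by omega)
    omega
  have h4 : b < a := by
    by_contra hcon
    push Not at hcon
    nlinarith
  nlinarith

theorem bb_irr {a g : ℕ} (ha : 2 ≤ a) (hg : 1 ≤ g) : Irrational (bb a g) := by
  unfold bb
  exact (sq_irr ha).natCast_mul (by omega)

private theorem bb_sq {a : ℕ} (ha : 2 ≤ a) (g : ℕ) : bb a g ^ 2 = ((DD a * (g : ℤ) ^ 2 : ℤ) : ℝ) := by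
  unfold bb
  rw [mul_pow, sq_sq ha]
  push_cast
  ring

theorem red_finite (a g : ℕ) : (Red a g).Finite := by
  refine Set.Finite.subset ((Set.finite_Icc (0 : ℤ) ⌈bb a g⌉).prod
    (Set.finite_Icc (0 : ℤ) ⌈2 * bb a g⌉)) ?_
  rintro ⟨P, Q⟩ ⟨h1, -, h2, h3, h4⟩
  simp only at h1 h2 h3 h4
  have hP : (0 : ℝ) < P := by linarith
  have hP' : 0 < P := by exact_mod_cast hP
  refine ⟨⟨hP'.le, ?_⟩, ⟨h1.le, ?_⟩⟩
  · show P ≤ ⌈bb a g⌉
    exact_mod_cast h2.le.trans (Int.le_ceil _)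
  · show Q ≤ ⌈2 * bb a g⌉
    have h5 : (Q : ℝ) ≤ 2 * bb a g := by linarith
    exact_mod_cast h5.trans (Int.le_ceil _)

private theorem irr_eq {B : ℝ} (hB : Irrational B) {u v : ℤ} (h : (u : ℝ) + v * B = 0) :
    u = 0 ∧ v = 0 := by
  have hv : v = 0 := by
    by_contra hv
    have hv' : (v : ℝ) ≠ 0 := by exact_mod_cast hv
    apply hB
    refine ⟨(-u : ℚ) / v, ?_⟩
    push_cast
    rw [div_eq_iff hv']
    linarith
  refine ⟨?_, hv⟩
  rw [hv] at h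
  simp only [Int.cast_zero, zero_mul, add_zero] at h
  exact_mod_cast h

theorem xv_inj {a g : ℕ} (ha : 2 ≤ a) (hg : 1 ≤ g) : Set.InjOn (xv a g) (Red a g) := by
  rintro ⟨P, Q⟩ hp ⟨P', Q'⟩ hp' h
  have hQ : 0 < Q := hp.1
  have hQ' : 0 < Q' := hp'.1
  have hQr : (Q : ℝ) ≠ 0 := by exact_mod_cast hQ.ne'
  have hQr' : (Q' : ℝ) ≠ 0 := by exact_mod_cast hQ'.ne'
  have h1 : ((P : ℝ) + bb a g) / Q = (P' + bb a g) / Q' := h
  rw [div_eq_div_iff hQr hQr'] at h1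
  obtain ⟨h2, h3⟩ := irr_eq (bb_irr ha hg) (u := P * Q' - P' * Q) (v := Q' - Q) (by
    push_cast
    linarith)
  have h4 : Q' = Q := by omega
  subst h4
  have h5 : P = P' := by
    have h6 : (P - P') * Q' = 0 := by linarith
    rcases mul_eq_zero.1 h6 with h7 | h7
    · omega
    · omega
  rw [h5]

theorem one_lt_xv {a g : ℕ} {p : ℤ × ℤ} (hp : p ∈ Red a g) : 1 < xv a g p := by
  obtain ⟨h1, -, -, -, h4⟩ := hp
  unfold xv
  have h5 : (0 : ℝ) < p.2 := by exact_mod_cast h1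
  rw [lt_div_iff₀ h5]
  linarith

/-- the facts on one step -/
private theorem step {a g : ℕ} (ha : 2 ≤ a) (hg : 1 ≤ g) {p : ℤ × ℤ} (hp : p ∈ Red a g) :
    1 ≤ ⌊xv a g p⌋ ∧ (nx a g p).1 = ⌊xv a g p⌋ * p.2 - p.1 ∧
      p.2 * (nx a g p).2 = DD a * (g : ℤ) ^ 2 - (nx a g p).1 ^ 2 ∧
      (p.2 : ℝ) * (nx a g p).2 = (bb a g - (nx a g p).1) * (bb a g + (nx a g p).1) ∧
      ((nx a g p).1 : ℝ) < bb a g ∧ bb a g - (nx a g p).1 < p.2 ∧
      (p.2 : ℝ) < bb a g + (nx a g p).1 ∧ 0 < (nx a g p).2 := by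
  obtain ⟨h1, h2, h3, h4, h5⟩ := id hp
  have hx := one_lt_xv hp
  have hQ : (0 : ℝ) < p.2 := by exact_mod_cast h1
  have hm : 1 ≤ ⌊xv a g p⌋ := Int.le_floor.2 (by simpa using hx.le)
  set m : ℤ := ⌊xv a g p⌋ with hmd
  have e1 : (nx a g p).1 = m * p.2 - p.1 := rfl
  have hmx : (m : ℝ) ≤ xv a g p := Int.floor_le _
  have hmx' : xv a g p < m + 1 := Int.lt_floor_add_one _
  have h6 : (m : ℝ) * p.2 ≤ p.1 + bb a g := by
    unfold xv at hmx
    rwa [le_div_iff₀ hQ] at hmx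
  have h7 : (p.1 : ℝ) + bb a g < (m + 1) * p.2 := by
    unfold xv at hmx'
    rwa [div_lt_iff₀ hQ] at hmx'
  have h8 : (m : ℝ) * p.2 ≠ p.1 + bb a g := by
    intro e
    have h9 := irr_eq (bb_irr ha hg) (u := p.1 - m * p.2) (v := 1) (by
      push_cast
      linarith)
    exact one_ne_zero h9.2
  have h9 : (m : ℝ) * p.2 < p.1 + bb a g := lt_of_le_of_ne h6 h8
  have hdvd : p.2 ∣ DD a * (g : ℤ) ^ 2 - (m * p.2 - p.1) ^ 2 := by
    have e : DD a * (g : ℤ) ^ 2 - (m * p.2 - p.1) ^ 2 =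
        (DD a * (g : ℤ) ^ 2 - p.1 ^ 2) + p.2 * (2 * m * p.1 - m ^ 2 * p.2) := by ring
    rw [e]
    exact dvd_add h2 (dvd_mul_right _ _)
  have e2 : p.2 * (nx a g p).2 = DD a * (g : ℤ) ^ 2 - (nx a g p).1 ^ 2 := by
    rw [e1]
    exact Int.mul_ediv_cancel' hdvd
  have e3 : (p.2 : ℝ) * (nx a g p).2 = (bb a g - (nx a g p).1) * (bb a g + (nx a g p).1) := by
    have h10 : ((p.2 * (nx a g p).2 : ℤ) : ℝ) =
        ((DD a * (g : ℤ) ^ 2 - (nx a g p).1 ^ 2 : ℤ) : ℝ) := by rw [e2]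
    rw [Int.cast_mul, Int.cast_sub, ← bb_sq ha g] at h10
    rw [h10]
    push_cast
    ring
  have e4 : ((nx a g p).1 : ℝ) = m * p.2 - p.1 := by
    rw [e1]
    push_cast
    ring
  have h11 : ((nx a g p).1 : ℝ) < bb a g := by
    rw [e4]
    linarith
  have h12 : bb a g - (nx a g p).1 < p.2 := by
    rw [e4]
    linarith
  have hm' : (1 : ℝ) ≤ m := by exact_mod_cast hm
  have h13 : (p.2 : ℝ) < bb a g + (nx a g p).1 := by
    rw [e4]
    nlinarith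
  refine ⟨hm, rfl, e2, e3, h11, h12, h13, ?_⟩
  have h14 : (0 : ℝ) < (p.2 : ℝ) * (nx a g p).2 := by
    rw [e3]
    exact mul_pos (by linarith) (by linarith)
  have h15 : (0 : ℝ) < (nx a g p).2 := (mul_pos_iff_of_pos_left hQ).1 h14
  exact_mod_cast h15

theorem nx_mem {a g : ℕ} (ha : 2 ≤ a) (hg : 1 ≤ g) {p : ℤ × ℤ} (hp : p ∈ Red a g) :
    nx a g p ∈ Red a g := by
  obtain ⟨-, -, e2, e3, h1, h2, h3, h4⟩ := step ha hg hp
  have hQ : (0 : ℝ) < p.2 := by exact_mod_cast hp.1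
  refine ⟨h4, ⟨p.2, ?_⟩, h1, ?_, ?_⟩
  · rw [← e2]
    ring
  · -- `(B - P') Q < (B - P') (B + P') = Q Q'`
    have h5 : (bb a g - (nx a g p).1) * p.2 < (bb a g - (nx a g p).1) * (bb a g + (nx a g p).1) :=
      mul_lt_mul_of_pos_left h3 (by linarith)
    rw [← e3, mul_comm] at h5
    exact lt_of_mul_lt_mul_left h5 hQ.le
  · have h5 : (bb a g - (nx a g p).1) * (bb a g + (nx a g p).1) < p.2 * (bb a g + (nx a g p).1) :=
      mul_lt_mul_of_pos_right h2 (by linarith)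
    rw [← e3] at h5
    exact lt_of_mul_lt_mul_left h5 hQ.le

theorem xv_nx {a g : ℕ} (ha : 2 ≤ a) (hg : 1 ≤ g) {p : ℤ × ℤ} (hp : p ∈ Red a g) :
    gm (xv a g p) = xv a g (nx a g p) := by
  obtain ⟨-, e1, -, e3, h1, -, h3, h4⟩ := step ha hg hp
  have hQ : (0 : ℝ) < p.2 := by exact_mod_cast hp.1
  have hQ' : (0 : ℝ) < (nx a g p).2 := by exact_mod_cast h4
  have e4 : Int.fract (xv a g p) = (bb a g - (nx a g p).1) / p.2 := by
    rw [Int.fract, eq_div_iff hQ.ne', e1]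
    have h5 : xv a g p * p.2 = p.1 + bb a g := by
      unfold xv
      exact div_mul_cancel₀ _ hQ.ne'
    push_cast
    rw [sub_mul, h5]
    ring
  have h6 : bb a g - (nx a g p).1 ≠ 0 := by
    intro h
    linarith
  unfold gm
  rw [e4, inv_div]
  show (p.2 : ℝ) / (bb a g - (nx a g p).1) = ((nx a g p).1 + bb a g) / (nx a g p).2
  rw [div_eq_div_iff h6 hQ'.ne', e3]
  ring

theorem nx_inj {a g : ℕ} (ha : 2 ≤ a) (hg : 1 ≤ g) : Set.InjOn (nx a g) (Red a g) := by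
  intro p hp p' hp' h
  obtain ⟨-, e1, e2, -, -, -, -, h4⟩ := step ha hg hp
  obtain ⟨-, e1', e2', -, -, -, -, -⟩ := step ha hg hp'
  rw [← h] at e1' e2'
  have hq : p.2 = p'.2 := by
    have h5 : p.2 * (nx a g p).2 = p'.2 * (nx a g p).2 := e2.trans e2'.symm
    exact mul_right_cancel₀ h4.ne' h5
  have h6 : p.1 - p'.1 = (⌊xv a g p⌋ - ⌊xv a g p'⌋) * p.2 := by
    rw [← hq] at e1'
    have h7 := e1.symm.trans e1'
    linarith
  obtain ⟨k1, -, k2, k3, -⟩ := hp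
  obtain ⟨-, -, k2', k3', -⟩ := hp'
  rw [← hq] at k3'
  have h8 : ((p.1 - p'.1 : ℤ) : ℝ) < p.2 := by
    push_cast
    linarith
  have h9 : -(p.2 : ℝ) < ((p.1 - p'.1 : ℤ) : ℝ) := by
    push_cast
    linarith
  have h8' : p.1 - p'.1 < p.2 := by exact_mod_cast h8
  have h9' : -p.2 < p.1 - p'.1 := by exact_mod_cast h9
  have h10 : ⌊xv a g p⌋ - ⌊xv a g p'⌋ = 0 := by
    set k : ℤ := ⌊xv a g p⌋ - ⌊xv a g p'⌋
    rw [h6] at h8' h9'
    have h11 : k < 1 := by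
      by_contra hcon
      push Not at hcon
      nlinarith
    have h12 : -1 < k := by
      by_contra hcon
      push Not at hcon
      nlinarith
    omega
  rw [h10, zero_mul] at h6
  exact Prod.ext (by linarith) hq

end Pool.Agent.Helper20.MC
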