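import Mathlib

/-!
Project MC (MP_277ac5_nt).  For `a ≥ 2` put `D = a² - 1`, `ε = a + √D`, and for `g ≥ 1`
`B = g √D`.  Reduced quadratic irrationals `x = (P + B) / Q`.
-/

namespace Pool.Agent.Helper20.MC

/-- `D = a² - 1`. -/
abbrev DD (a : ℕ) : ℤ := (a : ℤ) ^ 2 - 1

/-- `√(a² - 1)`. -/
noncomputable def sq (a : ℕ) : ℝ := Real.sqrt ((a : ℝ) ^ 2 - 1)

/-- `ε = a + √(a² - 1)`. -/
noncomputable def eps (a : ℕ) : ℝ := a + sq a

/-- First real embedding. -/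
noncomputable def ph (a : ℕ) (v : ℤ√(DD a)) : ℝ := v.re + v.im * sq a

/-- Second real embedding. -/
noncomputable def ps (a : ℕ) (v : ℤ√(DD a)) : ℝ := v.re - v.im * sq a

/-- Fundamental domain for the group generated by `-1` and `ε`. -/
def Dom (a : ℕ) (v : ℤ√(DD a)) : Prop :=
  0 < ph a v ∧ |ps a v| ≤ ph a v ∧ ph a v < (eps a) ^ 2 * |ps a v|

/-- Elements of the domain with norm less than `z` in absolute value. -/
def AS (a : ℕ) (z : ℝ) : Set (ℤ√(DD a)) := {v | Dom a v ∧ |(v.norm : ℝ)| < z}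

/-- Primitive elements of the domain with norm less than `z` in absolute value. -/
def PS (a : ℕ) (z : ℝ) : Set (ℤ√(DD a)) :=
  {v | Dom a v ∧ IsCoprime v.re v.im ∧ |(v.norm : ℝ)| < z}

/-- `B = g √(a² - 1)`. -/
noncomputable def bb (a g : ℕ) : ℝ := g * sq a

/-- Reduced pairs `(P, Q)`: `x = (P + B) / Q > 1` and its conjugate is in `(-1, 0)`. -/
def Red (a g : ℕ) : Set (ℤ × ℤ) :=
  {p | 0 < p.2 ∧ p.2 ∣ DD a * (g : ℤ) ^ 2 - p.1 ^ 2 ∧ (p.1 : ℝ) < bb a g ∧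
    bb a g - p.1 < p.2 ∧ (p.2 : ℝ) < bb a g + p.1}

/-- The real number of a pair. -/
noncomputable def xv (a g : ℕ) (p : ℤ × ℤ) : ℝ := (p.1 + bb a g) / p.2

/-- The next pair. -/
noncomputable def nx (a g : ℕ) (p : ℤ × ℤ) : ℤ × ℤ :=
  (⌊xv a g p⌋ * p.2 - p.1, (DD a * (g : ℤ) ^ 2 - (⌊xv a g p⌋ * p.2 - p.1) ^ 2) / p.2)

/-- The Gauss map. -/
noncomputable def gm (y : ℝ) : ℝ := (Int.fract y)⁻¹

/-- The set whose cardinality is the weight of a pair. -/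
def W (a g : ℕ) (p : ℤ × ℤ) : Set (ℤ√(DD a)) :=
  {v | Dom a v ∧ |v.norm| = p.2 ∧ v ∣ ⟨p.1, -(g : ℤ)⟩}

/-- Number of dyadic pieces. -/
def KK (a : ℕ) : ℕ := Nat.log 2 a

end Pool.Agent.Helper20.MC
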