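import Pool.Agent.Helper20.MC.Defs

/-!
The number of integers `P` in a window.

PROOF.  `content_dvd`: compare the coefficients of `√D`.
`window`: let `v = X + Y √D`, `X w + Y u = -1` (Bezout), `c = X u + D Y w`; then
`v ∣ c - √D`.  Let `g = e g'`.  If `e v ∣ P - g √D` then `e ∣ P`, `P = e R` and
`v ∣ R - g' √D`, equivalently `v ∣ R - g' c`, equivalently `N v ∣ R - g' c`
(an integer `m = v (u + w √D)` has `X w + Y u = 0`, so `(u, w) = t (X, -Y)`, `m = t N v`).
So `P ∈ (b - e² |N|, b]` is in the set iff `P ≡ e g' c mod e |N|`: exactly `e` values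
(`Int.Ioc_filter_modEq_card` or a bijection with `Finset.range e`).
-/

namespace Pool.Agent.Helper20.MC

/-- Divisibility written out in coordinates. -/
theorem Win_dvd_iff {a g : ℕ} {v : ℤ√(DD a)} {e : ℕ} {P : ℤ} :
    ((e : ℤ√(DD a)) * v) ∣ ⟨P, -(g : ℤ)⟩ ↔
      ∃ u w : ℤ, P = (e : ℤ) * (v.re * u + DD a * v.im * w) ∧
        -(g : ℤ) = (e : ℤ) * (v.re * w + v.im * u) := by
  constructor
  · rintro ⟨⟨u, w⟩, h⟩
    refine ⟨u, w, ?_, ?_⟩
    · have := congrArg Zsqrtd.re h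
      simp at this
      rw [this]; ring
    · have := congrArg Zsqrtd.im h
      simp at this
      simp only [DD] at *
      linarith
  · rintro ⟨u, w, h1, h2⟩
    refine ⟨⟨u, w⟩, ?_⟩
    rw [Zsqrtd.ext_iff]
    constructor
    · simp
      rw [h1]; ring
    · simp
      linarith

/-- The number of `P` in the window: for a primitive `v` and `e ∣ g` there are exactly `e`
integers `P` in a half-open interval of length `e² |N v|` with `e v ∣ P - g √D`. -/
theorem window {a g : ℕ} {v : ℤ√(DD a)} (hv : IsCoprime v.re v.im) (hN : v.norm ≠ 0)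
    {e : ℕ} (he : 1 ≤ e) (heg : e ∣ g) (b : ℤ) :
    {P : ℤ | b - (e : ℤ) ^ 2 * |v.norm| < P ∧ P ≤ b ∧
      ((e : ℤ√(DD a)) * v) ∣ ⟨P, -(g : ℤ)⟩}.ncard = e := by
  obtain ⟨g', rfl⟩ := heg
  obtain ⟨α, β, hαβ⟩ := hv
  have hNd : v.norm = v.re * v.re - DD a * v.im * v.im := Zsqrtd.norm_def v
  have he0 : (0 : ℤ) < (e : ℤ) := by exact_mod_cast he
  have hr : (0 : ℤ) < (e : ℤ) * |v.norm| := mul_pos he0 (abs_pos.mpr hN)
  have key : ∀ P : ℤ, (((e : ℤ√(DD a)) * v) ∣ ⟨P, -((e * g' : ℕ) : ℤ)⟩) ↔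
      P ≡ (e : ℤ) * g' * (-(v.re * β + DD a * v.im * α)) [ZMOD (e : ℤ) * |v.norm|] := by
    intro P
    rw [Win_dvd_iff, Int.modEq_iff_dvd]
    have habs : ((e : ℤ) * |v.norm| ∣ (e : ℤ) * g' * (-(v.re * β + DD a * v.im * α)) - P) ↔
        ((e : ℤ) * v.norm ∣ (e : ℤ) * g' * (-(v.re * β + DD a * v.im * α)) - P) := by
      rw [← Int.dvd_natAbs, ← Int.natAbs_dvd]
      conv_rhs => rw [← Int.dvd_natAbs, ← Int.natAbs_dvd]
      rw [Int.natAbs_mul, Int.natAbs_mul, Int.natAbs_abs]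
    rw [habs]
    constructor
    · rintro ⟨u, w, h1, h2⟩
      have h3 : v.re * w + v.im * u = -(g' : ℤ) := by
        have : (e : ℤ) * (v.re * w + v.im * u) = (e : ℤ) * (-(g' : ℤ)) := by
          rw [← h2]; push_cast; ring
        exact mul_left_cancel₀ he0.ne' this
      -- `u + g' β = t X`, `w + g' α = - t Y`
      have h4 : v.re * (w + g' * α) + v.im * (u + g' * β) = 0 := by
        have : (g' : ℤ) * (α * v.re + β * v.im) = g' := by rw [hαβ, mul_one]
        linarith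
      set t : ℤ := α * (u + g' * β) - β * (w + g' * α) with ht
      have h5 : u + g' * β = t * v.re := by
        have : t * v.re = (α * v.re + β * v.im) * (u + g' * β)
            - β * (v.re * (w + g' * α) + v.im * (u + g' * β)) := by rw [ht]; ring
        rw [this, hαβ, h4]; ring
      have h6 : w + g' * α = - t * v.im := by
        have : - t * v.im = (α * v.re + β * v.im) * (w + g' * α)
            - α * (v.re * (w + g' * α) + v.im * (u + g' * β)) := by rw [ht]; ring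
        rw [this, hαβ, h4]; ring
      refine ⟨-t, ?_⟩
      have hu : u = t * v.re - g' * β := by linarith
      have hw : w = - t * v.im - g' * α := by linarith
      rw [h1, hu, hw, hNd]; ring
    · rintro ⟨t, ht⟩
      refine ⟨-t * v.re - g' * β, t * v.im - g' * α, ?_, ?_⟩
      · have : P = (e : ℤ) * g' * (-(v.re * β + DD a * v.im * α)) - (e : ℤ) * v.norm * t := by
          linarith
        rw [this, hNd]; ring
      · have : (e : ℤ) * (v.re * (t * v.im - g' * α) + v.im * (-t * v.re - g' * β))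
            = -((e : ℤ) * g' * (α * v.re + β * v.im)) := by ring
        rw [this, hαβ]; push_cast; ring
  have hset : {P : ℤ | b - (e : ℤ) ^ 2 * |v.norm| < P ∧ P ≤ b ∧
      ((e : ℤ√(DD a)) * v) ∣ ⟨P, -((e * g' : ℕ) : ℤ)⟩} =
      ↑((Finset.Ioc (b - (e : ℤ) * ((e : ℤ) * |v.norm|)) b).filter
        (fun P => P ≡ (e : ℤ) * g' * (-(v.re * β + DD a * v.im * α))
          [ZMOD (e : ℤ) * |v.norm|])) := by
    ext P
    simp only [Set.mem_setOf_eq, Finset.coe_filter, Finset.mem_Ioc]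
    rw [key P]
    constructor
    · rintro ⟨h1, h2, h3⟩
      refine ⟨⟨?_, h2⟩, h3⟩
      have : (e : ℤ) ^ 2 * |v.norm| = (e : ℤ) * ((e : ℤ) * |v.norm|) := by ring
      rw [← this]; exact h1
    · rintro ⟨⟨h1, h2⟩, h3⟩
      refine ⟨?_, h2, h3⟩
      have : (e : ℤ) ^ 2 * |v.norm| = (e : ℤ) * ((e : ℤ) * |v.norm|) := by ring
      rw [this]; exact h1
  rw [hset, Set.ncard_coe_finset]
  have hcard := Int.Ioc_filter_modEq_card (b - (e : ℤ) * ((e : ℤ) * |v.norm|)) b hr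
    ((e : ℤ) * g' * (-(v.re * β + DD a * v.im * α)))
  set r : ℤ := (e : ℤ) * |v.norm| with hrdef
  set s : ℤ := (e : ℤ) * g' * (-(v.re * β + DD a * v.im * α)) with hs
  have hrq : (r : ℚ) ≠ 0 := by exact_mod_cast hr.ne'
  have hfl : ⌊(((b - (e : ℤ) * r : ℤ) : ℚ) - (s : ℚ)) / (r : ℚ)⌋
      = ⌊((b : ℚ) - (s : ℚ)) / (r : ℚ)⌋ - (e : ℤ) := by
    rw [← Int.floor_sub_intCast]
    congr 1
    push_cast
    field_simp
    ring
  rw [hfl] at hcard
  have h2 : ⌊((b : ℚ) - (s : ℚ)) / (r : ℚ)⌋ - (⌊((b : ℚ) - (s : ℚ)) / (r : ℚ)⌋ - (e : ℤ)) = e := by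
    ring
  rw [h2, max_eq_left he0.le] at hcard
  exact_mod_cast hcard

/-- If `e v ∣ P - g √D` then `e ∣ g`. -/
theorem content_dvd {a g : ℕ} {v : ℤ√(DD a)} {e : ℕ} {P : ℤ}
    (h : ((e : ℤ√(DD a)) * v) ∣ ⟨P, -(g : ℤ)⟩) : e ∣ g := by
  obtain ⟨u, w, -, h2⟩ := Win_dvd_iff.mp h
  have : (e : ℤ) ∣ -(g : ℤ) := ⟨_, h2⟩
  rw [dvd_neg] at this
  exact_mod_cast this

end Pool.Agent.Helper20.MC
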